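import Pool.Agent.Work.Chen.Dens
import Pool.Agent.Work.BV.Main

/-!
# The main term of Chen's theorem; the remainder term by Bombieri–Vinogradov
-/

set_option autoImplicit false

namespace Pool.Agent.Chen

open Finset Filter
open scoped Classical

/-- The error term for the modulus `m`. -/
noncomputable def Em (N Y m : ℕ) : ℝ :=
  |(((Pr Y).filter (fun p => m ∣ N - p)).card : ℝ) - ((Pr Y).card : ℝ) / (m.totient : ℝ)|

lemma Em_nonneg (N Y m : ℕ) : 0 ≤ Em N Y m := abs_nonneg _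

lemma split_card (Y : ℕ) (R : ℕ → Prop) [DecidablePred R] :
    (((Ioc 0 (2 * Y)).filter (fun n : ℕ => n.Prime ∧ R n)).card : ℝ) =
      (((Ioc 0 Y).filter (fun n : ℕ => n.Prime ∧ R n)).card : ℝ) +
        (((Pr Y).filter R).card : ℝ) := by
  have h1 : (Ioc 0 (2 * Y)).filter (fun n : ℕ => n.Prime ∧ R n) =
      (Ioc 0 Y).filter (fun n : ℕ => n.Prime ∧ R n) ∪ (Pr Y).filter R := by
    ext n
    simp only [Pr, mem_filter, mem_union, mem_Ioc]
    constructor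
    · rintro ⟨⟨h1, h2⟩, h3, h4⟩
      rcases le_or_gt n Y with h5 | h5
      · exact Or.inl ⟨⟨h1, h5⟩, h3, h4⟩
      · exact Or.inr ⟨⟨⟨h5, h2⟩, h3⟩, h4⟩
    · rintro (⟨⟨h1, h2⟩, h3, h4⟩ | ⟨⟨⟨h1, h2⟩, h3⟩, h4⟩)
      · exact ⟨⟨h1, by omega⟩, h3, h4⟩
      · exact ⟨⟨by omega, h2⟩, h3, h4⟩
  rw [h1, card_union_of_disjoint, Nat.cast_add]
  rw [disjoint_left]
  intro n h2 h3
  simp only [Pr, mem_filter, mem_Ioc] at h2 h3
  omega

/-- The sum of the errors, by Bombieri–Vinogradov. -/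
theorem err_sum (A : ℕ) : ∃ (B : ℕ) (C : ℝ), 0 < C ∧ ∀ (N Y : ℕ), 1 ≤ Y → 2 * Y ≤ N → ∀ Q : ℕ,
    (Q : ℝ) ≤ √(2 * Y : ℝ) / (Real.log (2 * Y)) ^ B → ∀ M : Finset ℕ,
    (∀ m ∈ M, 0 < m ∧ m ≤ Q ∧ m.Coprime N) →
    ∑ m ∈ M, Em N Y m ≤ C * (2 * Y / (Real.log (2 * Y)) ^ A) := by
  obtain ⟨B, C, hC, hBV⟩ := BV.main_bvp A
  refine ⟨B, 2 * C, by positivity, fun N Y hY hYN Q hQ M hM => ?_⟩
  have hY1 : (1 : ℝ) ≤ Y := by exact_mod_cast hY
  let a : (q : ℕ) → ZMod q := fun q => if q.Coprime N then (N : ZMod q) else 1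
  have ha : ∀ q, IsUnit (a q) := by
    intro q
    by_cases h : q.Coprime N
    · simp only [a, if_pos h]
      exact (ZMod.isUnit_iff_coprime N q).2 h.symm
    · simp only [a, if_neg h]
      exact isUnit_one
  have h1 := hBV (2 * Y) (by linarith) Q hQ (fun _ => 2 * Y) (fun _ => by push_cast; exact le_rfl) a ha
  have h2 := hBV (2 * Y) (by linarith) Q hQ (fun _ => Y) (fun _ => by linarith) a ha
  have h3 : ∀ m ∈ M, Em N Y m ≤
      |((((Ioc 0 (2 * Y)).filter (fun n : ℕ => n.Prime ∧ (n : ZMod m) = a m)).card : ℝ)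
        - (((Ioc 0 (2 * Y)).filter Nat.Prime).card : ℝ) / (m.totient : ℝ))| +
      |((((Ioc 0 Y).filter (fun n : ℕ => n.Prime ∧ (n : ZMod m) = a m)).card : ℝ)
        - (((Ioc 0 Y).filter Nat.Prime).card : ℝ) / (m.totient : ℝ))| := by
    intro m hm
    obtain ⟨hm0, hmQ, hmc⟩ := hM m hm
    have h4 := split_card Y (fun n : ℕ => (n : ZMod m) = a m)
    have h5 := split_card Y (fun _ : ℕ => True)
    have h6 : (Pr Y).filter (fun n : ℕ => (n : ZMod m) = a m) =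
        (Pr Y).filter (fun p => m ∣ N - p) := by
      apply filter_congr
      intro p hp
      have hp1 := mem_Ioc.1 (mem_filter.1 hp).1
      have h7 : p ≤ N := hp1.2.trans hYN
      rw [dvd_sub_iff h7]
      simp only [a, if_pos hmc]
    rw [h6] at h4
    simp only [and_true, filter_true] at h5
    unfold Em
    rw [show ((((Pr Y).filter (fun p => m ∣ N - p)).card : ℝ)) - ((Pr Y).card : ℝ) / (m.totient : ℝ)
      = ((((Ioc 0 (2 * Y)).filter (fun n : ℕ => n.Prime ∧ (n : ZMod m) = a m)).card : ℝ)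
        - (((Ioc 0 (2 * Y)).filter Nat.Prime).card : ℝ) / (m.totient : ℝ)) -
        ((((Ioc 0 Y).filter (fun n : ℕ => n.Prime ∧ (n : ZMod m) = a m)).card : ℝ)
        - (((Ioc 0 Y).filter Nat.Prime).card : ℝ) / (m.totient : ℝ)) by
      rw [h4, h5]; ring]
    exact abs_sub _ _
  have h4 : M ⊆ Ioc 0 Q := fun m hm => mem_Ioc.2 ⟨(hM m hm).1, (hM m hm).2.1⟩
  calc ∑ m ∈ M, Em N Y m ≤ ∑ m ∈ M, (|((((Ioc 0 (2 * Y)).filter
          (fun n : ℕ => n.Prime ∧ (n : ZMod m) = a m)).card : ℝ)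
          - (((Ioc 0 (2 * Y)).filter Nat.Prime).card : ℝ) / (m.totient : ℝ))| +
        |((((Ioc 0 Y).filter (fun n : ℕ => n.Prime ∧ (n : ZMod m) = a m)).card : ℝ)
          - (((Ioc 0 Y).filter Nat.Prime).card : ℝ) / (m.totient : ℝ))|) := sum_le_sum h3
    _ ≤ ∑ m ∈ Ioc 0 Q, (|((((Ioc 0 (2 * Y)).filter
          (fun n : ℕ => n.Prime ∧ (n : ZMod m) = a m)).card : ℝ)
          - (((Ioc 0 (2 * Y)).filter Nat.Prime).card : ℝ) / (m.totient : ℝ))| +
        |((((Ioc 0 Y).filter (fun n : ℕ => n.Prime ∧ (n : ZMod m) = a m)).card : ℝ)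
          - (((Ioc 0 Y).filter Nat.Prime).card : ℝ) / (m.totient : ℝ))|) :=
        sum_le_sum_of_subset_of_nonneg h4 (fun _ _ _ => by positivity)
    _ ≤ C * (2 * Y / (Real.log (2 * Y)) ^ A) + C * (2 * Y / (Real.log (2 * Y)) ^ A) := by
        rw [sum_add_distrib]
        exact add_le_add h1 h2
    _ = _ := by ring

/-- Powers of the logarithm against powers. -/
lemma log_pow_le (m : ℕ) (η K : ℝ) (hη : 0 < η) (hK : 0 < K) :
    ∀ᶠ x : ℝ in atTop, K * (Real.log x) ^ m ≤ x ^ η := by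
  have h1 := (isLittleO_log_rpow_rpow_atTop (m : ℝ) hη).bound (inv_pos.2 hK)
  filter_upwards [h1, eventually_ge_atTop 1] with x h2 hx
  rw [Real.rpow_natCast, Real.norm_of_nonneg (pow_nonneg (Real.log_nonneg hx) _),
    Real.norm_of_nonneg (Real.rpow_nonneg (by linarith) _)] at h2
  calc K * (Real.log x) ^ m ≤ K * (K⁻¹ * x ^ η) := mul_le_mul_of_nonneg_left h2 hK.le
    _ = x ^ η := by field_simp

lemma ev_nat {p : ℝ → Prop} (h : ∀ᶠ x : ℝ in atTop, p x) : ∃ N₀ : ℕ, ∀ N ≥ N₀, p (N : ℝ) := by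
  have h1 := tendsto_natCast_atTop_atTop.eventually h
  exact eventually_atTop.1 h1

/-- Basic facts for admissible pairs. -/
lemma reg_basic {k N Y : ℕ} (h : Reg k N Y) (hN : 1 ≤ N) : 1 ≤ Y ∧ 2 * Y ≤ N := by
  obtain ⟨h1, h2, h3⟩ := h
  refine ⟨?_, by omega⟩
  rcases Nat.eq_zero_or_pos Y with h4 | h4
  · subst h4
    have : (1 : ℝ) ≤ N := by exact_mod_cast hN
    simp at h3
    omega
  · exact h4

/-- The level of distribution. -/
theorem level (k B : ℕ) (η K : ℝ) (hη : 0 < η) (hK : 0 < K) : ∃ N₀ : ℕ, ∀ N ≥ N₀, ∀ Y,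
    Reg k N Y → (N : ℝ) ^ (1 / 2 - η) * K ≤ √(2 * Y : ℝ) / (Real.log (2 * Y)) ^ B := by
  obtain ⟨N₀, hN₀⟩ := ev_nat ((log_pow_le (k + B) η K hη hK).and
    (eventually_ge_atTop (Real.exp 1)))
  refine ⟨N₀, fun N hN Y hR => ?_⟩
  obtain ⟨h1, h2⟩ := hN₀ N hN
  have hN0 : (0 : ℝ) < N := (Real.exp_pos 1).trans_le h2
  have hN1 : 1 ≤ N := by
    have : 0 < N := by exact_mod_cast hN0
    exact this
  obtain ⟨hY1, hY2⟩ := reg_basic hR hN1
  have hY1' : (1 : ℝ) ≤ Y := by exact_mod_cast hY1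
  have hY2' : (2 * Y : ℝ) ≤ N := by exact_mod_cast hY2
  have hl1 : 1 ≤ Real.log N := by
    rw [Real.le_log_iff_exp_le hN0]
    exact h2
  have hl0 : 0 < Real.log N := by linarith
  have hly : 0 < Real.log (2 * Y) := Real.log_pos (by linarith)
  have hly2 : Real.log (2 * Y) ≤ Real.log N := Real.log_le_log (by linarith) hY2'
  rw [le_div_iff₀ (by positivity)]
  have h3 : √(N : ℝ) ≤ √(2 * Y : ℝ) * (Real.log N) ^ k := by
    have h4 : (N : ℝ) ≤ (2 * Y : ℝ) * ((Real.log N) ^ k) ^ 2 := by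
      refine hR.2.2.trans ?_
      have h5 : (1 : ℝ) ≤ (Real.log N) ^ k := one_le_pow₀ hl1
      nlinarith [mul_nonneg (by linarith : (0 : ℝ) ≤ Y) (by linarith : (0 : ℝ) ≤ (Real.log N) ^ k),
        mul_le_mul_of_nonneg_left h5 (mul_nonneg (by linarith : (0 : ℝ) ≤ Y)
          (by linarith : (0 : ℝ) ≤ (Real.log N) ^ k))]
    calc √(N : ℝ) ≤ √((2 * Y : ℝ) * ((Real.log N) ^ k) ^ 2) := Real.sqrt_le_sqrt h4
      _ = √(2 * Y : ℝ) * (Real.log N) ^ k := by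
          rw [Real.sqrt_mul (by positivity), Real.sqrt_sq (by positivity)]
  have h4 : (N : ℝ) ^ (1 / 2 - η) * (N : ℝ) ^ η = √(N : ℝ) := by
    rw [← Real.rpow_add hN0, Real.sqrt_eq_rpow]
    congr 1
    ring
  have h5 : (N : ℝ) ^ (1 / 2 - η) * K * (Real.log (2 * Y)) ^ B * (Real.log N) ^ k ≤ √(N : ℝ) := by
    rw [← h4]
    have h6 : (Real.log (2 * Y)) ^ B ≤ (Real.log N) ^ B := pow_le_pow_left₀ hly.le hly2 B
    calc (N : ℝ) ^ (1 / 2 - η) * K * (Real.log (2 * Y)) ^ B * (Real.log N) ^ k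
        ≤ (N : ℝ) ^ (1 / 2 - η) * K * (Real.log N) ^ B * (Real.log N) ^ k := by gcongr
      _ = (N : ℝ) ^ (1 / 2 - η) * (K * (Real.log N) ^ (k + B)) := by ring
      _ ≤ _ := by gcongr
  have h6 : 0 < (Real.log N) ^ k := by positivity
  nlinarith [h5.trans h3]

/-- **The remainder term**: small against the main term. -/
theorem err_small (hPR : Stmt_PR) (k : ℕ) (δ η K : ℝ) (hδ : 0 < δ) (hη : 0 < η) (hK : 0 < K) :
    ∃ N₀ : ℕ, ∀ N ≥ N₀, ∀ Y, Reg k N Y → ∀ M : Finset ℕ,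
    (∀ m ∈ M, 0 < m ∧ (m : ℝ) < (N : ℝ) ^ (1 / 2 - η) * K ∧ m.Coprime N) →
    ∑ m ∈ M, Em N Y m ≤ δ * (((Pr Y).card : ℝ) * VN N ((N : ℝ) ^ (1 / 8 : ℝ))) := by
  obtain ⟨B, C, hC, hE⟩ := err_sum 3
  obtain ⟨N₁, h1⟩ := level k B η K hη hK
  obtain ⟨N₂, h2⟩ := hPR k (1 / 2) (by norm_num)
  obtain ⟨c, hc, hV⟩ := VN_lower
  obtain ⟨N₃, h3⟩ := ev_nat ((log_pow_le k (1 / 2) 1 (by norm_num) one_pos).and
    ((Real.tendsto_log_atTop.eventually_ge_atTop (4 * C / (c * δ))).and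
      (eventually_ge_atTop (256 : ℝ))))
  refine ⟨max N₁ (max N₂ N₃), fun N hN Y hR M hM => ?_⟩
  have hN1 : N₁ ≤ N := (le_max_left _ _).trans hN
  have hN2 : N₂ ≤ N := (le_max_left _ _).trans ((le_max_right _ _).trans hN)
  have hN3 : N₃ ≤ N := (le_max_right _ _).trans ((le_max_right _ _).trans hN)
  obtain ⟨h4, h5, h6⟩ := h3 N hN3
  have hN0 : (0 : ℝ) < N := by linarith
  have hNn : 1 ≤ N := by
    have : 0 < N := by exact_mod_cast hN0
    exact this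
  obtain ⟨hY1, hY2⟩ := reg_basic hR hNn
  have hY1' : (1 : ℝ) ≤ Y := by exact_mod_cast hY1
  have hY2' : (2 * Y : ℝ) ≤ N := by exact_mod_cast hY2
  have hl0 : 0 < Real.log N := Real.log_pos (by linarith)
  -- log (2Y) ≥ log N / 2
  have hly : Real.log N / 2 ≤ Real.log (2 * Y) := by
    have h7 : (N : ℝ) ≤ Y * (N : ℝ) ^ (1 / 2 : ℝ) := by
      refine hR.2.2.trans ?_
      rw [one_mul] at h4
      exact mul_le_mul_of_nonneg_left h4 (by linarith)
    have h8 : (N : ℝ) ^ (1 / 2 : ℝ) * (N : ℝ) ^ (1 / 2 : ℝ) = N := by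
      rw [← Real.rpow_add hN0]
      norm_num
    have h9 : 0 < (N : ℝ) ^ (1 / 2 : ℝ) := Real.rpow_pos_of_pos hN0 _
    have h10 : (N : ℝ) ^ (1 / 2 : ℝ) ≤ 2 * Y := by nlinarith
    calc Real.log N / 2 = Real.log ((N : ℝ) ^ (1 / 2 : ℝ)) := by
          rw [Real.log_rpow hN0]; ring
      _ ≤ Real.log (2 * Y) := Real.log_le_log h9 h10
  -- the sum of the errors
  have h7 : ∑ m ∈ M, Em N Y m ≤ C * (2 * Y / (Real.log (2 * Y)) ^ 3) := by
    apply hE N Y hY1 hY2 ⌊(N : ℝ) ^ (1 / 2 - η) * K⌋₊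
    · exact (Nat.floor_le (by positivity)).trans (h1 N hN1 Y hR)
    · intro m hm
      obtain ⟨h8, h9, h10⟩ := hM m hm
      exact ⟨h8, Nat.le_floor h9.le, h10⟩
  refine h7.trans ?_
  have h8 := (h2 N hN2 Y hR).1
  have h9 : c / Real.log ((N : ℝ) ^ (1 / 8 : ℝ)) ≤ VN N ((N : ℝ) ^ (1 / 8 : ℝ)) := by
    apply hV N hR.1
    calc (2 : ℝ) = (256 : ℝ) ^ (1 / 8 : ℝ) := by
          rw [show (256 : ℝ) = 2 ^ (8 : ℝ) by norm_num, ← Real.rpow_mul (by norm_num)]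
          norm_num
      _ ≤ _ := Real.rpow_le_rpow (by norm_num) h6 (by norm_num)
  rw [Real.log_rpow hN0] at h9
  set V := VN N ((N : ℝ) ^ (1 / 8 : ℝ))
  set L := Real.log N
  have h10 : C * (2 * Y / (Real.log (2 * Y)) ^ 3) ≤ C * (2 * Y / (L / 2) ^ 3) := by gcongr
  refine h10.trans ?_
  have h11 : (1 / 2) * (Y / L) * (c / (1 / 8 * L)) ≤ ((Pr Y).card : ℝ) * V := by
    apply mul_le_mul _ h9 (by positivity) (by positivity)
    linarith
  have h12 : δ * ((1 / 2) * (Y / L) * (c / (1 / 8 * L))) ≤ δ * (((Pr Y).card : ℝ) * V) := by gcongr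
  refine le_trans ?_ h12
  have h13 : C * (2 * Y / (L / 2) ^ 3) = (4 * Y / L ^ 2) * (4 * C / L) := by
    field_simp
    ring
  have h14 : δ * ((1 / 2) * (Y / L) * (c / (1 / 8 * L))) = (4 * Y / L ^ 2) * (c * δ) := by
    field_simp
    ring
  rw [h13, h14]
  apply mul_le_mul_of_nonneg_left _ (by positivity)
  rw [div_le_iff₀ hl0]
  rw [div_le_iff₀ (by positivity)] at h5
  linarith

/-- `log (N^a) / log (N^b)`. -/
lemma log_ratio {N : ℝ} (hN : 1 < N) (a b : ℝ) :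
    Real.log (N ^ a) / Real.log (N ^ b) = a / b := by
  have h0 : 0 < N := by linarith
  have hl : Real.log N ≠ 0 := (Real.log_pos hN).ne'
  rw [Real.log_rpow h0, Real.log_rpow h0, mul_div_mul_right _ _ hl]

theorem A1 (hPR : Stmt_PR) : Stmt_A1 := by
  intro A hLin k δ hδ
  obtain ⟨hA, hLin⟩ := hLin
  obtain ⟨ε, hε, hS⟩ := hLin (δ / 4) (by positivity)
  obtain ⟨u₀, hu₀, hd⟩ := dens ε hε
  set η : ℝ := min (1 / 24) (δ / (4 * A)) with hηdef
  have hη : 0 < η := lt_min (by norm_num) (by positivity)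
  have hη1 : η ≤ 1 / 24 := min_le_left _ _
  have hη2 : A * η ≤ δ / 4 := by
    calc A * η ≤ A * (δ / (4 * A)) := mul_le_mul_of_nonneg_left (min_le_right _ _) hA.le
      _ = δ / 4 := by field_simp
  have hK : (0 : ℝ) < (u₀ : ℝ) ^ u₀ := by
    have : (0 : ℝ) < u₀ := by exact_mod_cast (by omega : 0 < u₀)
    positivity
  obtain ⟨N₁, h1⟩ := err_small hPR k (δ / 4) η ((u₀ : ℝ) ^ u₀) (by positivity) hη hK
  refine ⟨max N₁ 256, fun N hN Y hR => ?_⟩
  have hN1 : N₁ ≤ N := (le_max_left _ _).trans hN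
  have hN2 : (256 : ℝ) ≤ N := by exact_mod_cast (le_max_right _ _).trans hN
  have hN0 : (0 : ℝ) < N := by linarith
  have hNgt : (1 : ℝ) < N := by linarith
  obtain ⟨hY1, hY2⟩ := reg_basic hR (by
    have : 0 < N := by exact_mod_cast hN0
    exact this)
  set z : ℝ := (N : ℝ) ^ (1 / 8 : ℝ) with hz
  set D : ℝ := (N : ℝ) ^ (1 / 2 - η) with hD
  have hz2 : 2 ≤ z := by
    calc (2 : ℝ) = (256 : ℝ) ^ (1 / 8 : ℝ) := by
          rw [show (256 : ℝ) = 2 ^ (8 : ℝ) by norm_num, ← Real.rpow_mul (by norm_num)]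
          norm_num
      _ ≤ _ := Real.rpow_le_rpow (by norm_num) hN2 (by norm_num)
  have hzD : z ^ 2 ≤ D := by
    rw [hz, ← Real.rpow_mul_natCast hN0.le]
    apply Real.rpow_le_rpow_of_exponent_le hNgt.le
    push_cast
    linarith
  have hDz : D ≤ z ^ 4 := by
    rw [hz, ← Real.rpow_mul_natCast hN0.le]
    apply Real.rpow_le_rpow_of_exponent_le hNgt.le
    push_cast
    linarith
  have h2 := (hS (Sf N z) (Qf N z u₀) (fun p => 1 / ((p : ℝ) - 1)) Sf_prime (Qf_sub N z u₀) g_nonneg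
    (g_lt_one hR.1) z D hz2 Sf_lt (fun u w hu huw hw => hd N z u w hu huw hw) (Pr Y)
    (fun p => N - p) (fun _ => 1) (fun _ _ => zero_le_one) ((Pr Y).card : ℝ)
    (Nat.cast_nonneg _)).2 hzD hDz
  have hs : Real.log D / Real.log z = 4 - 8 * η := by
    rw [hD, hz, log_ratio hNgt]
    ring
  rw [hs] at h2
  -- the sieve function
  have h3 : A * Real.log 3 / 4 - δ / 4 ≤ A * Real.log (4 - 8 * η - 1) / (4 - 8 * η) := by
    have h4 : Real.log 3 - 4 * η ≤ Real.log (4 - 8 * η - 1) := by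
      have h5 : Real.log (4 - 8 * η - 1) = Real.log 3 + Real.log ((3 - 8 * η) / 3) := by
        rw [← Real.log_mul (by norm_num) (by
          have : 0 < (3 - 8 * η) / 3 := by
            apply div_pos <;> linarith
          exact this.ne')]
        congr 1
        ring
      have h6 : 0 < (3 - 8 * η) / 3 := by apply div_pos <;> linarith
      have h7 := Real.one_sub_inv_le_log_of_pos h6
      have h8 : -(4 * η) ≤ 1 - ((3 - 8 * η) / 3)⁻¹ := by
        rw [inv_div]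
        have h9 : 3 / (3 - 8 * η) ≤ 1 + 4 * η := by
          rw [div_le_iff₀ (by linarith)]
          nlinarith
        linarith
      linarith
    have h5 : 0 ≤ Real.log (4 - 8 * η - 1) := Real.log_nonneg (by linarith)
    have h6 : A * Real.log (4 - 8 * η - 1) / 4 ≤ A * Real.log (4 - 8 * η - 1) / (4 - 8 * η) := by
      apply div_le_div_of_nonneg_left (by positivity) (by linarith) (by linarith)
    have h7 : A * (Real.log 3 - 4 * η) / 4 ≤ A * Real.log (4 - 8 * η - 1) / 4 := by gcongr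
    nlinarith
  -- the remainder
  have h4 : ∑ d ∈ (∏ p ∈ Sf N z, p).divisors.filter
      (fun d : ℕ => (d : ℝ) < D * (∏ q ∈ Qf N z u₀, q : ℕ)),
        |∑ i ∈ (Pr Y).filter (fun i => d ∣ N - i), (1 : ℝ) - ((Pr Y).card : ℝ) *
          ∏ p ∈ d.primeFactors, (1 / ((p : ℝ) - 1))| ≤ δ / 4 * (((Pr Y).card : ℝ) * VN N z) := by
    refine le_trans (le_of_eq ?_) (h1 N hN1 Y hR ((∏ p ∈ Sf N z, p).divisors.filter
      (fun d : ℕ => (d : ℝ) < D * (∏ q ∈ Qf N z u₀, q : ℕ))) ?_)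
    · apply sum_congr rfl
      intro d hd
      have h5 := Nat.dvd_of_mem_divisors (mem_filter.1 hd).1
      rw [prod_g_eq (squarefree_of_mem h5), sum_const, nsmul_eq_mul, mul_one, mul_one_div]
      rfl
    · intro d hd
      have h5 := Nat.dvd_of_mem_divisors (mem_filter.1 hd).1
      refine ⟨Nat.pos_of_mem_divisors (mem_filter.1 hd).1, ?_, coprime_of_mem h5⟩
      refine (mem_filter.1 hd).2.trans_le ?_
      apply mul_le_mul_of_nonneg_left _ (by positivity)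
      exact_mod_cast prod_Qf_le N z u₀ (by omega)
  have h5 : ∑ i ∈ (Pr Y).filter (fun i => ∀ p ∈ Sf N z, ¬ p ∣ N - i), (1 : ℝ) = (S1 N Y z : ℝ) := by
    rw [sum_const, nsmul_eq_mul, mul_one]
    rfl
  have h6 : 0 ≤ ((Pr Y).card : ℝ) * VN N z := mul_nonneg (Nat.cast_nonneg _) (VN_pos hR.1 z).le
  have h7 : ((Pr Y).card : ℝ) * VN N z * (A * Real.log 3 / 4 - δ / 4 - δ / 4) -
      δ / 4 * (((Pr Y).card : ℝ) * VN N z) ≤ (S1 N Y z : ℝ) := by
    rw [← h5]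
    refine le_trans ?_ h2
    apply sub_le_sub _ h4
    apply mul_le_mul_of_nonneg_left _ h6
    linarith
  nlinarith

end Pool.Agent.Chen
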