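import Pool.Agent.Work.Chen.Interface
import Pool.Agent.Work.PNT70.PNT

/-!
# Block PR: primes in `(Y, 2Y]`
-/

set_option autoImplicit false

namespace Pool.Agent.Chen

open Finset Filter Topology

namespace PRproof

lemma card_Pr (Y : ℕ) : ((Pr Y).card : ℝ) = Nat.primeCounting (2 * Y) - Nat.primeCounting Y := by
  have h1 : ∀ n : ℕ, Nat.primeCounting n = ((Ioc 0 n).filter Nat.Prime).card := by
    intro n
    rw [Nat.primeCounting, Nat.primeCounting', Nat.count_eq_card_filter_range]
    congr 1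
    ext p
    simp only [mem_filter, mem_range, mem_Ioc]
    constructor
    · rintro ⟨a, b⟩
      exact ⟨⟨b.pos, by omega⟩, b⟩
    · rintro ⟨⟨a, b⟩, c⟩
      exact ⟨by omega, c⟩
  have h2 : ((Ioc 0 (2 * Y)).filter Nat.Prime) =
      ((Ioc 0 Y).filter Nat.Prime) ∪ ((Ioc Y (2 * Y)).filter Nat.Prime) := by
    rw [← filter_union, Ioc_union_Ioc_eq_Ioc (Nat.zero_le _) (by omega)]
  have h3 : Disjoint ((Ioc 0 Y).filter Nat.Prime) ((Ioc Y (2 * Y)).filter Nat.Prime) := by
    refine disjoint_filter_filter ?_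
    rw [Finset.disjoint_left]
    intro a ha hb
    rw [mem_Ioc] at ha hb
    omega
  rw [h1, h1, h2, card_union_of_disjoint h3]
  push_cast
  unfold Pr
  ring

lemma tendsto_log_ratio : Tendsto (fun x : ℝ => Real.log x / Real.log (2 * x)) atTop (𝓝 1) := by
  have h1 : Tendsto (fun x : ℝ => Real.log 2 / Real.log x) atTop (𝓝 0) :=
    Tendsto.const_div_atTop Real.tendsto_log_atTop _
  have h2 : Tendsto (fun x : ℝ => (1 + Real.log 2 / Real.log x)⁻¹) atTop (𝓝 1) := by
    have := (h1.const_add 1).inv₀ (by norm_num)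
    simpa using this
  refine h2.congr' ?_
  filter_upwards [eventually_gt_atTop 1] with x hx
  have hl := Real.log_pos hx
  rw [Real.log_mul (by norm_num) (by linarith)]
  have h3 : 0 < Real.log 2 := Real.log_pos (by norm_num)
  field_simp
  ring

lemma tendsto_Pr : Tendsto (fun Y : ℕ => ((Pr Y).card : ℝ) * Real.log Y / Y) atTop (𝓝 1) := by
  have h1 := Pool.Agent.Work.PNT70.primeCounting_tendsto
  have h2 : Tendsto (fun x : ℝ => 2 * x) atTop atTop := tendsto_id.const_mul_atTop (by norm_num)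
  have h3 := h1.comp h2
  have h4 := ((h3.mul tendsto_log_ratio).const_mul 2).sub h1
  have h5 : Tendsto (fun x : ℝ => (((Nat.primeCounting ⌊2 * x⌋₊ : ℝ) -
      Nat.primeCounting ⌊x⌋₊) * Real.log x / x)) atTop (𝓝 1) := by
    have e : (2 : ℝ) * (1 * 1) - 1 = 1 := by norm_num
    rw [e] at h4
    refine h4.congr' ?_
    filter_upwards [eventually_gt_atTop 1] with x hx
    have hl := Real.log_pos hx
    have hl2 : 0 < Real.log (2 * x) := Real.log_pos (by linarith)
    simp only [Function.comp]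
    field_simp
  have h6 := h5.comp tendsto_natCast_atTop_atTop
  refine h6.congr fun Y => ?_
  simp only [Function.comp]
  have e1 : ⌊(2 : ℝ) * (Y : ℝ)⌋₊ = 2 * Y := by
    rw [show (2 : ℝ) * (Y : ℝ) = ((2 * Y : ℕ) : ℝ) by push_cast; ring, Nat.floor_natCast]
  rw [e1, Nat.floor_natCast, card_Pr]

/-- `Y` is large, and `log Y ~ log N`. -/
lemma reg_log (k : ℕ) (η : ℝ) (hη : 0 < η) : ∃ N₀ : ℕ, ∀ N ≥ N₀, ∀ Y, Reg k N Y →
    1 < Y ∧ (1 - η) * Real.log N ≤ Real.log Y ∧ Real.log Y ≤ Real.log N := by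
  have h1 : Tendsto (fun N : ℕ => k * Real.log (Real.log N) / Real.log N) atTop (𝓝 0) := by
    have h2 : Tendsto (fun x : ℝ => Real.log x / x) atTop (𝓝 0) := by
      have := Real.isLittleO_log_id_atTop
      exact this.tendsto_div_nhds_zero
    have h3 : Tendsto (fun N : ℕ => Real.log N) atTop atTop :=
      Real.tendsto_log_atTop.comp tendsto_natCast_atTop_atTop
    have h4 := (h2.comp h3).const_mul (k : ℝ)
    rw [mul_zero] at h4
    refine h4.congr fun N => ?_
    simp only [Function.comp]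
    ring
  have h5 : ∀ᶠ N : ℕ in atTop, k * Real.log (Real.log N) / Real.log N < min η (1 / 2) :=
    h1.eventually (gt_mem_nhds (by positivity))
  have h6 : Tendsto (fun N : ℕ => Real.log N) atTop atTop :=
    Real.tendsto_log_atTop.comp tendsto_natCast_atTop_atTop
  obtain ⟨N₀, hN₀⟩ := eventually_atTop.1 ((h5.and (h6.eventually_gt_atTop 2)).and
    (eventually_ge_atTop 3))
  refine ⟨N₀, fun N hN Y hR => ?_⟩
  obtain ⟨⟨hN1, hN2⟩, hN3⟩ := hN₀ N hN
  obtain ⟨-, hY1, hY2⟩ := hR
  have hNpos : (0 : ℝ) < N := by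
    have : 0 < N := by omega
    exact_mod_cast this
  have hYpos : (0 : ℝ) < Y := by
    by_contra h
    have : (Y : ℝ) = 0 := le_antisymm (not_lt.1 h) (Nat.cast_nonneg _)
    rw [this, zero_mul] at hY2
    linarith
  have h7 : Real.log N ≤ Real.log Y + k * Real.log (Real.log N) := by
    have := Real.log_le_log hNpos hY2
    rw [Real.log_mul hYpos.ne' (by positivity), Real.log_pow] at this
    exact this
  have hlN : 0 < Real.log N := by linarith
  rw [div_lt_iff₀ hlN] at hN1
  have h8 : min η (1 / 2) * Real.log N ≤ η * Real.log N := by gcongr; exact min_le_left _ _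
  have h9 : min η (1 / 2) * Real.log N ≤ 1 / 2 * Real.log N := by gcongr; exact min_le_right _ _
  refine ⟨?_, by linarith, ?_⟩
  · have h10 : 0 < Real.log Y := by linarith
    by_contra h
    have h11 : (Y : ℝ) ≤ 1 := by exact_mod_cast not_lt.1 h
    have := Real.log_nonpos hYpos.le h11
    linarith
  · refine Real.log_le_log hYpos ?_
    have : Y ≤ N := by omega
    exact_mod_cast this

end PRproof

open PRproof in
theorem PR : Stmt_PR := by
  intro k δ hδ
  -- choice of a small parameter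
  set η : ℝ := min (δ / 4) (1 / 4) with hη
  have hη0 : 0 < η := by positivity
  have hη1 : η ≤ δ / 4 := min_le_left _ _
  have hη2 : η ≤ 1 / 4 := min_le_right _ _
  have h1 : ∀ᶠ Y : ℕ in atTop, |((Pr Y).card : ℝ) * Real.log Y / Y - 1| < η := by
    have := (Metric.tendsto_atTop.1 tendsto_Pr η hη0)
    obtain ⟨M, hM⟩ := this
    refine eventually_atTop.2 ⟨M, fun Y hY => ?_⟩
    have := hM Y hY
    rwa [Real.dist_eq] at this
  obtain ⟨Y₀, hY₀⟩ := eventually_atTop.1 h1
  obtain ⟨N₁, hN₁⟩ := reg_log k η hη0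
  -- `Y ≥ Y₀`
  have h6 : Tendsto (fun N : ℕ => Real.log N) atTop atTop :=
    Real.tendsto_log_atTop.comp tendsto_natCast_atTop_atTop
  obtain ⟨N₂, hN₂⟩ := eventually_atTop.1 (h6.eventually_gt_atTop (2 * Real.log (Y₀ + 1)))
  refine ⟨max N₁ N₂, fun N hN Y hR => ?_⟩
  obtain ⟨hY1, hlog1, hlog2⟩ := hN₁ N (le_trans (le_max_left _ _) hN) Y hR
  have hN2 := hN₂ N (le_trans (le_max_right _ _) hN)
  have hYpos : (0 : ℝ) < Y := by exact_mod_cast (by omega : 0 < Y)
  have hY1' : (1 : ℝ) < Y := by exact_mod_cast hY1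
  have hlY : 0 < Real.log Y := Real.log_pos hY1'
  have hlN : 0 < Real.log N := by linarith
  have hYY : Y₀ ≤ Y := by
    have h7 : Real.log ((Y₀ : ℝ) + 1) < Real.log Y := by nlinarith
    have h8 : (Y₀ : ℝ) + 1 < Y := by
      rwa [Real.log_lt_log_iff (by positivity) hYpos] at h7
    have h9 : Y₀ + 1 < Y := by exact_mod_cast h8
    omega
  have h10 := hY₀ Y hYY
  rw [abs_lt] at h10
  set a : ℝ := ((Pr Y).card : ℝ) * Real.log Y / Y with ha
  have h11 : ((Pr Y).card : ℝ) = a * (Y / Real.log Y) := by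
    rw [ha]; field_simp
  rw [h11]
  have hq : 0 < (Y : ℝ) / Real.log N := by positivity
  have h12 : (Y : ℝ) / Real.log N ≤ Y / Real.log Y := by gcongr
  have h13 : (1 - η) * (Y / Real.log Y) ≤ Y / Real.log N := by
    rw [mul_div_assoc', div_le_div_iff₀ hlY hlN]
    nlinarith
  constructor
  · have : (1 - δ) * (Y / Real.log N) ≤ (1 - η) * (Y / Real.log N) := by
      gcongr; linarith
    have h14 : (1 - η) * (Y / Real.log N) ≤ a * (Y / Real.log Y) := by
      have h15 : (1 - η) * (Y / Real.log N) ≤ (1 - η) * (Y / Real.log Y) := by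
        gcongr; linarith
      have h16 : (1 - η) * (Y / Real.log Y) ≤ a * (Y / Real.log Y) := by
        gcongr; linarith
      linarith
    linarith
  · -- a ≤ 1 + η, Y / log Y ≤ (Y / log N) / (1 - η)
    have h14 : a * (Y / Real.log Y) ≤ (1 + η) * (Y / Real.log Y) := by
      gcongr; linarith
    have h15 : (1 + η) ≤ (1 + δ) * (1 - η) := by nlinarith
    have h16 : (1 + η) * (Y / Real.log Y) ≤ (1 + δ) * (1 - η) * (Y / Real.log Y) := by
      gcongr
    have h17 : (1 + δ) * ((1 - η) * (Y / Real.log Y)) ≤ (1 + δ) * (Y / Real.log N) := by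
      gcongr
    nlinarith

end Pool.Agent.Chen
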