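import Pool.Agent.Work.Chen.Interface
import Pool.Agent.Work.LinearSieve.MERT

/-!
# Block VL: lower bound for the sieve product
-/

set_option autoImplicit false

namespace Pool.Agent.Chen

open Finset
open scoped Classical

namespace VLproof

/-- the factor -/
noncomputable def f (q : ℕ) : ℝ := 1 - 1 / ((q : ℝ) - 1)

/-- its inverse -/
noncomputable def g (q : ℕ) : ℝ := ((q : ℝ) - 1) / ((q : ℝ) - 2)

lemma f_pos {q : ℕ} (h : 2 < q) : 0 < f q := by
  have h1 : (3 : ℝ) ≤ q := by exact_mod_cast h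
  unfold f
  rw [sub_pos, div_lt_one (by linarith)]
  linarith

lemma g_pos {q : ℕ} (h : 2 < q) : 0 < g q := by
  have h1 : (3 : ℝ) ≤ q := by exact_mod_cast h
  unfold g
  apply div_pos <;> linarith

lemma g_le {q : ℕ} (h : 2 < q) : g q ≤ 2 := by
  have h1 : (3 : ℝ) ≤ q := by exact_mod_cast h
  unfold g
  rw [div_le_iff₀ (by linarith)]
  linarith

lemma f_mul_g {q : ℕ} (h : 2 < q) : f q * g q = 1 := by
  have h1 : (3 : ℝ) ≤ q := by exact_mod_cast h
  unfold f g
  have h2 : (q : ℝ) - 1 ≠ 0 := by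
    have : (0 : ℝ) < q - 1 := by linarith
    exact this.ne'
  have h3 : (q : ℝ) - 2 ≠ 0 := by
    have : (0 : ℝ) < q - 2 := by linarith
    exact this.ne'
  field_simp
  ring

/-- the number of prime factors `≥ z` of `N` is at most `8` if `z ^ 8 = N`, `z > 1` -/
lemma card_big {N : ℕ} (hN : 1 < N) {z : ℝ} (hz : 1 < z) (hzN : (N : ℝ) ≤ z ^ 8) :
    (N.primeFactors.filter (fun p : ℕ => z ≤ (p : ℝ))).card ≤ 8 := by
  set B := N.primeFactors.filter (fun p : ℕ => z ≤ (p : ℝ)) with hB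
  have h1 : (∏ p ∈ B, p) ∣ N :=
    (prod_dvd_prod_of_subset _ _ _ (filter_subset _ _)).trans (Nat.prod_primeFactors_dvd N)
  have h2 : ((∏ p ∈ B, p : ℕ) : ℝ) ≤ N := by
    exact_mod_cast Nat.le_of_dvd (by omega) h1
  have h3 : z ^ B.card ≤ ((∏ p ∈ B, p : ℕ) : ℝ) := by
    push_cast
    rw [← prod_const]
    exact prod_le_prod (fun _ _ => by linarith) (fun p hp => (mem_filter.1 hp).2)
  have h4 : z ^ B.card ≤ z ^ 8 := h3.trans (h2.trans hzN)
  exact (pow_le_pow_iff_right₀ hz).1 h4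

end VLproof

open VLproof in
theorem VL : Stmt_VL := by
  obtain ⟨u₀, hu₀, hM⟩ := LinSieve.MERT 1 one_pos
  -- the small primes
  set c₀ : ℝ := ∏ q ∈ (range u₀).filter (fun q : ℕ => q.Prime ∧ 2 < q), f q with hc₀
  have hc₀pos : 0 < c₀ := prod_pos fun q hq => f_pos (mem_filter.1 hq).2.2
  have hlu : 0 < Real.log u₀ := Real.log_pos (by exact_mod_cast (by omega : 1 < u₀))
  refine ⟨c₀ * Real.log u₀ / 2 ^ 8, by positivity, u₀ ^ 8 + 2, fun N hN hev => ?_⟩
  set z : ℝ := (N : ℝ) ^ (1 / 8 : ℝ) with hz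
  have hN2 : 2 ≤ N := by omega
  have hNpos : (0 : ℝ) < N := by exact_mod_cast (by omega : 0 < N)
  have hz8 : z ^ 8 = N := by
    rw [hz, ← Real.rpow_natCast, ← Real.rpow_mul hNpos.le]
    norm_num
  have hz0 : 0 < z := by positivity
  have hzu : (u₀ : ℝ) ≤ z := by
    have h1 : (u₀ : ℝ) ^ 8 ≤ z ^ 8 := by
      rw [hz8]
      exact_mod_cast (by omega : u₀ ^ 8 ≤ N)
    exact (pow_le_pow_iff_left₀ (Nat.cast_nonneg _) hz0.le (by norm_num)).1 h1
  have hz3 : (3 : ℝ) ≤ z := le_trans (by exact_mod_cast hu₀) hzu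
  have hlz : Real.log z = Real.log N / 8 := by
    rw [hz, Real.log_rpow hNpos]; ring
  have hlz0 : 0 < Real.log z := Real.log_pos (by linarith)
  -- the product over all odd primes below `z`
  set R := (range ⌈z⌉₊).filter (fun q : ℕ => q.Prime ∧ 2 < q) with hR
  have hRlt : ∀ q ∈ R, 2 < q := fun q hq => (mem_filter.1 hq).2.2
  have hSf : Sf N z = R.filter (fun q : ℕ => ¬ q ∣ N) := by
    ext q
    simp only [Sf, hR, mem_filter, mem_range]
    constructor
    · rintro ⟨a, b, c⟩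
      refine ⟨⟨a, b, ?_⟩, c⟩
      rcases Nat.lt_or_ge 2 q with h | h
      · exact h
      · have : q = 2 := le_antisymm h b.two_le
        subst this
        exact absurd hev.two_dvd c
    · rintro ⟨⟨a, b, -⟩, c⟩
      exact ⟨a, b, c⟩
  have hV : VN N z = ∏ q ∈ R.filter (fun q : ℕ => ¬ q ∣ N), f q := by
    unfold VN
    rw [hSf]
    rfl
  have hsplit : (∏ q ∈ R.filter (fun q : ℕ => q ∣ N), f q) *
      (∏ q ∈ R.filter (fun q : ℕ => ¬ q ∣ N), f q) = ∏ q ∈ R, f q :=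
    prod_filter_mul_prod_filter_not R _ _
  have hfg : (∏ q ∈ R.filter (fun q : ℕ => q ∣ N), f q) *
      (∏ q ∈ R.filter (fun q : ℕ => q ∣ N), g q) = 1 := by
    rw [← prod_mul_distrib]
    exact prod_eq_one fun q hq => f_mul_g (hRlt q (mem_filter.1 hq).1)
  -- the singular series
  have hSS : SS N ≤ (∏ q ∈ R.filter (fun q : ℕ => q ∣ N), g q) * 2 ^ 8 := by
    have h1 : SS N = ∏ q ∈ N.primeFactors.filter (fun p => 2 < p), g q := rfl
    rw [h1, ← prod_filter_mul_prod_filter_not (N.primeFactors.filter (fun p => 2 < p))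
      (fun q : ℕ => (q : ℝ) < z)]
    have h2 : (N.primeFactors.filter (fun p => 2 < p)).filter (fun q : ℕ => (q : ℝ) < z) =
        R.filter (fun q : ℕ => q ∣ N) := by
      ext q
      simp only [hR, mem_filter, mem_range, Nat.mem_primeFactors, Nat.lt_ceil]
      constructor
      · rintro ⟨⟨⟨a, b, -⟩, c⟩, d⟩
        exact ⟨⟨d, a, c⟩, b⟩
      · rintro ⟨⟨d, a, c⟩, b⟩
        exact ⟨⟨⟨a, b, by omega⟩, c⟩, d⟩
    rw [h2]
    have h3 : 0 < ∏ q ∈ R.filter (fun q : ℕ => q ∣ N), g q :=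
      prod_pos fun q hq => g_pos (hRlt q (mem_filter.1 hq).1)
    refine mul_le_mul_of_nonneg_left ?_ h3.le
    set B := (N.primeFactors.filter (fun p => 2 < p)).filter (fun q : ℕ => ¬ (q : ℝ) < z) with hB
    have h4 : ∏ q ∈ B, g q ≤ 2 ^ B.card := by
      rw [← prod_const]
      refine prod_le_prod (fun q hq => ?_) (fun q hq => ?_)
      · exact (g_pos (mem_filter.1 (mem_filter.1 hq).1).2).le
      · exact g_le (mem_filter.1 (mem_filter.1 hq).1).2
    have h5 : B.card ≤ 8 := by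
      refine le_trans (card_le_card ?_) (card_big (N := N) (by omega) (z := z) (by linarith) hz8.ge)
      intro q hq
      rw [hB, mem_filter, mem_filter] at hq
      rw [mem_filter]
      exact ⟨hq.1.1, not_lt.1 hq.2⟩
    exact h4.trans (pow_le_pow_right₀ (by norm_num) h5)
  -- Mertens
  have hMz := (hM u₀ z le_rfl hzu).1
  have hR1 : ∏ q ∈ R, f q = c₀ * ∏ q ∈ (range ⌈z⌉₊).filter
      (fun p : ℕ => p.Prime ∧ (u₀ : ℝ) ≤ (p : ℝ)), (1 - 1 / ((q : ℝ) - 1)) := by
    rw [← prod_filter_mul_prod_filter_not R (fun q : ℕ => q < u₀)]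
    congr 1
    · rw [hc₀]
      refine prod_congr ?_ fun _ _ => rfl
      ext q
      simp only [hR, mem_filter, mem_range]
      constructor
      · rintro ⟨⟨-, b, c⟩, d⟩
        exact ⟨d, b, c⟩
      · rintro ⟨d, b, c⟩
        refine ⟨⟨?_, b, c⟩, d⟩
        rw [Nat.lt_ceil]
        exact lt_of_lt_of_le (by exact_mod_cast d) hzu
    · refine prod_congr ?_ fun _ _ => rfl
      ext q
      simp only [hR, mem_filter, mem_range, Nat.cast_le]
      constructor
      · rintro ⟨⟨a, b, c⟩, d⟩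
        exact ⟨a, b, by omega⟩
      · rintro ⟨a, b, d⟩
        exact ⟨⟨a, b, by omega⟩, by omega⟩
  have hRlow : c₀ * Real.log u₀ / (2 * Real.log z) ≤ ∏ q ∈ R, f q := by
    rw [hR1]
    set M := ∏ q ∈ (range ⌈z⌉₊).filter
      (fun p : ℕ => p.Prime ∧ (u₀ : ℝ) ≤ (p : ℝ)), (1 - 1 / ((q : ℝ) - 1)) with hMdef
    have h1 : 1 ≤ (1 + 1) * (Real.log z / Real.log u₀) * M := hMz
    have h2 : Real.log u₀ / (2 * Real.log z) ≤ M := by
      rw [div_le_iff₀ (by positivity)]
      have h3 : (1 + 1) * (Real.log z / Real.log u₀) * M = (M * (2 * Real.log z)) / Real.log u₀ := by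
        ring
      rw [h3, le_div_iff₀ hlu] at h1
      linarith
    calc c₀ * Real.log u₀ / (2 * Real.log z) = c₀ * (Real.log u₀ / (2 * Real.log z)) := by ring
      _ ≤ c₀ * M := mul_le_mul_of_nonneg_left h2 hc₀pos.le
  -- conclusion
  have hG : 0 < ∏ q ∈ R.filter (fun q : ℕ => q ∣ N), g q :=
    prod_pos fun q hq => g_pos (hRlt q (mem_filter.1 hq).1)
  have hVeq : VN N z = (∏ q ∈ R, f q) * ∏ q ∈ R.filter (fun q : ℕ => q ∣ N), g q := by
    rw [hV, ← hsplit]
    calc _ = 1 * (∏ q ∈ R.filter (fun q : ℕ => ¬ q ∣ N), f q) := by rw [one_mul]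
      _ = _ := by rw [← hfg]; ring
  rw [hVeq]
  have h1 : SS N / 2 ^ 8 ≤ ∏ q ∈ R.filter (fun q : ℕ => q ∣ N), g q := by
    rw [div_le_iff₀ (by norm_num)]
    exact hSS
  have hlN : 0 < Real.log N := by linarith
  have h2 : c₀ * Real.log u₀ / (2 * Real.log z) = 4 * (c₀ * Real.log u₀ / Real.log N) := by
    rw [hlz]
    field_simp
    ring
  rw [h2] at hRlow
  have h3 : c₀ * Real.log u₀ / Real.log N ≤ ∏ q ∈ R, f q := by
    have : 0 ≤ c₀ * Real.log u₀ / Real.log N := by positivity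
    linarith
  have hSSpos : 0 ≤ SS N := by
    have e : SS N = ∏ q ∈ N.primeFactors.filter (fun p => 2 < p), g q := rfl
    rw [e]
    exact prod_nonneg fun q hq => (g_pos (mem_filter.1 hq).2).le
  calc c₀ * Real.log u₀ / 2 ^ 8 * (SS N / Real.log N)
      = (c₀ * Real.log u₀ / Real.log N) * (SS N / 2 ^ 8) := by ring
    _ ≤ (∏ q ∈ R, f q) * ∏ q ∈ R.filter (fun q : ℕ => q ∣ N), g q :=
        mul_le_mul h3 h1 (by positivity) (prod_nonneg fun q hq => (f_pos (hRlt q hq)).le)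

end Pool.Agent.Chen
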