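import Pool.Agent.Work.MP_b0c12c_nt_helper41.Mert

/-!
# Sums over primes in power scales

`∑_{x^a < p ≤ x^b} F(log p / log x) / p → ∫_a^b F(t) / t dt` for continuous `F`.
-/

set_option autoImplicit false

namespace Pool.Agent.Chen

open Finset Filter
open scoped Topology

/-- The sum `∑_{x^a < p ≤ x^b} F(log p / log x) / p`. -/
noncomputable def PS (F : ℝ → ℝ) (a b x : ℝ) : ℝ :=
  ∑ p ∈ (Ioc ⌊x ^ a⌋₊ ⌊x ^ b⌋₊).filter Nat.Prime, F (Real.log p / Real.log x) / p

lemma floor_mono (a b x : ℝ) (hab : a ≤ b) (hx : 1 ≤ x) : ⌊x ^ a⌋₊ ≤ ⌊x ^ b⌋₊ :=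
  Nat.floor_mono (Real.rpow_le_rpow_of_exponent_le hx hab)

lemma mem_range (a b x : ℝ) (hx : 1 < x) (p : ℕ) (hp : p ∈ Ioc ⌊x ^ a⌋₊ ⌊x ^ b⌋₊) :
    a ≤ Real.log p / Real.log x ∧ Real.log p / Real.log x ≤ b ∧ 0 < p := by
  rw [mem_Ioc] at hp
  have hx0 : 0 < x := by linarith
  have hlx : 0 < Real.log x := Real.log_pos hx
  have hp0 : 0 < p := by omega
  have h1 : x ^ a < p := (Nat.floor_lt (Real.rpow_nonneg hx0.le a)).1 hp.1
  have h2 : (p : ℝ) ≤ x ^ b := (Nat.le_floor_iff (Real.rpow_nonneg hx0.le b)).1 hp.2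
  have hp0' : (0 : ℝ) < p := by exact_mod_cast hp0
  refine ⟨?_, ?_, hp0⟩
  · rw [le_div_iff₀ hlx, ← Real.log_rpow hx0]
    exact Real.log_le_log (Real.rpow_pos_of_pos hx0 a) h1.le
  · rw [div_le_iff₀ hlx, ← Real.log_rpow hx0]
    exact Real.log_le_log hp0' h2

lemma PS_add (F : ℝ → ℝ) (a b c x : ℝ) (hab : a ≤ b) (hbc : b ≤ c) (hx : 1 ≤ x) :
    PS F a c x = PS F a b x + PS F b c x := by
  unfold PS
  rw [← sum_union, ← filter_union, Ioc_union_Ioc_eq_Ioc (floor_mono a b x hab hx)
    (floor_mono b c x hbc hx)]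
  apply disjoint_filter_filter
  rw [disjoint_left]
  intro p h1 h2
  rw [mem_Ioc] at h1 h2
  omega

lemma tendsto_log_floor (a : ℝ) (ha : 0 < a) :
    Tendsto (fun x : ℝ => Real.log (⌊x ^ a⌋₊ : ℝ) / Real.log x) atTop (𝓝 a) := by
  have h1 : Tendsto (fun x : ℝ => a - Real.log 2 / Real.log x) atTop (𝓝 a) := by
    have := (tendsto_const_nhds (x := Real.log 2)).div_atTop Real.tendsto_log_atTop
    simpa using this.const_sub a
  refine tendsto_of_tendsto_of_tendsto_of_le_of_le' h1 tendsto_const_nhds ?_ ?_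
  · filter_upwards [eventually_gt_atTop 1] with x hx
    have hx0 : 0 < x := by linarith
    have hlx : 0 < Real.log x := Real.log_pos hx
    have hxa : 1 ≤ x ^ a := Real.one_le_rpow hx.le ha.le
    have h2 : x ^ a / 2 ≤ (⌊x ^ a⌋₊ : ℝ) := by
      have h3 := Nat.lt_floor_add_one (x ^ a)
      have h4 : (1 : ℝ) ≤ (⌊x ^ a⌋₊ : ℝ) := by
        have : 1 ≤ ⌊x ^ a⌋₊ := Nat.le_floor (by simpa using hxa)
        exact_mod_cast this
      linarith
    rw [le_div_iff₀ hlx, sub_mul, div_mul_cancel₀ _ hlx.ne', ← Real.log_rpow hx0,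
      ← Real.log_div (by positivity) (by norm_num)]
    exact Real.log_le_log (by positivity) h2
  · filter_upwards [eventually_gt_atTop 1] with x hx
    have hx0 : 0 < x := by linarith
    have hlx : 0 < Real.log x := Real.log_pos hx
    have hxa : 1 ≤ x ^ a := Real.one_le_rpow hx.le ha.le
    have h4 : 0 < (⌊x ^ a⌋₊ : ℝ) := by
      have : 1 ≤ ⌊x ^ a⌋₊ := Nat.le_floor (by simpa using hxa)
      have : 0 < ⌊x ^ a⌋₊ := this
      exact_mod_cast this
    rw [div_le_iff₀ hlx, ← Real.log_rpow hx0]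
    exact Real.log_le_log h4 (Nat.floor_le (by positivity))

/-- Mertens' theorem in power scales. -/
lemma tendsto_mass (a b : ℝ) (ha : 0 < a) (hab : a ≤ b) :
    Tendsto (PS (fun _ => 1) a b) atTop (𝓝 (Real.log (b / a))) := by
  obtain ⟨C, hC, hM⟩ := Pool.Agent.Work.MP_b0c12c_nt_helper41.mertens2
  have hb : 0 < b := by linarith
  have ta := tendsto_log_floor a ha
  have tb := tendsto_log_floor b hb
  have hmain : Tendsto (fun x : ℝ => Real.log ((Real.log (⌊x ^ b⌋₊ : ℝ) / Real.log x)
      / (Real.log (⌊x ^ a⌋₊ : ℝ) / Real.log x))) atTop (𝓝 (Real.log (b / a))) :=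
    ((Real.continuousAt_log (by positivity : b / a ≠ 0)).tendsto).comp (tb.div ta ha.ne')
  have hfl : Tendsto (fun x : ℝ => (⌊x ^ a⌋₊ : ℝ)) atTop atTop :=
    tendsto_natCast_atTop_atTop.comp (tendsto_nat_floor_atTop.comp (tendsto_rpow_atTop ha))
  have herr : Tendsto (fun x : ℝ => C / Real.log (⌊x ^ a⌋₊ : ℝ)) atTop (𝓝 0) :=
    (tendsto_const_nhds (x := C)).div_atTop (Real.tendsto_log_atTop.comp hfl)
  have hdiff : Tendsto (fun x : ℝ => PS (fun _ => 1) a b x
      - Real.log ((Real.log (⌊x ^ b⌋₊ : ℝ) / Real.log x) / (Real.log (⌊x ^ a⌋₊ : ℝ) / Real.log x)))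
      atTop (𝓝 0) := by
    apply squeeze_zero_norm' _ herr
    filter_upwards [hfl.eventually_ge_atTop 2, eventually_gt_atTop 1] with x h2 hx
    have hlx : 0 < Real.log x := Real.log_pos hx
    have hu : 2 ≤ ⌊x ^ a⌋₊ := by exact_mod_cast h2
    have huv := floor_mono a b x hab hx.le
    have h3 := hM _ _ hu huv
    have hu0 : 0 < Real.log (⌊x ^ a⌋₊ : ℝ) := Real.log_pos (by linarith)
    have hv0 : 0 < Real.log (⌊x ^ b⌋₊ : ℝ) := by
      apply Real.log_pos
      have : (⌊x ^ a⌋₊ : ℝ) ≤ ⌊x ^ b⌋₊ := by exact_mod_cast huv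
      linarith
    rw [Real.norm_eq_abs]
    have h4 : Real.log ((Real.log (⌊x ^ b⌋₊ : ℝ) / Real.log x)
        / (Real.log (⌊x ^ a⌋₊ : ℝ) / Real.log x))
        = Real.log (Real.log (⌊x ^ b⌋₊ : ℝ)) - Real.log (Real.log (⌊x ^ a⌋₊ : ℝ)) := by
      rw [div_div_div_cancel_right₀ hlx.ne', Real.log_div hv0.ne' hu0.ne']
    rw [h4]
    exact h3
  have := hdiff.add hmain
  simpa using this

lemma PS_close (F : ℝ → ℝ) (a b x c ε : ℝ) (hx : 1 < x)
    (h : ∀ t, a ≤ t → t ≤ b → |F t - c| ≤ ε) :
    |PS F a b x - c * PS (fun _ => 1) a b x| ≤ ε * PS (fun _ => 1) a b x := by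
  unfold PS
  rw [mul_sum, mul_sum, ← sum_sub_distrib]
  refine le_trans (abs_sum_le_sum_abs _ _) (sum_le_sum fun p hp => ?_)
  obtain ⟨h1, h2, h3⟩ := mem_range a b x hx p (mem_filter.1 hp).1
  have hp0 : (0 : ℝ) < p := by exact_mod_cast h3
  have e : F (Real.log p / Real.log x) / p - c * (1 / p) = (F (Real.log p / Real.log x) - c) / p := by
    ring
  rw [e, abs_div, abs_of_pos hp0, mul_one_div]
  exact div_le_div_of_nonneg_right (h _ h1 h2) hp0.le

/-- The local estimate. -/
lemma local_est (F : ℝ → ℝ) (a b ε : ℝ) (ha : 0 < a) (hab : a ≤ b) (hε : 0 ≤ ε)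
    (hF : ContinuousOn F (Set.Icc a b)) (h : ∀ t ∈ Set.Icc a b, |F t - F a| ≤ ε) :
    ∀ η : ℝ, 0 < η → ∀ᶠ x in atTop,
      |PS F a b x - (∫ t in a..b, F t / t)| ≤ 2 * ε * Real.log (b / a) + η := by
  intro η hη
  have hm := tendsto_mass a b ha hab
  have h1 : Tendsto (fun x => |F a| * |PS (fun _ => 1) a b x - Real.log (b / a)|
      + ε * PS (fun _ => 1) a b x) atTop (𝓝 (|F a| * |Real.log (b / a) - Real.log (b / a)|
      + ε * Real.log (b / a))) :=
    ((hm.sub_const _).abs.const_mul _).add (hm.const_mul _)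
  rw [sub_self, abs_zero, mul_zero, zero_add] at h1
  have h2 := h1.eventually (gt_mem_nhds (by linarith : ε * Real.log (b / a)
    < ε * Real.log (b / a) + η))
  have hinv : IntervalIntegrable (fun t : ℝ => 1 / t) MeasureTheory.volume a b := by
    apply ContinuousOn.intervalIntegrable
    apply ContinuousOn.div continuousOn_const continuousOn_id
    intro t ht
    rw [Set.uIcc_of_le hab] at ht
    have := ht.1
    simp only [id]
    linarith
  have hFint : IntervalIntegrable (fun t : ℝ => F t / t) MeasureTheory.volume a b := by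
    apply ContinuousOn.intervalIntegrable
    rw [Set.uIcc_of_le hab]
    apply ContinuousOn.div hF continuousOn_id
    intro t ht
    have := ht.1
    simp only [id]
    linarith
  have hI1 : ∫ t in a..b, 1 / t = Real.log (b / a) :=
    integral_one_div_of_pos ha (by linarith)
  have hI : |(∫ t in a..b, F t / t) - F a * Real.log (b / a)| ≤ ε * Real.log (b / a) := by
    rw [← hI1, ← intervalIntegral.integral_const_mul, ← intervalIntegral.integral_sub hFint
      (hinv.const_mul _), ← intervalIntegral.integral_const_mul]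
    refine le_trans (intervalIntegral.abs_integral_le_integral_abs hab) ?_
    refine intervalIntegral.integral_mono_on hab (hFint.sub (hinv.const_mul _)).abs
      (hinv.const_mul _) fun t ht => ?_
    have ht0 : 0 < t := by linarith [ht.1]
    have e : F t / t - F a * (1 / t) = (F t - F a) / t := by ring
    rw [e, abs_div, abs_of_pos ht0, mul_one_div]
    exact div_le_div_of_nonneg_right (h t ht) ht0.le
  filter_upwards [h2, eventually_gt_atTop 1] with x hx hx1
  have h3 := PS_close F a b x (F a) ε hx1 fun t h5 h6 => h t ⟨h5, h6⟩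
  have e1 : PS F a b x - (∫ t in a..b, F t / t) = (PS F a b x - F a * PS (fun _ => 1) a b x)
      + F a * (PS (fun _ => 1) a b x - Real.log (b / a))
      - ((∫ t in a..b, F t / t) - F a * Real.log (b / a)) := by ring
  rw [e1]
  refine le_trans (abs_sub _ _) ?_
  refine le_trans (add_le_add (abs_add_le _ _) le_rfl) ?_
  rw [abs_mul]
  linarith

lemma PS_self (F : ℝ → ℝ) (a x : ℝ) : PS F a a x = 0 := by
  unfold PS
  simp

lemma int_ok (F : ℝ → ℝ) (a b : ℝ) (ha : 0 < a) (hab : a ≤ b) (hF : ContinuousOn F (Set.Icc a b)) :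
    IntervalIntegrable (fun t : ℝ => F t / t) MeasureTheory.volume a b := by
  apply ContinuousOn.intervalIntegrable
  rw [Set.uIcc_of_le hab]
  apply ContinuousOn.div hF continuousOn_id
  intro t ht
  have := ht.1
  simp only [id]
  linarith

/-- **Sums over primes in power scales.** -/
theorem prime_sum_tendsto (F : ℝ → ℝ) (a b : ℝ) (ha : 0 < a) (hab : a ≤ b)
    (hF : ContinuousOn F (Set.Icc a b)) :
    Tendsto (PS F a b) atTop (𝓝 (∫ t in a..b, F t / t)) := by
  have hlog : 0 ≤ Real.log (b / a) := Real.log_nonneg ((one_le_div ha).2 hab)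
  rw [Metric.tendsto_atTop']
  intro r hr
  -- choose the oscillation
  set ε := r / (4 * (Real.log (b / a) + 1)) with hε
  have hε0 : 0 < ε := by positivity
  have huc := isCompact_Icc.uniformContinuousOn_of_continuous hF
  rw [Metric.uniformContinuousOn_iff_le] at huc
  obtain ⟨δ, hδ, hosc⟩ := huc ε hε0
  obtain ⟨k, hk⟩ := exists_nat_gt ((b - a) / δ)
  have hk0 : (0 : ℝ) < k + 1 := by positivity
  set w := (b - a) / (k + 1) with hw
  have hw0 : 0 ≤ w := div_nonneg (by linarith) hk0.le
  have hwδ : w ≤ δ := by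
    rw [hw, div_le_iff₀ hk0]
    rw [div_lt_iff₀ hδ] at hk
    nlinarith
  have hend : a + (k + 1) * w = b := by
    rw [hw]; field_simp; ring
  have hle : ∀ i : ℕ, i ≤ k + 1 → a + i * w ≤ b := by
    intro i hi
    have h1 : (i : ℝ) ≤ k + 1 := by exact_mod_cast hi
    nlinarith [mul_le_mul_of_nonneg_right h1 hw0]
  have hge : ∀ i : ℕ, a ≤ a + i * w := by
    intro i
    have : 0 ≤ (i : ℝ) * w := by positivity
    linarith
  have hind : ∀ i : ℕ, i ≤ k + 1 → ∀ η : ℝ, 0 < η → ∀ᶠ x in atTop,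
      |PS F a (a + i * w) x - (∫ t in a..(a + i * w), F t / t)|
        ≤ 2 * ε * Real.log ((a + i * w) / a) + η := by
    intro i
    induction i with
    | zero =>
      intro _ η hη
      refine Eventually.of_forall fun x => ?_
      simp only [Nat.cast_zero, zero_mul, add_zero, PS_self, intervalIntegral.integral_same,
        sub_self, abs_zero]
      rw [div_self ha.ne', Real.log_one]
      linarith
    | succ i ih =>
      intro hi η hη
      have h1 := ih (by omega) (η / 2) (by linarith)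
      have hstep : a + i * w ≤ a + ((i + 1 : ℕ) : ℝ) * w := by
        push_cast; nlinarith
      have hb1 := hle (i + 1) hi
      have ha1 : 0 < a + i * w := by have := hge i; linarith
      have hsub : Set.Icc (a + i * w) (a + ((i + 1 : ℕ) : ℝ) * w) ⊆ Set.Icc a b := fun t ht =>
        ⟨le_trans (hge i) ht.1, le_trans ht.2 hb1⟩
      have h2 := local_est F (a + i * w) (a + ((i + 1 : ℕ) : ℝ) * w) ε ha1 hstep hε0.le
        (hF.mono hsub) (fun t ht => by
          have h3 := hosc t (hsub ht) (a + i * w) (hsub ⟨le_rfl, hstep⟩) (by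
            rw [Real.dist_eq, abs_le]
            have h4 := ht.2
            push_cast at h4
            constructor
            · linarith [ht.1]
            · linarith)
          rwa [Real.dist_eq] at h3) (η / 2) (by linarith)
      filter_upwards [h1, h2, eventually_ge_atTop 1] with x hx1 hx2 hx3
      rw [PS_add F a (a + i * w) (a + ((i + 1 : ℕ) : ℝ) * w) x (hge i) hstep hx3,
        ← intervalIntegral.integral_add_adjacent_intervals
          (int_ok F a (a + i * w) ha (hge i) (hF.mono fun t ht => ⟨ht.1, le_trans ht.2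
            (le_trans hstep hb1)⟩))
          (int_ok F _ _ ha1 hstep (hF.mono hsub))]
      have hl : Real.log ((a + ((i + 1 : ℕ) : ℝ) * w) / a) = Real.log ((a + i * w) / a)
          + Real.log ((a + ((i + 1 : ℕ) : ℝ) * w) / (a + i * w)) := by
        rw [← Real.log_mul (by positivity) (by
          have : 0 < a + ((i + 1 : ℕ) : ℝ) * w := by linarith
          positivity)]
        congr 1
        field_simp
      rw [hl]
      have e : PS F a (a + i * w) x + PS F (a + i * w) (a + ((i + 1 : ℕ) : ℝ) * w) x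
          - ((∫ t in a..(a + i * w), F t / t)
            + ∫ t in (a + i * w)..(a + ((i + 1 : ℕ) : ℝ) * w), F t / t)
          = (PS F a (a + i * w) x - (∫ t in a..(a + i * w), F t / t))
            + (PS F (a + i * w) (a + ((i + 1 : ℕ) : ℝ) * w) x
              - (∫ t in (a + i * w)..(a + ((i + 1 : ℕ) : ℝ) * w), F t / t)) := by ring
      rw [e]
      refine le_trans (abs_add_le _ _) ?_
      linarith
  have hfin := hind (k + 1) le_rfl (r / 4) (by linarith)
  push_cast at hfin
  rw [hend] at hfin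
  obtain ⟨x0, hx0⟩ := eventually_atTop.1 hfin
  refine ⟨x0, fun x hx => ?_⟩
  have h1 := hx0 x (le_of_lt hx)
  rw [Real.dist_eq]
  have h2 : 2 * ε * Real.log (b / a) ≤ r / 2 := by
    rw [hε]
    rw [mul_div_assoc', div_mul_eq_mul_div, div_le_div_iff₀ (by positivity) (by norm_num)]
    nlinarith
  linarith

end Pool.Agent.Chen
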