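import Pool.Agent.Work.Chen.A1
import Pool.Agent.Work.Chen.QS

/-!
# The sum over `q` in Chen's theorem
-/

set_option autoImplicit false

namespace Pool.Agent.Chen

open Finset Filter MeasureTheory
open scoped Classical Topology

/-- The integral of the sieve function. -/
lemma integral_F (A δ η : ℝ) (hη : 0 < η) (hη1 : η ≤ 1 / 24) :
    ∫ t in (1 / 8 - η)..(1 / 3), (A / (8 * (1 / 2 - η - t)) + δ) / t =
      A / (8 * (1 / 2 - η)) * (Real.log (2 / (1 - 6 * η)) + Real.log (3 / (1 - 8 * η))) +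
        δ * (Real.log (1 / 3) - Real.log (1 / 8 - η)) := by
  have hc : (0 : ℝ) < 1 / 2 - η := by linarith
  have hab : (1 / 8 - η) ≤ (1 / 3 : ℝ) := by linarith
  have hderiv : ∀ t ∈ Set.uIcc (1 / 8 - η) (1 / 3), HasDerivAt
      (fun t => A / (8 * (1 / 2 - η)) * (Real.log t - Real.log (1 / 2 - η - t)) +
        δ * Real.log t) ((A / (8 * (1 / 2 - η - t)) + δ) / t) t := by
    intro t ht
    rw [Set.uIcc_of_le hab] at ht
    have ht0 : 0 < t := by linarith [ht.1]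
    have ht1 : 0 < 1 / 2 - η - t := by linarith [ht.2]
    have h1 : HasDerivAt (fun t : ℝ => Real.log t) (1 / t) t := by
      rw [one_div]; exact Real.hasDerivAt_log ht0.ne'
    have h2 : HasDerivAt (fun t : ℝ => Real.log (1 / 2 - η - t)) (-1 / (1 / 2 - η - t)) t :=
      ((hasDerivAt_id t).const_sub (1 / 2 - η)).log ht1.ne'
    have h3 := ((h1.fun_sub h2).const_mul (A / (8 * (1 / 2 - η)))).fun_add (h1.const_mul δ)
    refine h3.congr_deriv ?_
    obtain ⟨w, hw⟩ : ∃ w, w = 1 / 2 - η - t := ⟨_, rfl⟩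
    have hc' : 1 / 2 - η = t + w := by rw [hw]; ring
    rw [← hw, hc']
    rw [← hw] at ht1
    have htw : t + w ≠ 0 := by positivity
    field_simp
    ring
  have hcont : ContinuousOn (fun t : ℝ => (A / (8 * (1 / 2 - η - t)) + δ) / t)
      (Set.uIcc (1 / 8 - η) (1 / 3)) := by
    rw [Set.uIcc_of_le hab]
    apply ContinuousOn.div
    · apply ContinuousOn.add _ continuousOn_const
      apply ContinuousOn.div continuousOn_const (by fun_prop)
      intro t ht
      have ht1 : 0 < 1 / 2 - η - t := by linarith [ht.2]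
      positivity
    · exact continuousOn_id
    · intro t ht
      have ht0 : 0 < t := by linarith [ht.1]
      exact ht0.ne'
  rw [intervalIntegral.integral_eq_sub_of_hasDerivAt hderiv hcont.intervalIntegrable]
  have h1 : Real.log (2 / (1 - 6 * η)) = Real.log (1 / 3) - Real.log (1 / 2 - η - 1 / 3) := by
    rw [← Real.log_div (by norm_num) (by linarith)]
    congr 1
    have : (1 : ℝ) - 6 * η ≠ 0 := by linarith
    rw [show (1 : ℝ) / 2 - η - 1 / 3 = (1 - 6 * η) / 6 by ring]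
    field_simp
    norm_num
  have h2 : Real.log (3 / (1 - 8 * η)) =
      Real.log (1 / 2 - η - (1 / 8 - η)) - Real.log (1 / 8 - η) := by
    rw [← Real.log_div (by linarith) (by linarith)]
    congr 1
    have : (1 : ℝ) - 8 * η ≠ 0 := by linarith
    rw [show (1 : ℝ) / 8 - η = (1 - 8 * η) / 8 by ring,
      show (1 : ℝ) / 2 - η - (1 - 8 * η) / 8 = 3 / 8 by ring]
    field_simp
  rw [h1, h2]
  ring

/-- The choice of `η`. -/
lemma choose_eta (A δ : ℝ) (hδ : 0 < δ) : ∃ η : ℝ, 0 < η ∧ η ≤ 1 / 24 ∧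
    A / (8 * (1 / 2 - η)) * (Real.log (2 / (1 - 6 * η)) + Real.log (3 / (1 - 8 * η))) ≤
      A * Real.log 6 / 4 + δ := by
  have hcont : ContinuousAt (fun η : ℝ => A / (8 * (1 / 2 - η)) *
      (Real.log (2 / (1 - 6 * η)) + Real.log (3 / (1 - 8 * η)))) 0 := by
    apply ContinuousAt.mul
    · apply ContinuousAt.div continuousAt_const (by fun_prop) (by norm_num)
    · apply ContinuousAt.add
      · apply ContinuousAt.log _ (by norm_num)
        apply ContinuousAt.div continuousAt_const (by fun_prop) (by norm_num)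
      · apply ContinuousAt.log _ (by norm_num)
        apply ContinuousAt.div continuousAt_const (by fun_prop) (by norm_num)
  have h0 : A / (8 * (1 / 2 - 0)) * (Real.log (2 / (1 - 6 * 0)) + Real.log (3 / (1 - 8 * 0)))
      = A * Real.log 6 / 4 := by
    rw [show (6 : ℝ) = 2 * 3 by norm_num, Real.log_mul (by norm_num) (by norm_num)]
    norm_num
    ring
  have h1 : ∀ᶠ η : ℝ in 𝓝 0, A / (8 * (1 / 2 - η)) *
      (Real.log (2 / (1 - 6 * η)) + Real.log (3 / (1 - 8 * η))) < A * Real.log 6 / 4 + δ := by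
    apply hcont.eventually_lt continuousAt_const
    rw [h0]
    linarith
  obtain ⟨r, hr, h2⟩ := Metric.eventually_nhds_iff.1 h1
  refine ⟨min (r / 2) (1 / 24), lt_min (by linarith) (by norm_num), min_le_right _ _, ?_⟩
  apply le_of_lt
  apply h2
  rw [dist_zero_right, Real.norm_of_nonneg (le_min (by linarith) (by norm_num))]
  exact (min_le_left _ _).trans_lt (by linarith)

lemma mem_Qs {N : ℕ} {z y : ℝ} {q : ℕ} :
    q ∈ Qs N z y ↔ (q : ℝ) < y ∧ q.Prime ∧ z ≤ (q : ℝ) ∧ ¬ q ∣ N := by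
  unfold Qs
  rw [mem_filter, Finset.mem_range, Nat.lt_ceil]

/-- The sum of the main terms. -/
lemma main_sum (A δ η : ℝ) (hA : 0 < A) (hδ : 0 < δ) (hη : 0 < η) (hη1 : η ≤ 1 / 24) :
    ∃ N₀ : ℕ, ∀ N ≥ N₀, ∑ q ∈ Qs N ((N : ℝ) ^ (1 / 8 : ℝ)) ((N : ℝ) ^ (1 / 3 : ℝ)),
      (1 / ((q : ℝ) - 1)) * (A / (8 * (1 / 2 - η - Real.log q / Real.log N)) + δ) ≤
      A / (8 * (1 / 2 - η)) * (Real.log (2 / (1 - 6 * η)) + Real.log (3 / (1 - 8 * η))) +
        3 * δ := by
  have hab : (1 / 8 - η) ≤ (1 / 3 : ℝ) := by linarith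
  have ha : (0 : ℝ) < 1 / 8 - η := by linarith
  set F : ℝ → ℝ := fun t => A / (8 * (1 / 2 - η - t)) + δ with hF
  have hFc : ContinuousOn F (Set.Icc (1 / 8 - η) (1 / 3)) := by
    apply ContinuousOn.add _ continuousOn_const
    apply ContinuousOn.div continuousOn_const (by fun_prop)
    intro t ht
    have ht1 : 0 < 1 / 2 - η - t := by linarith [ht.2]
    positivity
  have h1 := prime_sum_tendsto F (1 / 8 - η) (1 / 3) ha hab hFc
  rw [integral_F A δ η hη hη1] at h1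
  set I := A / (8 * (1 / 2 - η)) * (Real.log (2 / (1 - 6 * η)) + Real.log (3 / (1 - 8 * η)))
  have h2 : Tendsto (fun x : ℝ => (1 + 2 / x ^ (1 / 8 : ℝ)) * PS F (1 / 8 - η) (1 / 3) x) atTop
      (𝓝 ((1 + 0) * (I + δ * (Real.log (1 / 3) - Real.log (1 / 8 - η))))) := by
    apply Tendsto.mul _ h1
    apply tendsto_const_nhds.add
    exact Tendsto.const_div_atTop (tendsto_rpow_atTop (by norm_num)) 2
  have h3 : (1 + 0) * (I + δ * (Real.log (1 / 3) - Real.log (1 / 8 - η))) < I + 3 * δ := by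
    have h4 : Real.log (1 / 3) - Real.log (1 / 8 - η) ≤ 2 := by
      have h5 : Real.log (1 / 12) ≤ Real.log (1 / 8 - η) :=
        Real.log_le_log (by norm_num) (by linarith)
      have h6 : Real.log (1 / 3) - Real.log (1 / 12) = Real.log 4 := by
        rw [← Real.log_div (by norm_num) (by norm_num)]
        norm_num
      have h7 : Real.log 4 ≤ 2 := by
        rw [show (4 : ℝ) = 2 ^ 2 by norm_num, Real.log_pow]
        have := Real.log_two_lt_d9
        push_cast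
        linarith
      linarith
    nlinarith
  have h4 := h2.eventually_lt_const h3
  obtain ⟨N₀, hN₀⟩ := ev_nat (h4.and (eventually_ge_atTop (256 : ℝ)))
  refine ⟨N₀, fun N hN => ?_⟩
  obtain ⟨h5, h6⟩ := hN₀ N hN
  have hN0 : (0 : ℝ) < N := by linarith
  have hNgt : (1 : ℝ) < N := by linarith
  have hlN : 0 < Real.log N := Real.log_pos hNgt
  refine le_trans ?_ h5.le
  have hz : (0 : ℝ) < (N : ℝ) ^ (1 / 8 : ℝ) := Real.rpow_pos_of_pos hN0 _
  unfold PS
  rw [mul_sum]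
  have hsub : Qs N ((N : ℝ) ^ (1 / 8 : ℝ)) ((N : ℝ) ^ (1 / 3 : ℝ)) ⊆
      (Ioc ⌊(N : ℝ) ^ (1 / 8 - η)⌋₊ ⌊(N : ℝ) ^ (1 / 3 : ℝ)⌋₊).filter Nat.Prime := by
    intro q hq
    obtain ⟨h7, h8, h9, _⟩ := mem_Qs.1 hq
    rw [mem_filter, mem_Ioc]
    refine ⟨⟨?_, Nat.le_floor h7.le⟩, h8⟩
    rw [Nat.floor_lt (Real.rpow_nonneg hN0.le _)]
    refine lt_of_lt_of_le ?_ h9
    exact Real.rpow_lt_rpow_of_exponent_lt hNgt (by linarith)
  have hpos : ∀ q ∈ (Ioc ⌊(N : ℝ) ^ (1 / 8 - η)⌋₊ ⌊(N : ℝ) ^ (1 / 3 : ℝ)⌋₊).filter Nat.Prime,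
      0 ≤ F (Real.log q / Real.log N) := by
    intro q hq
    have h7 := mem_range (1 / 8 - η) (1 / 3) N hNgt q (mem_filter.1 hq).1
    have h8 : 0 < 1 / 2 - η - Real.log q / Real.log N := by linarith [h7.2.1]
    simp only [hF]
    positivity
  refine le_trans (sum_le_sum (g := fun q : ℕ => (1 + 2 / (N : ℝ) ^ (1 / 8 : ℝ)) *
    (F (Real.log q / Real.log N) / q)) ?_) (sum_le_sum_of_subset_of_nonneg hsub ?_)
  · intro q hq
    have h7 := hpos q (hsub hq)
    obtain ⟨h8, h9, h10, _⟩ := mem_Qs.1 hq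
    have h11 : (2 : ℝ) ≤ q := by exact_mod_cast h9.two_le
    have h12 : 1 / ((q : ℝ) - 1) ≤ (1 + 2 / (N : ℝ) ^ (1 / 8 : ℝ)) / q := by
      have h13 : 1 / ((q : ℝ) - 1) ≤ (1 + 2 / q) / q := by
        rw [div_le_div_iff₀ (by linarith) (by linarith)]
        have : (1 + 2 / (q : ℝ)) * (q - 1) = q + 1 - 2 / q := by field_simp; ring
        rw [this]
        have h14 : 2 / (q : ℝ) ≤ 1 := by rw [div_le_one (by linarith)]; exact h11
        linarith
      refine h13.trans ?_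
      gcongr
    calc 1 / ((q : ℝ) - 1) * (A / (8 * (1 / 2 - η - Real.log q / Real.log N)) + δ)
        = 1 / ((q : ℝ) - 1) * F (Real.log q / Real.log N) := rfl
      _ ≤ (1 + 2 / (N : ℝ) ^ (1 / 8 : ℝ)) / q * F (Real.log q / Real.log N) := by gcongr
      _ = _ := by ring
  · intro q hq _
    have h7 := hpos q hq
    positivity

/-- The sieve bound for one `q` and the moduli of its remainder. -/
noncomputable def Dq (N : ℕ) (z D : ℝ) (u₀ q : ℕ) : Finset ℕ :=
  (∏ p ∈ Sf N z, p).divisors.filter (fun d : ℕ => (d : ℝ) < D / q * (∏ r ∈ Qf N z u₀, r : ℕ))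

lemma q_coprime {N : ℕ} {z y D : ℝ} {u₀ q q' d : ℕ} (hq : q ∈ Qs N z y) (hd : d ∈ Dq N z D u₀ q') :
    q.Coprime d := by
  obtain ⟨_, h9, h10, _⟩ := mem_Qs.1 hq
  rw [h9.coprime_iff_not_dvd]
  intro h
  have h1 := Nat.dvd_of_mem_divisors (mem_filter.1 hd).1
  have hd0 : d ≠ 0 := (Nat.pos_of_mem_divisors (mem_filter.1 hd).1).ne'
  have h2 : q ∈ d.primeFactors := Nat.mem_primeFactors.2 ⟨h9, h, hd0⟩
  have h3 := Sf_lt q (primeFactors_of_mem h1 h2)
  linarith

lemma inj_mul {N : ℕ} {z y D : ℝ} {u₀ : ℕ} :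
    Set.InjOn (fun x : (_ : ℕ) × ℕ => x.1 * x.2)
      ((Qs N z y).sigma (fun q => Dq N z D u₀ q) : Finset ((_ : ℕ) × ℕ)) := by
  rintro ⟨q, d⟩ h1 ⟨q', d'⟩ h2 h3
  simp only [mem_coe, mem_sigma] at h1 h2
  simp only at h3
  have hq := (mem_Qs.1 h1.1).2.1
  have hq' := (mem_Qs.1 h2.1).2.1
  have h4 : q ∣ q' * d' := h3 ▸ dvd_mul_right q d
  have h5 : q ∣ q' := (q_coprime h1.1 h2.2).dvd_of_dvd_mul_right h4
  have h6 : q = q' := (Nat.prime_dvd_prime_iff_eq hq hq').1 h5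
  subst h6
  have h7 : d = d' := Nat.eq_of_mul_eq_mul_left hq.pos h3
  rw [h7]

theorem AQ (hPR : Stmt_PR) : Stmt_AQ := by
  intro A hLin k δ hδ
  obtain ⟨hA, hLin⟩ := hLin
  obtain ⟨ε, hε, hS⟩ := hLin (δ / 12) (by positivity)
  obtain ⟨u₀, hu₀, hd⟩ := dens ε hε
  obtain ⟨η, hη, hη1, hη2⟩ := choose_eta A (δ / 4) (by positivity)
  have hK : (0 : ℝ) < (u₀ : ℝ) ^ u₀ := by
    have : (0 : ℝ) < u₀ := by exact_mod_cast (by omega : 0 < u₀)
    positivity
  obtain ⟨N₁, h1⟩ := err_small hPR k (δ / 4) η ((u₀ : ℝ) ^ u₀) (by positivity) hη hK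
  obtain ⟨N₂, h2⟩ := main_sum A (δ / 12) η hA (by positivity) hη hη1
  refine ⟨max N₁ (max N₂ 256), fun N hN Y hR => ?_⟩
  have hN1 : N₁ ≤ N := (le_max_left _ _).trans hN
  have hN2 : N₂ ≤ N := (le_max_left _ _).trans ((le_max_right _ _).trans hN)
  have hN3 : (256 : ℝ) ≤ N := by
    exact_mod_cast (le_max_right _ _).trans ((le_max_right _ _).trans hN)
  have hN0 : (0 : ℝ) < N := by linarith
  have hNgt : (1 : ℝ) < N := by linarith
  have hlN : 0 < Real.log N := Real.log_pos hNgt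
  obtain ⟨hY1, hY2⟩ := reg_basic hR (by
    have : 0 < N := by exact_mod_cast hN0
    exact this)
  set z : ℝ := (N : ℝ) ^ (1 / 8 : ℝ) with hz
  set y : ℝ := (N : ℝ) ^ (1 / 3 : ℝ) with hy
  set D : ℝ := (N : ℝ) ^ (1 / 2 - η) with hD
  have hD0 : 0 < D := Real.rpow_pos_of_pos hN0 _
  have hz2 : 2 ≤ z := by
    calc (2 : ℝ) = (256 : ℝ) ^ (1 / 8 : ℝ) := by
          rw [show (256 : ℝ) = 2 ^ (8 : ℝ) by norm_num, ← Real.rpow_mul (by norm_num)]
          norm_num
      _ ≤ _ := Real.rpow_le_rpow (by norm_num) hN3 (by norm_num)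
  set X : ℝ := ((Pr Y).card : ℝ) with hX
  set V := VN N z with hV
  have hXV : 0 ≤ X * V := mul_nonneg (Nat.cast_nonneg _) (VN_pos hR.1 z).le
  -- the bound for one `q`
  have key : ∀ q ∈ Qs N z y, (Sq N Y z q : ℝ) ≤ X * V * ((1 / ((q : ℝ) - 1)) *
      (A / (8 * (1 / 2 - η - Real.log q / Real.log N)) + δ / 12)) +
      ∑ d ∈ Dq N z D u₀ q, Em N Y (q * d) := by
    intro q hq
    obtain ⟨hqy, hqp, hqz, hqN⟩ := mem_Qs.1 hq
    have hq2 : (2 : ℝ) ≤ q := by exact_mod_cast hqp.two_le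
    have hq0 : (0 : ℝ) < q := by linarith
    have hzD : z ≤ D / q := by
      rw [le_div_iff₀ hq0]
      calc z * q ≤ z * y := by gcongr
        _ = (N : ℝ) ^ (1 / 8 + 1 / 3 : ℝ) := by rw [hz, hy, ← Real.rpow_add hN0]
        _ ≤ D := Real.rpow_le_rpow_of_exponent_le hNgt.le (by linarith)
    have hDz : D / q ≤ z ^ 3 := by
      rw [div_le_iff₀ hq0]
      calc D ≤ z ^ 4 := by
            rw [hz, ← Real.rpow_mul_natCast hN0.le]
            apply Real.rpow_le_rpow_of_exponent_le hNgt.le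
            push_cast
            linarith
        _ = z ^ 3 * z := by ring
        _ ≤ z ^ 3 * q := by gcongr
    have h3 := (hS (Sf N z) (Qf N z u₀) (fun p => 1 / ((p : ℝ) - 1)) Sf_prime (Qf_sub N z u₀)
      g_nonneg (g_lt_one hR.1) z (D / q) hz2 Sf_lt (fun u w hu huw hw => hd N z u w hu huw hw)
      ((Pr Y).filter (fun p => q ∣ N - p))
      (fun p => N - p) (fun _ => 1) (fun _ _ => zero_le_one) (X / ((q : ℝ) - 1))
      (by apply div_nonneg (Nat.cast_nonneg _); linarith)).1 hzD hDz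
    have hs : Real.log (D / q) / Real.log z = 8 * (1 / 2 - η - Real.log q / Real.log N) := by
      rw [Real.log_div hD0.ne' hq0.ne', hD, hz, Real.log_rpow hN0, Real.log_rpow hN0]
      field_simp
    rw [hs] at h3
    have h4 : ∑ i ∈ ((Pr Y).filter (fun p => q ∣ N - p)).filter
        (fun i => ∀ p ∈ Sf N z, ¬ p ∣ N - i), (1 : ℝ) = (Sq N Y z q : ℝ) := by
      rw [sum_const, nsmul_eq_mul, mul_one, filter_filter]
      rfl
    rw [h4] at h3
    refine h3.trans (add_le_add (le_of_eq ?_) (le_of_eq ?_))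
    · change X / ((q : ℝ) - 1) * V * _ = _
      ring
    · apply sum_congr rfl
      intro d hdd
      have h5 := Nat.dvd_of_mem_divisors (mem_filter.1 hdd).1
      have h6 : q.Coprime d := q_coprime hq (q' := q) hdd
      rw [prod_g_eq (squarefree_of_mem h5), sum_const, nsmul_eq_mul, mul_one, filter_filter]
      unfold Em
      have h7 : (Pr Y).filter (fun p => q * d ∣ N - p) =
          (Pr Y).filter (fun a => q ∣ N - a ∧ d ∣ N - a) := by
        apply filter_congr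
        intro p _
        constructor
        · intro h
          exact ⟨(dvd_mul_right q d).trans h, (dvd_mul_left d q).trans h⟩
        · intro h
          exact h6.mul_dvd_of_dvd_of_dvd h.1 h.2
      rw [h7, Nat.totient_mul h6, Nat.totient_prime hqp]
      congr 1
      rw [Nat.cast_mul, Nat.cast_sub hqp.one_le, Nat.cast_one]
      congr 1
      rw [mul_one_div, div_div]
  -- the sum of the remainders
  have hrem : ∑ q ∈ Qs N z y, ∑ d ∈ Dq N z D u₀ q, Em N Y (q * d) ≤ δ / 4 * (X * V) := by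
    rw [sum_sigma']
    have h3 := sum_image (f := fun m => Em N Y m) (inj_mul (N := N) (z := z) (y := y) (D := D)
      (u₀ := u₀))
    rw [← h3]
    apply h1 N hN1 Y hR
    intro m hm
    rw [mem_image] at hm
    obtain ⟨⟨q, d⟩, h4, rfl⟩ := hm
    rw [mem_sigma] at h4
    obtain ⟨hq, hdd⟩ := h4
    simp only at hq hdd
    obtain ⟨hqy, hqp, hqz, hqN⟩ := mem_Qs.1 hq
    have hq0 : (0 : ℝ) < q := by exact_mod_cast hqp.pos
    have h5 := Nat.dvd_of_mem_divisors (mem_filter.1 hdd).1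
    have h6 := Nat.pos_of_mem_divisors (mem_filter.1 hdd).1
    refine ⟨Nat.mul_pos hqp.pos h6, ?_, ?_⟩
    · have h7 := (mem_filter.1 hdd).2
      have h8 : ((∏ r ∈ Qf N z u₀, r : ℕ) : ℝ) ≤ (u₀ : ℝ) ^ u₀ := by
        exact_mod_cast prod_Qf_le N z u₀ (by omega)
      push_cast at h7 h8 ⊢
      calc (q : ℝ) * d < q * (D / q * ∏ r ∈ Qf N z u₀, (r : ℝ)) := by gcongr
        _ = D * ∏ r ∈ Qf N z u₀, (r : ℝ) := by field_simp
        _ ≤ D * (u₀ : ℝ) ^ u₀ := by gcongr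
    · exact Nat.Coprime.mul_left ((hqp.coprime_iff_not_dvd).2 hqN) (coprime_of_mem h5)
  calc ∑ q ∈ Qs N z y, (Sq N Y z q : ℝ)
      ≤ ∑ q ∈ Qs N z y, (X * V * ((1 / ((q : ℝ) - 1)) *
        (A / (8 * (1 / 2 - η - Real.log q / Real.log N)) + δ / 12)) +
        ∑ d ∈ Dq N z D u₀ q, Em N Y (q * d)) := sum_le_sum key
    _ = X * V * (∑ q ∈ Qs N z y, (1 / ((q : ℝ) - 1)) *
        (A / (8 * (1 / 2 - η - Real.log q / Real.log N)) + δ / 12)) +
        ∑ q ∈ Qs N z y, ∑ d ∈ Dq N z D u₀ q, Em N Y (q * d) := by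
        rw [sum_add_distrib, mul_sum]
    _ ≤ X * V * (A * Real.log 6 / 4 + δ / 4 + 3 * (δ / 12)) + δ / 4 * (X * V) := by
        apply add_le_add _ hrem
        apply mul_le_mul_of_nonneg_left _ hXV
        exact (h2 N hN2).trans (by linarith)
    _ ≤ X * V * (A * Real.log 6 / 4 + δ) := by nlinarith

end Pool.Agent.Chen
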