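import Pool.Agent.Work.Chen.Interface

/-! Chen: block NUM (helper59). -/

set_option autoImplicit false

namespace Pool.Agent.Chen.NUMw

theorem log_le (t : ℝ) (ht : 0 ≤ t) : Real.log (1 + t) ≤ t - t ^ 2 / 2 + t ^ 3 / 3 := by
  set g : ℝ → ℝ := fun t => t - t ^ 2 / 2 + t ^ 3 / 3 - Real.log (1 + t) with hg
  have hd : ∀ x ∈ Set.Ici (0 : ℝ), HasDerivAt g (1 - x + x ^ 2 - 1 / (1 + x)) x := by
    intro x hx
    have hx0 : (0 : ℝ) ≤ x := hx
    have h1 : HasDerivAt (fun x : ℝ => Real.log (1 + x)) (1 / (1 + x)) x := by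
      have := ((hasDerivAt_id x).const_add 1).log (by simp only [id]; linarith)
      simpa using this
    have h2 : HasDerivAt (fun x : ℝ => x - x ^ 2 / 2 + x ^ 3 / 3) (1 - x + x ^ 2) x := by
      have a1 := hasDerivAt_id x
      have a2 := (hasDerivAt_pow 2 x).div_const 2
      have a3 := (hasDerivAt_pow 3 x).div_const 3
      have a4 := (a1.sub a2).add a3
      refine a4.congr_deriv ?_
      simp
    exact h2.sub h1
  have hmono : MonotoneOn g (Set.Ici 0) := by
    apply monotoneOn_of_deriv_nonneg (convex_Ici 0)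
    · intro x hx
      exact (hd x hx).continuousAt.continuousWithinAt
    · intro x hx
      rw [interior_Ici] at hx
      have hx0 : (0 : ℝ) < x := hx
      exact (hd x (Set.mem_Ici.2 hx0.le)).differentiableAt.differentiableWithinAt
    · intro x hx
      rw [interior_Ici] at hx
      have hx0 : (0 : ℝ) < x := hx
      rw [(hd x (Set.mem_Ici.2 hx0.le)).deriv]
      have : 1 - x + x ^ 2 - 1 / (1 + x) = x ^ 3 / (1 + x) := by
        field_simp; ring
      rw [this]
      positivity
  have h0 : g 0 = 0 := by simp [hg]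
  have := hmono (Set.mem_Ici.2 le_rfl) (Set.mem_Ici.2 ht) ht
  rw [h0] at this
  simp only [hg] at this
  linarith

end Pool.Agent.Chen.NUMw

namespace Pool.Agent.Chen
open NUMw

theorem NUM : Stmt_NUM := by
  constructor
  · have hpt : ∀ β ∈ Set.Icc (1 / 8 : ℝ) (1 / 3), Real.log (2 - 3 * β) / (β * (1 - β)) ≤
        (1 - 3 * β) * (9 / 2 + 77 / 10 * (1 - 3 * β) ^ 2) := by
      intro β hβ
      obtain ⟨h1, h2⟩ := hβ
      have hb : 0 < β * (1 - β) := mul_pos (by linarith) (by linarith)
      rw [div_le_iff₀ hb]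
      have e : 2 - 3 * β = 1 + (1 - 3 * β) := by ring
      rw [e]
      refine (log_le _ (by linarith)).trans ?_
      set t := 1 - 3 * β with ht
      have ht0 : 0 ≤ t := by linarith
      have ht1 : t ≤ 5 / 8 := by linarith
      have hβt : β = (1 - t) / 3 := by linarith
      rw [hβt]
      have key : t * (9 / 2 + 77 / 10 * t ^ 2) * ((1 - t) / 3 * (1 - (1 - t) / 3)) -
          (t - t ^ 2 / 2 + t ^ 3 / 3) = t ^ 3 * (79 / 10 - 77 / 10 * (t + t ^ 2)) / 9 := by
        ring
      have h3 : 0 ≤ t ^ 3 * (79 / 10 - 77 / 10 * (t + t ^ 2)) / 9 := by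
        have : 0 ≤ 79 / 10 - 77 / 10 * (t + t ^ 2) := by nlinarith
        positivity
      linarith
    have hle : (∫ β in (1 / 8 : ℝ)..(1 / 3), Real.log (2 - 3 * β) / (β * (1 - β))) ≤
        ∫ β in (1 / 8 : ℝ)..(1 / 3), (1 - 3 * β) * (9 / 2 + 77 / 10 * (1 - 3 * β) ^ 2) := by
      apply intervalIntegral.integral_mono_on (by norm_num)
      · apply ContinuousOn.intervalIntegrable
        rw [Set.uIcc_of_le (by norm_num)]
        apply ContinuousOn.div
        · apply ContinuousOn.log
          · fun_prop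
          · intro x hx
            have : x ≤ 1 / 3 := hx.2
            have : (0 : ℝ) < 2 - 3 * x := by linarith
            exact this.ne'
        · fun_prop
        · intro x hx
          have h1 : 1 / 8 ≤ x := hx.1
          have h2 : x ≤ 1 / 3 := hx.2
          exact (mul_pos (by linarith) (by linarith)).ne'
      · apply Continuous.intervalIntegrable
        fun_prop
      · exact hpt
    have hint : (∫ β in (1 / 8 : ℝ)..(1 / 3), (1 - 3 * β) * (9 / 2 + 77 / 10 * (1 - 3 * β) ^ 2)) =
        (fun β : ℝ => -(1 / 3) * (9 / 4 * (1 - 3 * β) ^ 2 + 77 / 40 * (1 - 3 * β) ^ 4)) (1 / 3) -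
        (fun β : ℝ => -(1 / 3) * (9 / 4 * (1 - 3 * β) ^ 2 + 77 / 40 * (1 - 3 * β) ^ 4)) (1 / 8) := by
      refine intervalIntegral.integral_eq_sub_of_hasDerivAt
        (f := fun β : ℝ => -(1 / 3) * (9 / 4 * (1 - 3 * β) ^ 2 + 77 / 40 * (1 - 3 * β) ^ 4))
        (f' := fun β : ℝ => (1 - 3 * β) * (9 / 2 + 77 / 10 * (1 - 3 * β) ^ 2)) ?_ ?_
      · intro x _
        have h0 : HasDerivAt (fun β : ℝ => 1 - 3 * β) (-3) x := by
          have := ((hasDerivAt_id x).const_mul 3).const_sub 1
          simpa using this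
        have h1 := ((h0.pow 2).const_mul (9 / 4)).add ((h0.pow 4).const_mul (77 / 40))
        have h2 := h1.const_mul (-(1 / 3 : ℝ))
        refine h2.congr_deriv ?_
        simp
        ring
      · apply Continuous.intervalIntegrable
        fun_prop
    rw [hint] at hle
    refine lt_of_le_of_lt hle ?_
    norm_num
  · have h1 : (2 : ℝ) * Real.log 3 - Real.log 6 = Real.log (3 / 2) := by
      have e6 : (6 : ℝ) = 2 * 3 := by norm_num
      rw [e6, Real.log_mul (by norm_num) (by norm_num), Real.log_div (by norm_num) (by norm_num)]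
      ring
    rw [h1, Real.lt_log_iff_exp_lt (by norm_num)]
    have h2 := Real.exp_bound' (x := 2 / 5) (by norm_num) (by norm_num) (n := 4) (by norm_num)
    refine lt_of_le_of_lt h2 ?_
    norm_num [Finset.sum_range_succ, Nat.factorial]

end Pool.Agent.Chen
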