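import Pool.Agent.Work.Chen.CI2
import Pool.Agent.Work.MP_484fb8_nt.Cheb

/-!
# Chen's theorem in the primorial windows
-/

set_option autoImplicit false

namespace Pool.Agent.Chen

open Finset Filter Pool.Agent.Work.MP_484fb8_nt
open scoped Classical Topology

namespace PRIMproof

lemma nth_prime_upper (n : ℕ) : (Nat.nth Nat.Prime n : ℝ) ≤ 200 * ((n : ℝ) + 1) ^ 2 := by
  set p := Nat.nth Nat.Prime n with hp
  rcases Nat.lt_or_ge p 200 with h | h
  · have h1 : (p : ℝ) ≤ 200 := by exact_mod_cast h.le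
    have h2 : (1 : ℝ) ≤ ((n : ℝ) + 1) ^ 2 := one_le_pow₀ (by linarith [Nat.cast_nonneg (α := ℝ) n])
    linarith
  · have h1 := pi_lower p h
    have h2 : Nat.primeCounting p = n + 1 := by
      rw [hp, Nat.primeCounting]
      have h3 := Nat.primeCounting'_nth_eq n
      rw [Nat.primeCounting'] at h3 ⊢
      rw [Nat.count_succ, h3, if_pos (Nat.prime_nth_prime n)]
    rw [h2] at h1
    have hp0 : (0 : ℝ) < p := by exact_mod_cast (by omega : 0 < p)
    have hlog : 0 < Real.log p := Real.log_pos (by exact_mod_cast (by omega : 1 < p))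
    have h3 := log_le_two_sqrt p hp0
    have hs : 0 < √(p : ℝ) := Real.sqrt_pos.mpr hp0
    have hss : √(p : ℝ) * √p = p := Real.mul_self_sqrt hp0.le
    rw [div_le_iff₀ (by positivity)] at h1
    push_cast at h1
    have h4 : √(p : ℝ) ≤ 4 * ((n : ℝ) + 1) := by
      have h5 : √(p : ℝ) * √p ≤ (4 * ((n : ℝ) + 1)) * √p := by
        rw [hss]
        calc (p : ℝ) ≤ ((n : ℝ) + 1) * (2 * Real.log p) := h1
          _ ≤ ((n : ℝ) + 1) * (2 * (2 * √p)) := by gcongr
          _ = _ := by ring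
      exact le_of_mul_le_mul_right h5 hs
    calc (p : ℝ) = √(p : ℝ) * √p := hss.symm
      _ ≤ (4 * ((n : ℝ) + 1)) * (4 * ((n : ℝ) + 1)) := by gcongr
      _ = 16 * ((n : ℝ) + 1) ^ 2 := by ring
      _ ≤ 200 * ((n : ℝ) + 1) ^ 2 := by
          have : 0 ≤ ((n : ℝ) + 1) ^ 2 := by positivity
          linarith

lemma two_pow_le_prml (n : ℕ) : 2 ^ n ≤ prml n := by
  induction n with
  | zero => simp [prml_zero]
  | succ n ih =>
    rw [prml_succ, pow_succ]
    exact Nat.mul_le_mul ih (by have := nth_prime_ge n; omega)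

lemma n_le_log (n : ℕ) (hn : 1 ≤ n) : (n : ℝ) + 1 ≤ 4 * Real.log (prml n) := by
  have h1 : (n : ℝ) * Real.log 2 ≤ Real.log (prml n) := by
    rw [← Real.log_pow]
    apply Real.log_le_log (by positivity)
    exact_mod_cast two_pow_le_prml n
  have h2 := Real.log_two_gt_d9
  have h3 : (1 : ℝ) ≤ n := by exact_mod_cast hn
  nlinarith

end PRIMproof

open PRIMproof in
/-- Chen's theorem in the primorial windows. -/
theorem PRIM (hFIN : Stmt_FIN2) : ∃ c : ℝ, 0 < c ∧ ∃ n₀ : ℕ, ∀ n, n₀ ≤ n → ∀ m ∈ evensIn (n + 1),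
    c * (SS m * (prml n / (Real.log (prml n)) ^ 2)) ≤
      (((primesIn n).filter (fun p => m - p ∈ primorialInterval n ∪ primorialInterval (n + 1) ∧
        (m - p).primeFactorsList.length ≤ 2 ∧
        ∀ q ∈ (m - p).primeFactorsList, (m : ℝ) ^ (1 / 8 : ℝ) ≤ q)).card : ℝ) := by
  obtain ⟨c, hc, N₀, hN₀⟩ := hFIN 3
  have hev : ∀ᶠ L : ℝ in atTop, 30000 ≤ L := eventually_ge_atTop _
  have hlog : Tendsto (fun n : ℕ => Real.log (prml n)) atTop atTop := by
    have h1 : ∀ᶠ n : ℕ in atTop, ((n : ℝ) + 1) / 4 ≤ Real.log (prml n) := by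
      filter_upwards [eventually_ge_atTop 1] with n hn
      have := n_le_log n hn
      linarith
    refine tendsto_atTop_mono' _ h1 ?_
    exact (tendsto_natCast_atTop_atTop.atTop_add tendsto_const_nhds).atTop_div_const (by norm_num)
  obtain ⟨n₁, hn₁⟩ := eventually_atTop.1 (hlog.eventually hev)
  refine ⟨c / 32, by positivity, max n₁ (max N₀ 10), fun n hn m hm => ?_⟩
  simp only [max_le_iff] at hn
  obtain ⟨hnn, hnN, hn10⟩ := hn
  have hL := hn₁ n hnn
  set X := prml n with hX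
  have hXn : n + 1 ≤ X := le_prml n
  set L := Real.log X with hLdef
  have hXr : (11 : ℝ) ≤ X := by exact_mod_cast (by omega : 11 ≤ X)
  have hX0 : (0 : ℝ) < X := by linarith
  -- the interval
  have hm' := hm
  unfold evensIn primorialInterval at hm'
  rw [mem_filter, mem_Icc, Nat.add_sub_cancel, ← hX, prml_succ, ← hX] at hm'
  obtain ⟨⟨hm1, hm2⟩, hmev⟩ := hm'
  set Y := X / 4 with hY
  have hp1 := nth_prime_upper n
  have hnl := n_le_log n (by omega)
  rw [← hX, ← hLdef] at hnl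
  have hq : (Nat.nth Nat.Prime n : ℝ) ≤ 3200 * L ^ 2 := by
    calc (Nat.nth Nat.Prime n : ℝ) ≤ 200 * ((n : ℝ) + 1) ^ 2 := hp1
      _ ≤ 200 * (4 * L) ^ 2 := by gcongr
      _ = 3200 * L ^ 2 := by ring
  have hmr : (m : ℝ) ≤ X * (3200 * L ^ 2) + 1 := by
    have h1 : (m : ℝ) ≤ X * (Nat.nth Nat.Prime n : ℝ) + 1 := by exact_mod_cast hm2
    have h2 : (X : ℝ) * (Nat.nth Nat.Prime n : ℝ) ≤ X * (3200 * L ^ 2) :=
      mul_le_mul_of_nonneg_left hq hX0.le
    linarith
  have hY8 : (X : ℝ) / 8 ≤ Y := by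
    have h1 : X < 4 * (Y + 1) := by omega
    have h2 : (X : ℝ) ≤ 4 * Y + 3 := by exact_mod_cast (by omega : X ≤ 4 * Y + 3)
    have h3 : (X : ℝ) ≤ 8 * Y := by exact_mod_cast (by omega : X ≤ 8 * Y)
    linarith
  have hmX : (X : ℝ) ≤ m := by exact_mod_cast (by omega : X ≤ m)
  have hlm : L ≤ Real.log m := Real.log_le_log hX0 hmX
  have hL0 : 0 < L := by linarith
  have hreg : Reg 3 m Y := by
    refine ⟨hmev, by omega, ?_⟩
    have h1 : (X : ℝ) / 8 * L ^ 3 ≤ Y * (Real.log m) ^ 3 := by gcongr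
    have h2 : (X : ℝ) * (3200 * L ^ 2) + 1 ≤ X / 8 * L ^ 3 := by
      have h3 : (1 : ℝ) ≤ X * L ^ 2 := by
        have : (1 : ℝ) ≤ L ^ 2 := one_le_pow₀ (by linarith)
        nlinarith
      have h4 : (X : ℝ) * L ^ 2 * 30000 ≤ X * L ^ 2 * L :=
        mul_le_mul_of_nonneg_left hL (by positivity)
      nlinarith
    linarith
  have hmN : N₀ ≤ m := by omega
  have hfin := hN₀ m hmN Y hreg
  -- log m ≤ 2 log X
  have hlm2 : Real.log m ≤ 2 * L := by
    have hXexp : (3200 * L ^ 2) + 1 ≤ X := by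
      have h1 : L ^ 3 / 6 ≤ Real.exp L := by
        have := Real.pow_div_factorial_le_exp L hL0.le 3
        norm_num [Nat.factorial] at this
        exact this
      rw [hLdef, Real.exp_log hX0, ← hLdef] at h1
      have h2 : L ^ 2 * 30000 ≤ L ^ 2 * L := mul_le_mul_of_nonneg_left hL (by positivity)
      have h3 : (1 : ℝ) ≤ L ^ 2 := one_le_pow₀ (by linarith)
      nlinarith
    have h1 : (m : ℝ) ≤ X ^ 2 := by
      have : (X : ℝ) * (3200 * L ^ 2) + 1 ≤ X * (3200 * L ^ 2 + 1) := by nlinarith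
      have h2 : (X : ℝ) * (3200 * L ^ 2 + 1) ≤ X * X := mul_le_mul_of_nonneg_left hXexp hX0.le
      nlinarith
    calc Real.log m ≤ Real.log ((X : ℝ) ^ 2) := Real.log_le_log (by linarith) h1
      _ = 2 * L := by rw [Real.log_pow, hLdef]; norm_num
  have hSS0 : 0 ≤ SS m := by
    unfold SS
    refine prod_nonneg fun p hp => ?_
    rw [mem_filter] at hp
    have h1 : (3 : ℝ) ≤ p := by exact_mod_cast hp.2
    apply div_nonneg <;> linarith
  have hlmpos : 0 < Real.log m := by linarith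
  have hlow : c / 32 * (SS m * (X / L ^ 2)) ≤ c * (SS m * (Y / (Real.log m) ^ 2)) := by
    have h1 : (X : ℝ) / L ^ 2 ≤ 32 * (Y / (Real.log m) ^ 2) := by
      rw [div_le_iff₀ (by positivity), mul_div_assoc', div_mul_eq_mul_div,
        le_div_iff₀ (by positivity)]
      have h2 : (Real.log m) ^ 2 ≤ (2 * L) ^ 2 := by gcongr
      have h3 : (X : ℝ) * (Real.log m) ^ 2 ≤ X * (2 * L) ^ 2 :=
        mul_le_mul_of_nonneg_left h2 hX0.le
      have h4 : 0 ≤ L ^ 2 := by positivity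
      nlinarith
    have h5 : SS m * (X / L ^ 2) ≤ SS m * (32 * (Y / (Real.log m) ^ 2)) :=
      mul_le_mul_of_nonneg_left h1 hSS0
    have h6 := mul_le_mul_of_nonneg_left h5 (by positivity : 0 ≤ c / 32)
    calc c / 32 * (SS m * (X / L ^ 2)) ≤ _ := h6
      _ = _ := by ring
  refine hlow.trans (hfin.trans ?_)
  -- the inclusion
  have hsub : (Pr Y).filter (fun p => (m - p).primeFactorsList.length ≤ 2 ∧
        ∀ q ∈ (m - p).primeFactorsList, (m : ℝ) ^ (1 / 8 : ℝ) ≤ q) ⊆
      (primesIn n).filter (fun p => m - p ∈ primorialInterval n ∪ primorialInterval (n + 1) ∧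
        (m - p).primeFactorsList.length ≤ 2 ∧
        ∀ q ∈ (m - p).primeFactorsList, (m : ℝ) ^ (1 / 8 : ℝ) ≤ q) := by
    obtain ⟨k, rfl⟩ : ∃ k, n = k + 1 := ⟨n - 1, by omega⟩
    have hK : 8 * prml k ≤ X := by
      rw [hX, prml_succ, mul_comm 8]
      exact Nat.mul_le_mul_left _ (by have := nth_prime_ge k; omega)
    intro p hp
    unfold Pr at hp
    rw [mem_filter, mem_filter, mem_Ioc] at hp
    obtain ⟨⟨⟨hp1, hp2⟩, hpp⟩, hpl⟩ := hp
    have h8 : 8 ≤ X := by omega
    have hk0 := prml_pos k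
    rw [mem_filter]
    refine ⟨?_, ?_, hpl⟩
    · unfold primesIn primorialInterval
      rw [mem_filter, mem_Icc, Nat.add_sub_cancel, ← hX]
      exact ⟨⟨by omega, by omega⟩, hpp⟩
    · unfold primorialInterval
      rw [mem_union, mem_Icc, mem_Icc, Nat.add_sub_cancel, Nat.add_sub_cancel, ← hX,
        prml_succ (k + 1), ← hX]
      by_cases h : m - p ≤ X + 1
      · left
        constructor <;> omega
      · right
        constructor <;> omega
  unfold Cnt2
  exact_mod_cast card_le_card hsub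

end Pool.Agent.Chen
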