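import Pool.Agent.Work.Chen.Interface
import Pool.Agent.Work.MP_b0c12c_nt_helper41.Mert

/-! Chen: block PS, prime sums against integrals for monotone functions (helper59). -/

set_option autoImplicit false

namespace Pool.Agent.Chen.PSw

open Finset
open MeasureTheory

theorem floor_facts (y : ℝ) (hy : 2 ≤ y) : 2 ≤ ⌊y⌋₊ ∧ ((⌊y⌋₊ : ℕ) : ℝ) ≤ y ∧
    y < ((⌊y⌋₊ : ℕ) : ℝ) + 1 ∧ y ≤ 2 * ((⌊y⌋₊ : ℕ) : ℝ) := by
  have h1 : 2 ≤ ⌊y⌋₊ := Nat.le_floor (by exact_mod_cast hy)
  have h2 : ((⌊y⌋₊ : ℕ) : ℝ) ≤ y := Nat.floor_le (by linarith)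
  have h3 : y < ((⌊y⌋₊ : ℕ) : ℝ) + 1 := Nat.lt_floor_add_one y
  have h4 : (2 : ℝ) ≤ ((⌊y⌋₊ : ℕ) : ℝ) := by exact_mod_cast h1
  exact ⟨h1, h2, h3, by linarith⟩

theorem loglog_floor (y : ℝ) (hy : 2 ≤ y) :
    |Real.log (Real.log ((⌊y⌋₊ : ℕ) : ℝ)) - Real.log (Real.log y)| ≤ 3 / Real.log y := by
  obtain ⟨h1, h2, h3, h4⟩ := floor_facts y hy
  set k : ℝ := ((⌊y⌋₊ : ℕ) : ℝ) with hk
  have hk2 : (2 : ℝ) ≤ k := by rw [hk]; exact_mod_cast h1
  have hlk : 0 < Real.log k := Real.log_pos (by linarith)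
  have hly : 0 < Real.log y := Real.log_pos (by linarith)
  have hkl : Real.log 2 ≤ Real.log k := Real.log_le_log (by norm_num) hk2
  have hl2 := Real.log_two_gt_d9
  have hle : Real.log k ≤ Real.log y := Real.log_le_log (by linarith) h2
  have e1 : Real.log (Real.log k) ≤ Real.log (Real.log y) := Real.log_le_log hlk hle
  rw [abs_sub_comm, abs_of_nonneg (by linarith)]
  have e2 : Real.log (Real.log y) - Real.log (Real.log k) ≤ Real.log y / Real.log k - 1 := by
    rw [← Real.log_div hly.ne' hlk.ne']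
    exact Real.log_le_sub_one_of_pos (by positivity)
  have e3 : Real.log y - Real.log k ≤ y / k - 1 := by
    rw [← Real.log_div (by linarith) (by linarith)]
    exact Real.log_le_sub_one_of_pos (by positivity)
  have e4 : y / k - 1 ≤ 1 / k := by
    rw [div_sub_one (by linarith), div_le_div_iff_of_pos_right (by linarith)]
    linarith
  have e5 : Real.log y ≤ y := (Real.log_le_sub_one_of_pos (by linarith)).trans (by linarith)
  have e6 : Real.log y / Real.log k - 1 ≤ (1 / k) / Real.log k := by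
    rw [div_sub_one hlk.ne']
    exact div_le_div_of_nonneg_right (by linarith) hlk.le
  have e7 : (1 / k) / Real.log k ≤ 3 / Real.log y := by
    rw [div_div, div_le_div_iff₀ (by positivity) hly]
    have : (3 : ℝ) * (k * Real.log k) ≥ 3 * (k * Real.log 2) := by
      apply mul_le_mul_of_nonneg_left _ (by norm_num)
      exact mul_le_mul_of_nonneg_left hkl (by linarith)
    nlinarith
  linarith

theorem mert_real : ∃ C : ℝ, 0 < C ∧ ∀ y y' : ℝ, 2 ≤ y → y ≤ y' →
    |∑ p ∈ (Ioc ⌊y⌋₊ ⌊y'⌋₊).filter Nat.Prime, 1 / (p : ℝ) -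
      (Real.log (Real.log y') - Real.log (Real.log y))| ≤ C / Real.log y := by
  obtain ⟨C, hC, h⟩ := Pool.Agent.Work.MP_b0c12c_nt_helper41.mertens2
  refine ⟨2 * C + 6, by positivity, ?_⟩
  intro y y' hy hyy
  obtain ⟨h1, h2, h3, h4⟩ := floor_facts y hy
  have hm := h ⌊y⌋₊ ⌊y'⌋₊ h1 (Nat.floor_mono hyy)
  have hl1 := loglog_floor y hy
  have hl2 := loglog_floor y' (by linarith)
  have hly : 0 < Real.log y := Real.log_pos (by linarith)
  have hlyy : Real.log y ≤ Real.log y' := Real.log_le_log (by linarith) hyy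
  have hk2 : (2 : ℝ) ≤ ((⌊y⌋₊ : ℕ) : ℝ) := by exact_mod_cast h1
  have hlk : 0 < Real.log ((⌊y⌋₊ : ℕ) : ℝ) := Real.log_pos (by linarith)
  have e1 : C / Real.log ((⌊y⌋₊ : ℕ) : ℝ) ≤ 2 * C / Real.log y := by
    rw [div_le_div_iff₀ hlk hly]
    have : Real.log y ≤ 2 * Real.log ((⌊y⌋₊ : ℕ) : ℝ) := by
      rw [← Real.log_rpow (by linarith)]
      apply Real.log_le_log (by linarith)
      have : ((⌊y⌋₊ : ℕ) : ℝ) ^ (2 : ℝ) = ((⌊y⌋₊ : ℕ) : ℝ) * ((⌊y⌋₊ : ℕ) : ℝ) := by
        rw [Real.rpow_two, sq]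
      rw [this]
      nlinarith
    nlinarith
  have e2 : 3 / Real.log y' ≤ 3 / Real.log y := by
    apply div_le_div_of_nonneg_left (by norm_num) hly hlyy
  have e3 : (2 * C + 6) / Real.log y = 2 * C / Real.log y + 3 / Real.log y + 3 / Real.log y := by
    ring
  rw [e3]
  rw [abs_le] at hm hl1 hl2 ⊢
  constructor <;> linarith

theorem seg : ∃ C : ℝ, 0 < C ∧ ∀ (x c d : ℝ), 1 < x → 0 < c → c ≤ d → 2 ≤ x ^ c →
    ∀ P' : Finset ℕ, (∀ p ∈ P', p.Prime ∧ x ^ c ≤ (p : ℝ) ∧ (p : ℝ) ≤ x ^ d) →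
    (∀ p : ℕ, p.Prime → x ^ c < (p : ℝ) → (p : ℝ) < x ^ d → p ∈ P') →
    |∑ p ∈ P', 1 / (p : ℝ) - Real.log (d / c)| ≤ C / (c * Real.log x) := by
  obtain ⟨C, hC, h⟩ := mert_real
  refine ⟨C + 2, by positivity, ?_⟩
  intro x c d hx hc hcd h2 P' hP1 hP2
  have hx0 : 0 < x := by linarith
  have hlx : 0 < Real.log x := Real.log_pos hx
  have hd : 0 < d := by linarith
  have hcdx : x ^ c ≤ x ^ d := Real.rpow_le_rpow_of_exponent_le hx.le hcd
  have hm := h (x ^ c) (x ^ d) h2 hcdx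
  rw [Real.log_rpow hx0, Real.log_rpow hx0] at hm
  have e0 : Real.log (d * Real.log x) - Real.log (c * Real.log x) = Real.log (d / c) := by
    rw [Real.log_mul hd.ne' hlx.ne', Real.log_mul hc.ne' hlx.ne', Real.log_div hd.ne' hc.ne']
    ring
  rw [e0] at hm
  set Q := (Ioc ⌊x ^ c⌋₊ ⌊x ^ d⌋₊).filter Nat.Prime with hQ
  have hxc : 0 < x ^ c := by linarith
  have hinv : ∀ y : ℝ, x ^ c ≤ y → 1 / ((⌊y⌋₊ : ℕ) : ℝ) ≤ 2 / (c * Real.log x) := by
    intro y hy
    obtain ⟨_, _, _, h4⟩ := floor_facts y (by linarith)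
    have h5 : c * Real.log x ≤ x ^ c := by
      rw [← Real.log_rpow hx0]
      exact (Real.log_le_sub_one_of_pos hxc).trans (by linarith)
    rw [div_le_div_iff₀ (by linarith) (by positivity)]
    linarith
  have u1 : ∑ p ∈ P', 1 / (p : ℝ) ≤ ∑ p ∈ Q, 1 / (p : ℝ) + 2 / (c * Real.log x) := by
    have hsub : P'.erase ⌊x ^ c⌋₊ ⊆ Q := by
      intro p hp
      rw [mem_erase] at hp
      obtain ⟨hpr, hp3, hp4⟩ := hP1 p hp.2
      rw [hQ, mem_filter, mem_Ioc]
      refine ⟨⟨?_, Nat.le_floor hp4⟩, hpr⟩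
      rw [Nat.floor_lt hxc.le]
      rcases lt_or_eq_of_le hp3 with h' | h'
      · exact h'
      · exfalso; apply hp.1
        rw [h', Nat.floor_natCast]
    have h5 : ∑ p ∈ P'.erase ⌊x ^ c⌋₊, 1 / (p : ℝ) ≤ ∑ p ∈ Q, 1 / (p : ℝ) :=
      Finset.sum_le_sum_of_subset_of_nonneg hsub fun _ _ _ => by positivity
    have h6 : ∑ p ∈ P', 1 / (p : ℝ) ≤
        ∑ p ∈ P'.erase ⌊x ^ c⌋₊, 1 / (p : ℝ) + 1 / ((⌊x ^ c⌋₊ : ℕ) : ℝ) := by
      by_cases hmem : ⌊x ^ c⌋₊ ∈ P'
      · rw [Finset.sum_erase_eq_sub hmem]; linarith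
      · rw [Finset.erase_eq_of_notMem hmem]
        have : (0 : ℝ) ≤ 1 / ((⌊x ^ c⌋₊ : ℕ) : ℝ) := by positivity
        linarith
    have h7 := hinv (x ^ c) le_rfl
    linarith
  have u2 : ∑ p ∈ Q, 1 / (p : ℝ) ≤ ∑ p ∈ P', 1 / (p : ℝ) + 2 / (c * Real.log x) := by
    have hsub : Q.erase ⌊x ^ d⌋₊ ⊆ P' := by
      intro p hp
      rw [mem_erase, hQ, mem_filter, mem_Ioc] at hp
      obtain ⟨hne, ⟨h5, h6⟩, hpr⟩ := hp
      apply hP2 p hpr
      · exact (Nat.floor_lt hxc.le).1 h5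
      · have h7 : p < ⌊x ^ d⌋₊ := lt_of_le_of_ne h6 hne
        have h8 : ((⌊x ^ d⌋₊ : ℕ) : ℝ) ≤ x ^ d := Nat.floor_le (by linarith)
        have h9 : (p : ℝ) < ((⌊x ^ d⌋₊ : ℕ) : ℝ) := by exact_mod_cast h7
        linarith
    have h5 : ∑ p ∈ Q.erase ⌊x ^ d⌋₊, 1 / (p : ℝ) ≤ ∑ p ∈ P', 1 / (p : ℝ) :=
      Finset.sum_le_sum_of_subset_of_nonneg hsub fun _ _ _ => by positivity
    have h6 : ∑ p ∈ Q, 1 / (p : ℝ) ≤
        ∑ p ∈ Q.erase ⌊x ^ d⌋₊, 1 / (p : ℝ) + 1 / ((⌊x ^ d⌋₊ : ℕ) : ℝ) := by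
      by_cases hmem : ⌊x ^ d⌋₊ ∈ Q
      · rw [Finset.sum_erase_eq_sub hmem]; linarith
      · rw [Finset.erase_eq_of_notMem hmem]
        have : (0 : ℝ) ≤ 1 / ((⌊x ^ d⌋₊ : ℕ) : ℝ) := by positivity
        linarith
    have h7 := hinv (x ^ d) hcdx
    linarith
  have e1 : (C + 2) / (c * Real.log x) = C / (c * Real.log x) + 2 / (c * Real.log x) := by ring
  rw [e1]
  rw [abs_le] at hm ⊢
  constructor <;> linarith

theorem pow_le_iff (x c : ℝ) (hx : 1 < x) (p : ℕ) (hp : 0 < p) :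
    (x ^ c ≤ (p : ℝ) ↔ c ≤ Real.log p / Real.log x) ∧
    ((p : ℝ) < x ^ c ↔ Real.log p / Real.log x < c) := by
  have hx0 : 0 < x := by linarith
  have hlx : 0 < Real.log x := Real.log_pos hx
  have hp0 : (0 : ℝ) < p := by exact_mod_cast hp
  have h1 : x ^ c ≤ (p : ℝ) ↔ c ≤ Real.log p / Real.log x := by
    rw [le_div_iff₀ hlx, ← Real.log_rpow hx0]
    exact (Real.log_le_log_iff (Real.rpow_pos_of_pos hx0 c) hp0).symm
  refine ⟨h1, ?_⟩
  rw [← not_le, ← not_le, h1]

theorem pow_lt_iff (x c : ℝ) (hx : 1 < x) (p : ℕ) (hp : 0 < p) :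
    (x ^ c < (p : ℝ) ↔ c < Real.log p / Real.log x) ∧
    ((p : ℝ) ≤ x ^ c ↔ Real.log p / Real.log x ≤ c) := by
  have hx0 : 0 < x := by linarith
  have hlx : 0 < Real.log x := Real.log_pos hx
  have hp0 : (0 : ℝ) < p := by exact_mod_cast hp
  have h1 : (p : ℝ) ≤ x ^ c ↔ Real.log p / Real.log x ≤ c := by
    rw [div_le_iff₀ hlx, ← Real.log_rpow hx0]
    exact (Real.log_le_log_iff hp0 (Real.rpow_pos_of_pos hx0 c)).symm
  refine ⟨?_, h1⟩
  rw [← not_le, ← not_le, h1]

/-- integral of an indicator of an order connected set -/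
theorem int_seg (a b : ℝ) (ha : 0 < a) (I : Set ℝ) (hI : I ⊆ Set.Icc a b)
    (hne : I.Nonempty) (hoc : I.OrdConnected) :
    ∫ t in a..b, I.indicator (fun t => 1 / t) t = Real.log (sSup I / sInf I) := by
  obtain ⟨t0, ht0⟩ := hne
  have hbb : BddBelow I := ⟨a, fun t ht => (hI ht).1⟩
  have hba : BddAbove I := ⟨b, fun t ht => (hI ht).2⟩
  set c := sInf I with hc
  set d := sSup I with hd
  have hac : a ≤ c := le_csInf ⟨t0, ht0⟩ fun t ht => (hI ht).1
  have hdb : d ≤ b := csSup_le ⟨t0, ht0⟩ fun t ht => (hI ht).2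
  have hcd : c ≤ d := (csInf_le hbb ht0).trans (le_csSup hba ht0)
  have hab : a ≤ b := hac.trans (hcd.trans hdb)
  have hmeas : MeasurableSet I := hoc.measurableSet
  rw [intervalIntegral.integral_of_le hab, MeasureTheory.setIntegral_indicator hmeas]
  have hs1 : Set.Ioo c d ⊆ Set.Ioc a b ∩ I := by
    intro t ht
    refine ⟨⟨lt_of_le_of_lt hac ht.1, ht.2.le.trans hdb⟩, ?_⟩
    obtain ⟨s, hs, hst⟩ := exists_lt_of_csInf_lt ⟨t0, ht0⟩ ht.1
    obtain ⟨r, hr, htr⟩ := exists_lt_of_lt_csSup ⟨t0, ht0⟩ ht.2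
    exact hoc.out hs hr ⟨hst.le, htr.le⟩
  have hs2 : Set.Ioc a b ∩ I ⊆ Set.Icc c d := by
    intro t ht
    exact ⟨csInf_le hbb ht.2, le_csSup hba ht.2⟩
  have hae : (Set.Ioc a b ∩ I : Set ℝ) =ᵐ[volume] (Set.Ioc c d : Set ℝ) := by
    apply Filter.EventuallyLE.antisymm
    · exact (LE.le.eventuallyLE hs2).trans (Ioc_ae_eq_Icc).symm.le
    · exact (Ioo_ae_eq_Ioc).symm.le.trans (LE.le.eventuallyLE hs1)
  rw [MeasureTheory.setIntegral_congr_set hae, ← intervalIntegral.integral_of_le hcd,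
    integral_one_div_of_pos (by linarith) (by linarith)]

end Pool.Agent.Chen.PSw

namespace Pool.Agent.Chen
open Finset PSw MeasureTheory
open scoped Classical

theorem PSblock : Stmt_PS := by
  obtain ⟨C, hC, hseg⟩ := seg
  refine ⟨C, hC, ?_⟩
  intro x a b M hx ha hab h2 φ hmono hφ
  have hx0 : 0 < x := by linarith
  have hlx : 0 < Real.log x := Real.log_pos hx
  have hal : 0 < a * Real.log x := by positivity
  have haI : a ∈ Set.Icc a b := ⟨le_rfl, hab⟩
  have hM0 : 0 ≤ M := (hφ a haI).1.trans (hφ a haI).2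
  set P := (range ⌈x ^ b⌉₊).filter (fun p : ℕ => p.Prime ∧ x ^ a ≤ (p : ℝ)) with hP
  set u : ℕ → ℝ := fun p => Real.log p / Real.log x with hu
  have hPm : ∀ p, p ∈ P ↔ p.Prime ∧ a ≤ u p ∧ u p < b := by
    intro p
    rw [hP, mem_filter, mem_range, Nat.lt_ceil]
    constructor
    · rintro ⟨h1, h3, h4⟩
      exact ⟨h3, (pow_le_iff x a hx p h3.pos).1.1 h4, (pow_le_iff x b hx p h3.pos).2.1 h1⟩
    · rintro ⟨h3, h1, h4⟩
      exact ⟨(pow_le_iff x b hx p h3.pos).2.2 h4, h3, (pow_le_iff x a hx p h3.pos).1.2 h1⟩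
  have huI : ∀ p ∈ P, u p ∈ Set.Icc a b := fun p hp =>
    ⟨((hPm p).1 hp).2.1, ((hPm p).1 hp).2.2.le⟩
  -- intervals
  have hint : ∀ I : Set ℝ, I ⊆ Set.Icc a b → I.OrdConnected →
      |∑ p ∈ P.filter (fun p => u p ∈ I), 1 / (p : ℝ) -
        ∫ t in a..b, I.indicator (fun t => 1 / t) t| ≤ C / (a * Real.log x) := by
    intro I hI hoc
    rcases I.eq_empty_or_nonempty with rfl | hne
    · simp only [Set.mem_empty_iff_false, filter_false, sum_empty, Set.indicator_empty,
        intervalIntegral.integral_zero, sub_zero, abs_zero]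
      positivity
    rw [int_seg a b ha I hI hne hoc]
    obtain ⟨t0, ht0⟩ := hne
    have hbb : BddBelow I := ⟨a, fun t ht => (hI ht).1⟩
    have hba : BddAbove I := ⟨b, fun t ht => (hI ht).2⟩
    have hac : a ≤ sInf I := le_csInf ⟨t0, ht0⟩ fun t ht => (hI ht).1
    have hdb : sSup I ≤ b := csSup_le ⟨t0, ht0⟩ fun t ht => (hI ht).2
    have hcd : sInf I ≤ sSup I := (csInf_le hbb ht0).trans (le_csSup hba ht0)
    have hxac : x ^ a ≤ x ^ (sInf I) := Real.rpow_le_rpow_of_exponent_le hx.le hac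
    have h := hseg x (sInf I) (sSup I) hx (by linarith) hcd (by linarith)
      (P.filter (fun p => u p ∈ I)) (by
        intro p hp
        rw [mem_filter] at hp
        have hpp := ((hPm p).1 hp.1).1
        exact ⟨hpp, (pow_le_iff x _ hx p hpp.pos).1.2 (csInf_le hbb hp.2),
          (pow_lt_iff x _ hx p hpp.pos).2.2 (le_csSup hba hp.2)⟩) (by
        intro p hpp h3 h4
        have h5 := (pow_lt_iff x _ hx p hpp.pos).1.1 h3
        have h6 := (pow_le_iff x _ hx p hpp.pos).2.1 h4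
        rw [mem_filter]
        refine ⟨(hPm p).2 ⟨hpp, hac.trans h5.le, lt_of_lt_of_le h6 hdb⟩, ?_⟩
        obtain ⟨s, hs, hst⟩ := exists_lt_of_csInf_lt ⟨t0, ht0⟩ h5
        obtain ⟨r, hr, htr⟩ := exists_lt_of_lt_csSup ⟨t0, ht0⟩ h6
        exact hoc.out hs hr ⟨hst.le, htr.le⟩)
    refine h.trans ?_
    apply div_le_div_of_nonneg_left hC.le hal
    exact mul_le_mul_of_nonneg_right hac hlx.le
  rcases eq_or_lt_of_le hM0 with hM | hM
  · -- M = 0
    have hφ0 : ∀ t ∈ Set.Icc a b, φ t = 0 := by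
      intro t ht
      have := hφ t ht
      rw [← hM] at this
      exact le_antisymm this.2 this.1
    have e1 : ∑ p ∈ P, φ (Real.log p / Real.log x) / p = 0 := by
      apply Finset.sum_eq_zero
      intro p hp
      rw [hφ0 _ (huI p hp)]; simp
    have e2 : ∫ t in a..b, φ t / t = 0 := by
      have : ∫ t in a..b, φ t / t = ∫ t in a..b, (0 : ℝ) := by
        apply intervalIntegral.integral_congr
        intro t ht
        rw [Set.uIcc_of_le hab] at ht
        simp only [hφ0 t ht, zero_div]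
      rw [this]; simp
    rw [e1, e2, ← hM]; simp
  -- M > 0
  have hoc : ∀ lam : ℝ, ({t | t ∈ Set.Icc a b ∧ lam ≤ φ t} : Set ℝ).OrdConnected := by
    intro lam
    constructor
    rintro s ⟨hs1, hs2⟩ t ⟨ht1, ht2⟩ r ⟨hr1, hr2⟩
    have hr : r ∈ Set.Icc a b := ⟨hs1.1.trans hr1, hr2.trans ht1.2⟩
    refine ⟨hr, ?_⟩
    rcases hmono with h | h
    · exact hs2.trans (h hs1 hr hr1)
    · exact ht2.trans (h hr ht1 hr2)
  have hinvint : IntervalIntegrable (fun t : ℝ => 1 / t) volume a b := by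
    apply ContinuousOn.intervalIntegrable
    rw [Set.uIcc_of_le hab]
    apply ContinuousOn.div continuousOn_const continuousOn_id
    intro t ht
    have : 0 < t := lt_of_lt_of_le ha ht.1
    exact this.ne'
  have hφint : IntervalIntegrable (fun t : ℝ => φ t / t) volume a b := by
    have h1 : IntervalIntegrable φ volume a b := by
      rcases hmono with h | h
      · apply MonotoneOn.intervalIntegrable; rwa [Set.uIcc_of_le hab]
      · apply AntitoneOn.intervalIntegrable; rwa [Set.uIcc_of_le hab]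
    have h3 : ContinuousOn (fun t : ℝ => 1 / t) (Set.uIcc a b) := by
      rw [Set.uIcc_of_le hab]
      apply ContinuousOn.div continuousOn_const continuousOn_id
      intro t ht
      have : 0 < t := lt_of_lt_of_le ha ht.1
      exact this.ne'
    have h4 := h1.mul_continuousOn h3
    exact h4.congr fun t _ => by simp only [mul_one_div]
  set T : ℝ := ∑ p ∈ P, 1 / (p : ℝ) + ∫ t in a..b, 1 / t with hT
  have hI0 : 0 ≤ ∫ t in a..b, (1 : ℝ) / t := by
    apply intervalIntegral.integral_nonneg hab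
    intro t ht
    have : 0 < t := lt_of_lt_of_le ha ht.1
    positivity
  have hT0 : 0 ≤ T := by
    have : (0 : ℝ) ≤ ∑ p ∈ P, 1 / (p : ℝ) := Finset.sum_nonneg fun _ _ => by positivity
    linarith
  have key : ∀ K : ℕ, 1 ≤ K → |∑ p ∈ P, φ (Real.log p / Real.log x) / p - ∫ t in a..b, φ t / t| ≤
      C * M / (a * Real.log x) + M / K * T := by
    intro K hK
    have hK0 : (0 : ℝ) < K := by exact_mod_cast hK
    obtain ⟨II, hII⟩ : ∃ II : ℕ → Set ℝ, ∀ j : ℕ,
        II j = {t | t ∈ Set.Icc a b ∧ (j : ℝ) * M / K ≤ φ t} := ⟨_, fun _ => rfl⟩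
    set ψ : ℝ → ℝ := fun t => M / K * ∑ j ∈ Icc 1 K, (II j).indicator (fun _ => (1 : ℝ)) t with hψ
    have hψ1 : ∀ t ∈ Set.Icc a b, ψ t ≤ φ t ∧ φ t ≤ ψ t + M / K := by
      intro t ht
      obtain ⟨h1, h3⟩ := hφ t ht
      have e1 : ∑ j ∈ Icc 1 K, (II j).indicator (fun _ => (1 : ℝ)) t =
          ((⌊φ t * K / M⌋₊ : ℕ) : ℝ) := by
        have e2 : ∀ j ∈ Icc 1 K, (II j).indicator (fun _ => (1 : ℝ)) t =
            if j ≤ ⌊φ t * K / M⌋₊ then 1 else 0 := by
          intro j hj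
          rw [Set.indicator_apply]
          apply if_congr _ rfl rfl
          rw [hII, Nat.le_floor_iff (by positivity), le_div_iff₀ hM]
          simp only [Set.mem_ofPred_eq]
          constructor
          · rintro ⟨_, h5⟩
            rwa [div_le_iff₀ hK0] at h5
          · intro h5
            exact ⟨ht, by rwa [div_le_iff₀ hK0]⟩
        rw [Finset.sum_congr rfl e2, ← Finset.sum_filter, Finset.sum_const, nsmul_eq_mul, mul_one]
        have e3 : (Icc 1 K).filter (fun j => j ≤ ⌊φ t * K / M⌋₊) = Icc 1 ⌊φ t * K / M⌋₊ := by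
          ext j
          simp only [mem_filter, mem_Icc]
          constructor
          · rintro ⟨⟨h5, _⟩, h6⟩; exact ⟨h5, h6⟩
          · rintro ⟨h5, h6⟩
            refine ⟨⟨h5, h6.trans ?_⟩, h6⟩
            apply Nat.floor_le_of_le
            rw [div_le_iff₀ hM]
            nlinarith
        rw [e3, Nat.card_Icc]; simp
      have e4 : ((⌊φ t * K / M⌋₊ : ℕ) : ℝ) ≤ φ t * K / M := Nat.floor_le (by positivity)
      have e5 : φ t * K / M < ((⌊φ t * K / M⌋₊ : ℕ) : ℝ) + 1 := Nat.lt_floor_add_one _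
      have e6 : M / K * (φ t * K / M) = φ t := by field_simp
      have hMK : 0 < M / K := by positivity
      simp only [hψ, e1]
      constructor
      · calc M / K * ((⌊φ t * K / M⌋₊ : ℕ) : ℝ) ≤ M / K * (φ t * K / M) :=
              mul_le_mul_of_nonneg_left e4 hMK.le
          _ = φ t := e6
      · calc φ t = M / K * (φ t * K / M) := e6.symm
          _ ≤ M / K * (((⌊φ t * K / M⌋₊ : ℕ) : ℝ) + 1) :=
              mul_le_mul_of_nonneg_left e5.le hMK.le
          _ = _ := by ring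
    -- sums
    have s1 : ∑ p ∈ P, ψ (u p) / p = M / K * ∑ j ∈ Icc 1 K,
        ∑ p ∈ P.filter (fun p => u p ∈ II j), 1 / (p : ℝ) := by
      have : ∀ p ∈ P, ψ (u p) / p = ∑ j ∈ Icc 1 K, M / K *
          (if u p ∈ II j then 1 / (p : ℝ) else 0) := by
        intro p _
        simp only [hψ]
        rw [← Finset.mul_sum, mul_div_assoc, Finset.sum_div]
        congr 1
        apply Finset.sum_congr rfl
        intro j _
        rw [Set.indicator_apply]
        split_ifs <;> simp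
      rw [Finset.sum_congr rfl this, Finset.sum_comm, Finset.mul_sum]
      apply Finset.sum_congr rfl
      intro j _
      rw [← Finset.mul_sum, Finset.sum_filter (s := P) (p := fun p => u p ∈ II j)]
    have hindint : ∀ j, IntervalIntegrable (fun t => (II j).indicator (fun t => 1 / t) t)
        volume a b := by
      intro j
      rw [intervalIntegrable_iff_integrableOn_Ioc_of_le hab] at hinvint ⊢
      exact hinvint.indicator (by rw [hII]; exact (hoc _).measurableSet)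
    have s2 : ∫ t in a..b, ψ t / t = M / K * ∑ j ∈ Icc 1 K,
        ∫ t in a..b, (II j).indicator (fun t => 1 / t) t := by
      rw [← intervalIntegral.integral_finsetSum (fun j _ => hindint j),
        ← intervalIntegral.integral_const_mul]
      apply intervalIntegral.integral_congr
      intro t _
      simp only [hψ]
      rw [mul_div_assoc, Finset.sum_div]
      congr 1
      apply Finset.sum_congr rfl
      intro j _
      rw [Set.indicator_apply, Set.indicator_apply]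
      split_ifs <;> simp
    have hψint : IntervalIntegrable (fun t => ψ t / t) volume a b := by
      have h3 : IntervalIntegrable (fun t => M / K * ∑ j ∈ Icc 1 K,
          (II j).indicator (fun t => 1 / t) t) volume a b := by
        apply IntervalIntegrable.const_mul
        have := IntervalIntegrable.sum (Icc 1 K) (fun j _ => hindint j)
        exact this.congr fun t _ => by simp only [Finset.sum_apply]
      refine h3.congr fun t _ => ?_
      simp only [hψ]
      rw [mul_div_assoc, Finset.sum_div]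
      congr 1
      apply Finset.sum_congr rfl
      intro j _
      rw [Set.indicator_apply, Set.indicator_apply]
      split_ifs <;> simp
    have m1 : |∑ p ∈ P, ψ (u p) / p - ∫ t in a..b, ψ t / t| ≤ C * M / (a * Real.log x) := by
      rw [s1, s2, ← mul_sub, ← Finset.sum_sub_distrib, abs_mul, abs_of_pos (by positivity)]
      have h3 : |∑ j ∈ Icc 1 K, (∑ p ∈ P.filter (fun p => u p ∈ II j), 1 / (p : ℝ) -
          ∫ t in a..b, (II j).indicator (fun t => 1 / t) t)| ≤
          ∑ j ∈ Icc 1 K, C / (a * Real.log x) := by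
        refine (Finset.abs_sum_le_sum_abs _ _).trans (Finset.sum_le_sum fun j _ => ?_)
        exact hint (II j) (by rw [hII]; exact fun t ht => ht.1) (by rw [hII]; exact hoc _)
      rw [Finset.sum_const, Nat.card_Icc, nsmul_eq_mul] at h3
      calc M / K * _ ≤ M / K * (((K + 1 - 1 : ℕ) : ℝ) * (C / (a * Real.log x))) :=
            mul_le_mul_of_nonneg_left h3 (by positivity)
        _ = C * M / (a * Real.log x) := by
            rw [Nat.add_sub_cancel]; field_simp
    have m2 : |∑ p ∈ P, φ (u p) / p - ∑ p ∈ P, ψ (u p) / p| ≤ M / K * ∑ p ∈ P, 1 / (p : ℝ) := by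
      rw [← Finset.sum_sub_distrib, Finset.mul_sum]
      refine (Finset.abs_sum_le_sum_abs _ _).trans (Finset.sum_le_sum fun p hp => ?_)
      have hp0 : (0 : ℝ) < p := by exact_mod_cast ((hPm p).1 hp).1.pos
      obtain ⟨h3, h4⟩ := hψ1 (u p) (huI p hp)
      rw [← sub_div, abs_div, abs_of_pos hp0, abs_of_nonneg (by linarith), mul_one_div]
      exact div_le_div_of_nonneg_right (by linarith) hp0.le
    have m3 : |(∫ t in a..b, φ t / t) - ∫ t in a..b, ψ t / t| ≤ M / K * ∫ t in a..b, 1 / t := by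
      rw [← intervalIntegral.integral_sub hφint hψint, ← intervalIntegral.integral_const_mul]
      refine (intervalIntegral.abs_integral_le_integral_abs hab).trans ?_
      apply intervalIntegral.integral_mono_on hab (hφint.sub hψint).abs
        (hinvint.const_mul _)
      intro t ht
      have ht0 : 0 < t := lt_of_lt_of_le ha ht.1
      obtain ⟨h3, h4⟩ := hψ1 t ht
      rw [← sub_div, abs_div, abs_of_pos ht0, abs_of_nonneg (by linarith), mul_one_div]
      exact div_le_div_of_nonneg_right (by linarith) ht0.le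
    have m1' := abs_le.1 m1
    have m2' := abs_le.1 m2
    have m3' := abs_le.1 m3
    have hTe : M / K * T = M / K * ∑ p ∈ P, 1 / (p : ℝ) + M / K * ∫ t in a..b, 1 / t := by
      rw [hT, mul_add]
    rw [hTe, abs_le]
    have hue : ∑ p ∈ P, φ (Real.log p / Real.log x) / p = ∑ p ∈ P, φ (u p) / p := rfl
    rw [hue]
    constructor <;> linarith
  apply le_of_forall_pos_le_add
  intro η hη
  set K := ⌈M * T / η⌉₊ + 1 with hK
  have h3 := key K (by omega)
  refine h3.trans (add_le_add le_rfl ?_)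
  have hK0 : (0 : ℝ) < K := by rw [hK]; positivity
  rw [div_mul_eq_mul_div, div_le_iff₀ hK0]
  have h4 : M * T / η ≤ (K : ℝ) := by
    rw [hK]; push_cast
    have := Nat.le_ceil (M * T / η)
    linarith
  rw [div_le_iff₀ hη] at h4
  linarith

end Pool.Agent.Chen
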