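import Pool.Agent.Work.Chen.Interface
import Pool.Agent.Work.SW.PNT

/-!
# Block XB: the number of the products `p₁ p₂ p₃` in the window
-/

set_option autoImplicit false

namespace Pool.Agent.Chen

open Finset Filter Topology ArithmeticFunction

namespace XBproof

lemma log_nat_atTop : Tendsto (fun N : ℕ => Real.log N) atTop atTop :=
  Real.tendsto_log_atTop.comp tendsto_natCast_atTop_atTop

/-- primes `p` with `m p` in the window -/
def CC (N Y m : ℕ) : Finset ℕ :=
  (range N).filter (fun p => p.Prime ∧ N - 2 * Y ≤ m * p ∧ m * p < N - Y)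

lemma cnt (k : ℕ) (δ : ℝ) (hδ : 0 < δ) (hδ1 : δ ≤ 1) : ∃ N₀ : ℕ, ∀ N ≥ N₀, ∀ Y, Reg k N Y →
    ∀ m : ℕ, 1 ≤ m → (m : ℝ) ≤ (N : ℝ) ^ (2 / 3 : ℝ) →
    ((CC N Y m).card : ℝ) ≤ (1 + δ) * ((Y : ℝ) / m) / (Real.log N - Real.log m) := by
  obtain ⟨C, hC, hpnt⟩ := Pool.Agent.SW.pnt (k + 1)
  -- the eventual facts
  have E1 : ∀ᶠ N : ℕ in atTop, (4 : ℝ) ≤ (N : ℝ) ^ (1 / 12 : ℝ) :=
    ((tendsto_rpow_atTop (by norm_num : (0 : ℝ) < 1 / 12)).comp
      tendsto_natCast_atTop_atTop).eventually_ge_atTop 4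
  have E2 : ∀ᶠ N : ℕ in atTop, 2 * C * 4 ^ (k + 1) / (δ / 8) ≤ Real.log N :=
    log_nat_atTop.eventually_ge_atTop _
  have E3 : ∀ᶠ N : ℕ in atTop, (Real.log N) ^ k ≤ δ / 8 * (N : ℝ) ^ (1 / 3 : ℝ) := by
    have h1 := isLittleO_log_rpow_rpow_atTop (k : ℝ) (by norm_num : (0 : ℝ) < 1 / 3)
    have h2 := h1.bound (by positivity : 0 < δ / 8)
    have h3 := tendsto_natCast_atTop_atTop (R := ℝ) |>.eventually h2
    filter_upwards [h3, eventually_ge_atTop 1] with N hN hN1
    have hN1' : (1 : ℝ) ≤ N := by exact_mod_cast hN1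
    have hl : 0 ≤ Real.log N := Real.log_nonneg hN1'
    rw [Real.norm_of_nonneg (by positivity), Real.norm_of_nonneg (by positivity),
      Real.rpow_natCast] at hN
    exact hN
  have E4 : ∀ᶠ N : ℕ in atTop, Real.log 2 / (δ / 12) ≤ Real.log N :=
    log_nat_atTop.eventually_ge_atTop _
  obtain ⟨N₀, hN₀⟩ := eventually_atTop.1 (((E1.and E2).and (E3.and E4)).and
    (eventually_ge_atTop 3))
  refine ⟨N₀, fun N hN Y hR m hm hmN => ?_⟩
  obtain ⟨⟨⟨e1, e2⟩, e3, e4⟩, e5⟩ := hN₀ N hN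
  obtain ⟨-, hY1, hY2⟩ := hR
  have hNpos : (0 : ℝ) < N := by exact_mod_cast (by omega : 0 < N)
  have hN3 : (3 : ℝ) ≤ N := by exact_mod_cast e5
  have hL : 0 < Real.log N := Real.log_pos (by linarith)
  have hm0 : (0 : ℝ) < m := by exact_mod_cast hm
  set L := Real.log N with hLdef
  -- powers
  have hNthird : (N : ℝ) ^ (1 / 3 : ℝ) ≤ N / m := by
    rw [le_div_iff₀ hm0]
    calc (N : ℝ) ^ (1 / 3 : ℝ) * m ≤ (N : ℝ) ^ (1 / 3 : ℝ) * (N : ℝ) ^ (2 / 3 : ℝ) := by gcongr
      _ = N := by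
        rw [← Real.rpow_add hNpos]; norm_num
  have h14 : (N : ℝ) ^ (1 / 4 : ℝ) * 4 ≤ (N : ℝ) ^ (1 / 3 : ℝ) := by
    calc (N : ℝ) ^ (1 / 4 : ℝ) * 4 ≤ (N : ℝ) ^ (1 / 4 : ℝ) * (N : ℝ) ^ (1 / 12 : ℝ) := by gcongr
      _ = (N : ℝ) ^ (1 / 3 : ℝ) := by
        rw [← Real.rpow_add hNpos]; norm_num
  have hone : (4 : ℝ) ≤ (N : ℝ) ^ (1 / 4 : ℝ) := by
    refine e1.trans ?_
    exact Real.rpow_le_rpow_of_exponent_le (by linarith) (by norm_num)
  have hcast1 : ((N - Y : ℕ) : ℝ) = N - Y := by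
    rw [Nat.cast_sub (by omega)]
  have hcast2 : ((N - 2 * Y : ℕ) : ℝ) = N - 2 * Y := by
    rw [Nat.cast_sub (by omega)]; push_cast; ring
  have hY4 : 4 * (Y : ℝ) ≤ N := by exact_mod_cast hY1
  have hY0 : (0 : ℝ) ≤ Y := Nat.cast_nonneg _
  set X1 : ℝ := (N - Y) / m with hX1
  set X0 : ℝ := (N - 2 * Y) / m - 1 with hX0
  have hX0a : (N : ℝ) ^ (1 / 4 : ℝ) ≤ X0 := by
    have h1 : (N : ℝ) / m / 2 ≤ (N - 2 * Y) / m := by
      rw [div_div, mul_comm, ← div_div]
      gcongr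
      linarith
    have h2 : (N : ℝ) ^ (1 / 4 : ℝ) * 2 ≤ (N : ℝ) / m / 2 := by linarith
    rw [hX0]
    linarith
  have hX01 : X0 ≤ X1 := by
    rw [hX0, hX1]
    have : (N - 2 * Y : ℝ) / m ≤ (N - Y) / m := by gcongr; linarith
    linarith
  have hX1N : X1 ≤ N / m := by
    rw [hX1]; gcongr; linarith
  have hlX0 : L / 4 ≤ Real.log X0 := by
    have h1 : Real.log ((N : ℝ) ^ (1 / 4 : ℝ)) ≤ Real.log X0 :=
      Real.log_le_log (by positivity) hX0a
    rw [Real.log_rpow hNpos] at h1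
    linarith
  have hlX1 : L / 4 ≤ Real.log X1 := hlX0.trans (Real.log_le_log (by linarith) hX01)
  have herr : ∀ X : ℝ, X0 ≤ X → X ≤ X1 →
      C * (X / (Real.log X) ^ (k + 1)) ≤ δ / 16 * (Y / m) := by
    intro X hXa hXb
    have h1 : L / 4 ≤ Real.log X := hlX0.trans (Real.log_le_log (by linarith) hXa)
    have h2 : X / (Real.log X) ^ (k + 1) ≤ (N / m) / (L / 4) ^ (k + 1) := by
      have : X ≤ N / m := hXb.trans hX1N
      gcongr
    have h3 : (N : ℝ) / m ≤ Y / m * L ^ k := by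
      rw [div_mul_eq_mul_div]
      gcongr
    have h4 : (N / m) / (L / 4) ^ (k + 1) ≤ (Y / m) * 4 ^ (k + 1) / L := by
      rw [div_pow, div_div_eq_mul_div, div_le_div_iff₀ (by positivity) hL]
      calc (N : ℝ) / m * 4 ^ (k + 1) * L ≤ (Y / m * L ^ k) * 4 ^ (k + 1) * L := by gcongr
        _ = Y / m * 4 ^ (k + 1) * L ^ (k + 1) := by ring
    have h5 : 2 * C * 4 ^ (k + 1) ≤ L * (δ / 8) := by
      rwa [div_le_iff₀ (by positivity)] at e2
    calc C * (X / (Real.log X) ^ (k + 1)) ≤ C * ((Y / m) * 4 ^ (k + 1) / L) :=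
          mul_le_mul_of_nonneg_left (h2.trans h4) hC.le
      _ = (Y / m) * (2 * C * 4 ^ (k + 1)) / (2 * L) := by
          field_simp
      _ ≤ (Y / m) * (L * (δ / 8)) / (2 * L) := by gcongr
      _ = δ / 16 * (Y / m) := by
          field_simp
          ring
  have hp1 := hpnt X1 (by linarith)
  have hp0 := hpnt X0 (by linarith)
  rw [abs_le] at hp1 hp0
  have hr1 := herr X1 hX01 le_rfl
  have hr0 := herr X0 le_rfl hX01
  -- one
  have hone' : 1 ≤ δ / 8 * (Y / m) := by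
    have h1 : (N : ℝ) / m ≤ Y / m * L ^ k := by
      rw [div_mul_eq_mul_div]
      gcongr
    have h2 : L ^ k ≤ δ / 8 * (N / m) := e3.trans (by gcongr)
    have h3 : L ^ k ≤ (δ / 8 * (Y / m)) * L ^ k := by
      calc L ^ k ≤ δ / 8 * (N / m) := h2
        _ ≤ δ / 8 * (Y / m * L ^ k) := by gcongr
        _ = _ := by ring
    have h4 : 0 < L ^ k := by positivity
    by_contra h5
    push Not at h5
    nlinarith
  -- the sum of Λ over the window
  have hfl : ⌊X0⌋₊ ≤ ⌊X1⌋₊ := Nat.floor_mono hX01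
  have hsplit : ∑ n ∈ Ioc 0 ⌊X1⌋₊, Λ n = ∑ n ∈ Ioc 0 ⌊X0⌋₊, Λ n + ∑ n ∈ Ioc ⌊X0⌋₊ ⌊X1⌋₊, Λ n := by
    rw [← sum_union, Ioc_union_Ioc_eq_Ioc (Nat.zero_le _) hfl]
    rw [Finset.disjoint_left]
    intro a ha hb
    rw [mem_Ioc] at ha hb
    omega
  have hwin : ∑ n ∈ Ioc ⌊X0⌋₊ ⌊X1⌋₊, Λ n ≤ (1 + δ / 4) * (Y / m) := by
    have h1 : X1 - X0 = Y / m + 1 := by
      rw [hX1, hX0]
      field_simp
      ring
    linarith [hp1.2, hp0.1]
  -- comparison
  have hlm : Real.log m ≤ 2 / 3 * L := by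
    have h1 := Real.log_le_log hm0 hmN
    rwa [Real.log_rpow hNpos] at h1
  have hLm : L / 3 ≤ L - Real.log m := by linarith
  have hlow : ((CC N Y m).card : ℝ) * ((1 - δ / 4) * (L - Real.log m))
      ≤ ∑ n ∈ Ioc ⌊X0⌋₊ ⌊X1⌋₊, Λ n := by
    have h1 : CC N Y m ⊆ Ioc ⌊X0⌋₊ ⌊X1⌋₊ := by
      intro p hp
      simp only [CC, mem_filter, mem_range] at hp
      obtain ⟨-, -, hpa, hpb⟩ := hp
      have hpa' : ((N - 2 * Y : ℕ) : ℝ) ≤ m * p := by exact_mod_cast hpa
      have hpb' : (m * p : ℝ) < ((N - Y : ℕ) : ℝ) := by exact_mod_cast hpb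
      rw [hcast2] at hpa'
      rw [hcast1] at hpb'
      rw [mem_Ioc]
      constructor
      · rw [Nat.floor_lt (by linarith)]
        rw [hX0]
        have : (N - 2 * Y : ℝ) / m ≤ p := by
          rw [div_le_iff₀ hm0]; linarith
        linarith
      · apply Nat.le_floor
        rw [hX1, le_div_iff₀ hm0]
        linarith
    refine le_trans ?_ (sum_le_sum_of_subset_of_nonneg h1 fun i _ _ => vonMangoldt_nonneg)
    rw [← nsmul_eq_mul]
    refine card_nsmul_le_sum _ _ _ fun p hp => ?_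
    simp only [CC, mem_filter, mem_range] at hp
    obtain ⟨-, hpp, hpa, -⟩ := hp
    have hpa' : ((N - 2 * Y : ℕ) : ℝ) ≤ m * p := by exact_mod_cast hpa
    rw [hcast2] at hpa'
    rw [vonMangoldt_apply_prime hpp]
    have hpp0 : (0 : ℝ) < p := by exact_mod_cast hpp.pos
    have h2 : Real.log (N / 2) ≤ Real.log (m * p) := by
      refine Real.log_le_log (by positivity) ?_
      linarith
    rw [Real.log_div hNpos.ne' (by norm_num), Real.log_mul hm0.ne' hpp0.ne'] at h2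
    have h3 : Real.log 2 ≤ L * (δ / 12) := by
      rwa [div_le_iff₀ (by positivity)] at e4
    have h4 : δ / 12 * L ≤ δ / 4 * (L - Real.log m) := by
      have : δ / 12 * L = δ / 4 * (L / 3) := by ring
      rw [this]
      gcongr
    nlinarith
  have hpos : 0 < L - Real.log m := by linarith
  rw [le_div_iff₀ hpos]
  have hYm : 0 ≤ (Y : ℝ) / m := by positivity
  have hfin : ((CC N Y m).card : ℝ) * ((1 - δ / 4) * (L - Real.log m)) ≤ (1 + δ / 4) * (Y / m) :=
    hlow.trans hwin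
  have hd : (0 : ℝ) < 1 - δ / 4 := by linarith
  have h9 : (1 + δ / 4) ≤ (1 + δ) * (1 - δ / 4) := by nlinarith
  have h10 : (1 + δ / 4) * (Y / m) ≤ (1 + δ) * (1 - δ / 4) * (Y / m) := by gcongr
  have h11 : (1 - δ / 4) * (((CC N Y m).card : ℝ) * (L - Real.log m)) ≤
      (1 - δ / 4) * ((1 + δ) * (Y / m)) := by nlinarith
  exact le_of_mul_le_mul_left h11 hd

/-- the inner integral -/
lemma inner_int (c : ℝ) (hc : 2 / 3 ≤ c) :
    ∫ t in (1 / 3 : ℝ)..(c / 2), (1 / (c - t)) / t = Real.log (3 * c - 1) / c := by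
  have hc0 : 0 < c := by linarith
  have hab : (1 / 3 : ℝ) ≤ c / 2 := by linarith
  have hder : ∀ t ∈ Set.uIcc (1 / 3 : ℝ) (c / 2),
      HasDerivAt (fun t => (Real.log t - Real.log (c - t)) / c) ((1 / (c - t)) / t) t := by
    intro t ht
    rw [Set.uIcc_of_le hab] at ht
    have ht0 : 0 < t := by linarith [ht.1]
    have ht1 : 0 < c - t := by linarith [ht.2]
    have h1 := (Real.hasDerivAt_log ht0.ne')
    have h2 : HasDerivAt (fun t => c - t) (-1) t := by
      simpa using (hasDerivAt_id t).const_sub c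
    have h3 : HasDerivAt (fun t => (Real.log t - Real.log (c - t)) / c)
        ((t⁻¹ - -1 / (c - t)) / c) t := (h1.sub (h2.log ht1.ne')).div_const c
    refine h3.congr_deriv ?_
    have n0 := ht0.ne'
    have n1 := ht1.ne'
    have n2 := hc0.ne'
    field_simp
    ring
  rw [intervalIntegral.integral_eq_sub_of_hasDerivAt hder]
  · have e1 : c - c / 2 = c / 2 := by ring
    rw [e1, sub_self, zero_div, zero_sub]
    rw [← Real.log_div (by norm_num) (by linarith : c - 1 / 3 ≠ 0)]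
    have e2 : (1 / 3 : ℝ) / (c - 1 / 3) = (3 * c - 1)⁻¹ := by
      have : 3 * c - 1 ≠ 0 := by
        have : 0 < 3 * c - 1 := by linarith
        exact this.ne'
      have h' : c - 1 / 3 ≠ 0 := by
        have : 0 < c - 1 / 3 := by linarith
        exact this.ne'
      field_simp
    rw [e2, Real.log_inv]
    ring
  · apply ContinuousOn.intervalIntegrable
    rw [Set.uIcc_of_le hab]
    intro t ht
    have ht0 : t ≠ 0 := by
      have : 0 < t := by linarith [ht.1]
      exact this.ne'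
    have ht1 : c - t ≠ 0 := by
      have : 0 < c - t := by linarith [ht.2]
      exact this.ne'
    exact ((continuousAt_const.div (continuousAt_const.sub continuousAt_id) ht1).div
      continuousAt_id ht0).continuousWithinAt

/-- the outer function -/
lemma anti_outer : AntitoneOn (fun t : ℝ => Real.log (2 - 3 * t) / (1 - t)) (Set.Icc (1 / 8) (1 / 3)) := by
  intro s hs t ht hst
  simp only
  have hs0 : 0 < 1 - s := by linarith [hs.2]
  have ht0 : 0 < 1 - t := by linarith [ht.2]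
  have h1 : 1 ≤ 2 - 3 * t := by linarith [ht.2]
  have hlt0 : 0 ≤ Real.log (2 - 3 * t) := Real.log_nonneg h1
  rw [div_le_div_iff₀ ht0 hs0]
  -- log (2-3s) ≥ log (2-3t) + 3 (t-s)/(2-3s)
  have h2 : Real.log (2 - 3 * t) - Real.log (2 - 3 * s) ≤ -(3 * (t - s)) / (2 - 3 * s) := by
    rw [← Real.log_div (by linarith) (by linarith [hs.2])]
    have h3 : 0 < (2 - 3 * t) / (2 - 3 * s) := by
      apply div_pos <;> linarith [hs.2]
    refine (Real.log_le_sub_one_of_pos h3).trans ?_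
    have h4 : 0 < 2 - 3 * s := by linarith [hs.2]
    rw [div_sub_one h4.ne']
    apply le_of_eq
    congr 1
    ring
  have h5 : Real.log (2 - 3 * t) ≤ 1 - 3 * t := by
    have := Real.log_le_sub_one_of_pos (by linarith : 0 < 2 - 3 * t)
    linarith
  have h6 : 0 < 2 - 3 * s := by linarith [hs.2]
  have h7 : 3 * (t - s) / (2 - 3 * s) ≤ Real.log (2 - 3 * s) - Real.log (2 - 3 * t) := by
    have : -(3 * (t - s)) / (2 - 3 * s) = -(3 * (t - s) / (2 - 3 * s)) := by ring
    linarith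
  have h8 : 3 * (t - s) ≤ (Real.log (2 - 3 * s) - Real.log (2 - 3 * t)) * (2 - 3 * s) := by
    rwa [div_le_iff₀ h6] at h7
  have h9 : 0 ≤ t - s := by linarith
  -- (log(2-3s)) (1-t) - log(2-3t) (1-s) = (log(2-3s)-log(2-3t)) (1-t) - log(2-3t) (t-s)
  have h10 : 0 ≤ Real.log (2 - 3 * s) - Real.log (2 - 3 * t) := by
    have : 0 ≤ 3 * (t - s) / (2 - 3 * s) := by positivity
    linarith
  have h11 : Real.log (2 - 3 * t) * (t - s) ≤ (1 - 3 * t) * (t - s) := by gcongr
  -- (log diff) (1-t) ≥ 3 (t-s) (1-t)/(2-3s), 2 - 3s ≤ 2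
  have h12 : (2 - 3 * s) ≤ 2 := by linarith [hs.1]
  have h13 : 3 * (t - s) ≤ (Real.log (2 - 3 * s) - Real.log (2 - 3 * t)) * 2 :=
    h8.trans (by gcongr)
  have h14 : (t - s) * (1 - 3 * t) ≤ 3 / 2 * (t - s) * (1 - t) := by
    have : (1 - 3 * t) ≤ 3 / 2 * (1 - t) := by linarith [ht.1]
    nlinarith
  nlinarith

lemma outer_bd (t : ℝ) (ht : t ∈ Set.Icc (1 / 8 : ℝ) (1 / 3)) :
    0 ≤ Real.log (2 - 3 * t) / (1 - t) ∧ Real.log (2 - 3 * t) / (1 - t) ≤ 1 := by
  have h0 : 0 < 1 - t := by linarith [ht.2]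
  have h1 : 1 ≤ 2 - 3 * t := by linarith [ht.2]
  have h2 : 0 ≤ Real.log (2 - 3 * t) := Real.log_nonneg h1
  refine ⟨div_nonneg h2 h0.le, ?_⟩
  rw [div_le_one h0]
  have := Real.log_le_sub_one_of_pos (by linarith : 0 < 2 - 3 * t)
  linarith [ht.1]

/-- the family of the `p₁` -/
noncomputable def A1s (N : ℕ) : Finset ℕ :=
  (range ⌈(N : ℝ) ^ (1 / 3 : ℝ)⌉₊).filter (fun p : ℕ => p.Prime ∧ (N : ℝ) ^ (1 / 8 : ℝ) ≤ (p : ℝ))

/-- the family of the `p₂` -/
noncomputable def A2s (N : ℕ) (b : ℝ) : Finset ℕ :=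
  (range ⌈(N : ℝ) ^ b⌉₊).filter (fun p : ℕ => p.Prime ∧ (N : ℝ) ^ (1 / 3 : ℝ) ≤ (p : ℝ))

/-- the exponent of `(N / p)^(1/2)` -/
noncomputable def bb (N p : ℕ) : ℝ := (1 - Real.log p / Real.log N) / 2

open scoped Classical in
/-- counting the triples -/
lemma card_TB (N Y : ℕ) (hN : 3 ≤ N) (hY : 1 ≤ Y) (hYN : 4 * Y ≤ N) :
    (TB N Y ((N : ℝ) ^ (1 / 8 : ℝ)) ((N : ℝ) ^ (1 / 3 : ℝ))).card ≤
      ∑ p ∈ A1s N, ∑ q ∈ A2s N (bb N p), (CC N Y (p * q)).card := by
  have hNpos : (0 : ℝ) < N := by exact_mod_cast (by omega : 0 < N)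
  have hN3 : (3 : ℝ) ≤ N := by exact_mod_cast hN
  have hL : 0 < Real.log N := Real.log_pos (by linarith)
  have hsub : TB N Y ((N : ℝ) ^ (1 / 8 : ℝ)) ((N : ℝ) ^ (1 / 3 : ℝ)) ⊆
      (A1s N).biUnion fun p => (A2s N (bb N p)).biUnion fun q =>
        (CC N Y (p * q)).image fun s => p * q * s := by
    intro l hl
    simp only [TB, mem_filter, mem_Ico] at hl
    obtain ⟨⟨hl1, hl2⟩, p, q, s, hp, hq, hs, hp1, hp2, hq1, hqs, rfl⟩ := hl
    have hp0 : (0 : ℝ) < p := by exact_mod_cast hp.pos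
    have hq0 : (0 : ℝ) < q := by exact_mod_cast hq.pos
    simp only [mem_biUnion, mem_image]
    refine ⟨p, ?_, q, ?_, s, ?_, rfl⟩
    · simp only [A1s, mem_filter, mem_range, Nat.lt_ceil]
      exact ⟨hp2, hp, hp1⟩
    · simp only [A2s, mem_filter, mem_range, Nat.lt_ceil]
      refine ⟨?_, hq, hq1⟩
      have h1 : p * q * q < N := by
        calc p * q * q ≤ p * q * s := Nat.mul_le_mul_left _ hqs
          _ < N - Y := hl2
          _ ≤ N := Nat.sub_le _ _
      have h2 : (p * q * q : ℝ) < N := by exact_mod_cast h1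
      have h3 : Real.log p + 2 * Real.log q < Real.log N := by
        have := Real.log_lt_log (by positivity) h2
        rw [Real.log_mul (by positivity) hq0.ne', Real.log_mul hp0.ne' hq0.ne'] at this
        linarith
      rw [← Real.log_lt_log_iff hq0 (by positivity), Real.log_rpow hNpos, bb]
      have h4 : (1 - Real.log p / Real.log N) / 2 * Real.log N = (Real.log N - Real.log p) / 2 := by
        field_simp
      rw [h4]
      linarith
    · simp only [CC, mem_filter, mem_range]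
      refine ⟨?_, hs, hl1, hl2⟩
      have h1 : s ≤ p * q * s := Nat.le_mul_of_pos_left _ (Nat.mul_pos hp.pos hq.pos)
      omega
  refine (card_le_card hsub).trans (card_biUnion_le.trans (sum_le_sum fun p _ => ?_))
  exact card_biUnion_le.trans (sum_le_sum fun q _ => card_image_le)

/-- exponents of `p₁` -/
lemma beta_mem {N p : ℕ} (hN : 3 ≤ N) (hp : p ∈ A1s N) :
    Real.log p / Real.log N ∈ Set.Icc (1 / 8 : ℝ) (1 / 3) := by
  have hNpos : (0 : ℝ) < N := by exact_mod_cast (by omega : 0 < N)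
  have hN3 : (3 : ℝ) ≤ N := by exact_mod_cast hN
  have hL : 0 < Real.log N := Real.log_pos (by linarith)
  simp only [A1s, mem_filter, mem_range, Nat.lt_ceil] at hp
  obtain ⟨hp2, hpp, hp1⟩ := hp
  have hp0 : (0 : ℝ) < p := by exact_mod_cast hpp.pos
  constructor
  · rw [le_div_iff₀ hL]
    have := Real.log_le_log (by positivity) hp1
    rwa [Real.log_rpow hNpos] at this
  · rw [div_le_iff₀ hL]
    have := Real.log_le_log hp0 hp2.le
    rwa [Real.log_rpow hNpos] at this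

end XBproof

open XBproof in
theorem XB (hPS : Stmt_PS) : Stmt_XB := by
  intro k δ hδ
  obtain ⟨C, hC, hps⟩ := hPS
  set J : ℝ := ∫ β in (1 / 8 : ℝ)..(1 / 3), Real.log (2 - 3 * β) / (β * (1 - β)) with hJ
  have hJ0 : 0 ≤ J := by
    rw [hJ]
    refine intervalIntegral.integral_nonneg (by norm_num) fun t ht => ?_
    have h1 : 0 ≤ Real.log (2 - 3 * t) := Real.log_nonneg (by linarith [ht.2])
    have h2 : 0 < t * (1 - t) := mul_pos (by linarith [ht.1]) (by linarith [ht.2])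
    exact div_nonneg h1 h2.le
  -- the parameter of cnt
  set η : ℝ := min 1 (δ / (2 * (J + 1))) with hη
  have hη0 : 0 < η := by positivity
  have hη1 : η ≤ 1 := min_le_left _ _
  have hη2 : η * (J + 1) ≤ δ / 2 := by
    have : η ≤ δ / (2 * (J + 1)) := min_le_right _ _
    rw [le_div_iff₀ (by positivity)] at this
    linarith
  obtain ⟨N₁, hN₁⟩ := cnt k η hη0 hη1
  -- error terms
  set K : ℝ := 8 * C + 9 * C * (2 + 8 * C) with hK
  obtain ⟨N₂, hN₂⟩ := eventually_atTop.1 (log_nat_atTop.eventually_ge_atTop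
    (max 1 (K / (min 1 (δ / 4)))))
  obtain ⟨N₃, hN₃⟩ := eventually_atTop.1 (log_nat_atTop.eventually_ge_atTop (8 * Real.log 2))
  refine ⟨max (max N₁ N₂) (max N₃ 3), fun N hN Y hR => ?_⟩
  have hNa : N₁ ≤ N := le_trans (le_trans (le_max_left _ _) (le_max_left _ _)) hN
  have hNb : N₂ ≤ N := le_trans (le_trans (le_max_right _ _) (le_max_left _ _)) hN
  have hNc : N₃ ≤ N := le_trans (le_trans (le_max_left _ _) (le_max_right _ _)) hN
  have hN3 : 3 ≤ N := le_trans (le_trans (le_max_right _ _) (le_max_right _ _)) hN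
  have hlK := hN₂ N hNb
  have hl8 := hN₃ N hNc
  set L := Real.log N with hL
  have hNpos : (0 : ℝ) < N := by exact_mod_cast (by omega : 0 < N)
  have hN3' : (3 : ℝ) ≤ N := by exact_mod_cast hN3
  have hL1 : 1 ≤ L := (le_max_left _ _).trans hlK
  have hL0 : 0 < L := by linarith
  have hKL : K / L ≤ min 1 (δ / 4) := by
    have h1 : K / (min 1 (δ / 4)) ≤ L := (le_max_right _ _).trans hlK
    rw [div_le_iff₀ (by positivity)] at h1
    rw [div_le_iff₀ hL0]
    linarith
  obtain ⟨-, hY1, hY2⟩ := id hR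
  have hYpos : (0 : ℝ) < Y := by
    by_contra h
    have h1 : (Y : ℝ) = 0 := le_antisymm (not_lt.1 h) (Nat.cast_nonneg _)
    rw [h1, zero_mul] at hY2
    linarith
  have hYn : 1 ≤ Y := by
    have : 0 < Y := by exact_mod_cast hYpos
    omega
  -- powers of `N`
  have h8 : (2 : ℝ) ≤ (N : ℝ) ^ (1 / 8 : ℝ) := by
    rw [← Real.log_le_log_iff (by norm_num) (by positivity), Real.log_rpow hNpos]
    linarith
  have h3 : (2 : ℝ) ≤ (N : ℝ) ^ (1 / 3 : ℝ) :=
    h8.trans (Real.rpow_le_rpow_of_exponent_le (by linarith) (by norm_num))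
  -- bound for one pair
  have hpair : ∀ p ∈ A1s N, ∀ q ∈ A2s N (bb N p), ((CC N Y (p * q)).card : ℝ) ≤
      (1 + η) * (Y / L) * ((1 / p) * ((1 / (1 - Real.log p / L - Real.log q / L)) / q)) := by
    intro p hp q hq
    have hβ := beta_mem hN3 hp
    simp only [A1s, mem_filter, mem_range, Nat.lt_ceil] at hp
    simp only [A2s, mem_filter, mem_range, Nat.lt_ceil] at hq
    have hp0 : (0 : ℝ) < p := by exact_mod_cast hp.2.1.pos
    have hq0 : (0 : ℝ) < q := by exact_mod_cast hq.2.1.pos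
    have hlq : Real.log q ≤ (L - Real.log p) / 2 := by
      have h1 := Real.log_le_log hq0 hq.1.le
      rw [Real.log_rpow hNpos, bb] at h1
      have h4 : (1 - Real.log p / Real.log N) / 2 * Real.log N = (Real.log N - Real.log p) / 2 := by
        have : Real.log N ≠ 0 := hL0.ne'
        field_simp
      rw [h4] at h1
      exact h1
    have hlp : Real.log p ≤ L / 3 := by
      have := hβ.2
      rw [div_le_iff₀ hL0] at this
      linarith
    have hm : ((p * q : ℕ) : ℝ) ≤ (N : ℝ) ^ (2 / 3 : ℝ) := by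
      push_cast
      rw [← Real.log_le_log_iff (by positivity) (by positivity), Real.log_rpow hNpos,
        Real.log_mul hp0.ne' hq0.ne']
      linarith
    have h1 := hN₁ N hNa Y hR (p * q) (Nat.mul_pos hp.2.1.pos hq.2.1.pos) hm
    refine h1.trans (le_of_eq ?_)
    push_cast
    rw [Real.log_mul hp0.ne' hq0.ne']
    have h2 : 0 < L - Real.log p - Real.log q := by
      have : 0 ≤ Real.log p := Real.log_nonneg (by exact_mod_cast hp.2.1.pos)
      linarith
    have h5 : 1 - Real.log p / L - Real.log q / L = (L - Real.log p - Real.log q) / L := by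
      field_simp
    rw [h5]
    have h6 : L - (Real.log p + Real.log q) = L - Real.log p - Real.log q := by ring
    rw [← hL, h6]
    have n1 := h2.ne'
    have n2 := hL0.ne'
    field_simp
  -- the inner sum
  have hinner : ∀ p ∈ A1s N, ∑ q ∈ A2s N (bb N p),
      ((1 / (1 - Real.log p / L - Real.log q / L)) / q) ≤
      Real.log (2 - 3 * (Real.log p / L)) / (1 - Real.log p / L) + 9 * C / L := by
    intro p hp
    have hβ := beta_mem hN3 hp
    rw [← hL] at hβ
    set β := Real.log p / L with hβd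
    have hbe : bb N p = (1 - β) / 2 := rfl
    have hmono : MonotoneOn (fun t : ℝ => 1 / (1 - β - t)) (Set.Icc (1 / 3) ((1 - β) / 2)) := by
      intro s hs t ht hst
      simp only
      apply one_div_le_one_div_of_le
      · linarith [ht.2, hβ.2]
      · linarith
    have hbd : ∀ t ∈ Set.Icc (1 / 3 : ℝ) ((1 - β) / 2), 0 ≤ 1 / (1 - β - t) ∧
        1 / (1 - β - t) ≤ 3 := by
      intro t ht
      have h1 : (1 : ℝ) / 3 ≤ 1 - β - t := by linarith [ht.2, hβ.2]
      constructor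
      · apply div_nonneg <;> linarith
      · rw [div_le_iff₀ (by linarith)]
        linarith
    have h1 := hps N (1 / 3) ((1 - β) / 2) 3 (by linarith) (by norm_num)
      (by linarith [hβ.2]) h3 (fun t => 1 / (1 - β - t)) (Or.inl hmono) hbd
    have h2 := (abs_le.1 h1).2
    have h4 : ∫ t in (1 / 3 : ℝ)..((1 - β) / 2), (1 / (1 - β - t)) / t =
        Real.log (2 - 3 * β) / (1 - β) := by
      rw [inner_int (1 - β) (by linarith [hβ.2])]
      congr 2
      ring
    rw [h4] at h2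
    have h5 : C * 3 / (1 / 3 * L) = 9 * C / L := by
      field_simp
      ring
    rw [← hL, h5] at h2
    have h6 : A2s N (bb N p) = (range ⌈(N : ℝ) ^ ((1 - β) / 2)⌉₊).filter
        (fun p : ℕ => p.Prime ∧ (N : ℝ) ^ (1 / 3 : ℝ) ≤ (p : ℝ)) := rfl
    rw [h6]
    linarith
  -- the outer sums
  have hout := hps N (1 / 8) (1 / 3) 1 (by linarith) (by norm_num) (by norm_num) h8
    (fun t => Real.log (2 - 3 * t) / (1 - t)) (Or.inr anti_outer) outer_bd
  have hone := hps N (1 / 8) (1 / 3) 1 (by linarith) (by norm_num) (by norm_num) h8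
    (fun _ => 1) (Or.inl fun _ _ _ _ _ => le_rfl) (fun _ _ => ⟨zero_le_one, le_rfl⟩)
  have hint1 : ∫ t in (1 / 8 : ℝ)..(1 / 3), Real.log (2 - 3 * t) / (1 - t) / t = J := by
    rw [hJ]
    refine intervalIntegral.integral_congr fun t _ => ?_
    show Real.log (2 - 3 * t) / (1 - t) / t = Real.log (2 - 3 * t) / (t * (1 - t))
    rw [div_div, mul_comm t]
  have hint2 : ∫ t in (1 / 8 : ℝ)..(1 / 3), 1 / t ≤ 2 := by
    rw [integral_one_div_of_pos (by norm_num) (by norm_num)]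
    have h1 : (1 / 3 : ℝ) / (1 / 8) = 8 / 3 := by norm_num
    rw [h1]
    have := Real.log_le_sub_one_of_pos (by norm_num : (0 : ℝ) < 8 / 3)
    linarith
  have hc8 : C * 1 / (1 / 8 * L) = 8 * C / L := by
    field_simp
  rw [← hL, hc8] at hout hone
  rw [hint1] at hout
  have ho1 := (abs_le.1 hout).2
  have ho2 := (abs_le.1 hone).2
  -- conclusion
  have hcard := card_TB N Y hN3 hYn hY1
  have hsum : ((TB N Y ((N : ℝ) ^ (1 / 8 : ℝ)) ((N : ℝ) ^ (1 / 3 : ℝ))).card : ℝ) ≤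
      ∑ p ∈ A1s N, ∑ q ∈ A2s N (bb N p), ((CC N Y (p * q)).card : ℝ) := by
    exact_mod_cast hcard
  refine hsum.trans ?_
  have hYL : 0 < (Y : ℝ) / L := by positivity
  have hstep : ∑ p ∈ A1s N, ∑ q ∈ A2s N (bb N p), ((CC N Y (p * q)).card : ℝ) ≤
      (1 + η) * (Y / L) * (∑ p ∈ A1s N, (Real.log (2 - 3 * (Real.log p / L)) / (1 - Real.log p / L)) / p
        + 9 * C / L * ∑ p ∈ A1s N, 1 / (p : ℝ)) := by
    rw [mul_sum, ← sum_add_distrib, mul_sum]
    refine sum_le_sum fun p hp => ?_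
    have hp0 : (0 : ℝ) < p := by
      have := (mem_filter.1 hp).2.1.pos
      exact_mod_cast this
    calc ∑ q ∈ A2s N (bb N p), ((CC N Y (p * q)).card : ℝ)
        ≤ ∑ q ∈ A2s N (bb N p), (1 + η) * (Y / L) *
            ((1 / p) * ((1 / (1 - Real.log p / L - Real.log q / L)) / q)) :=
          sum_le_sum fun q hq => hpair p hp q hq
      _ = (1 + η) * (Y / L) * ((1 / p) * ∑ q ∈ A2s N (bb N p),
            ((1 / (1 - Real.log p / L - Real.log q / L)) / q)) := by
          rw [← mul_sum, ← mul_sum]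
      _ ≤ (1 + η) * (Y / L) * ((1 / p) *
            (Real.log (2 - 3 * (Real.log p / L)) / (1 - Real.log p / L) + 9 * C / L)) := by
          have := hinner p hp
          gcongr
      _ = _ := by ring
  refine hstep.trans ?_
  have hA1 : A1s N = (range ⌈(N : ℝ) ^ (1 / 3 : ℝ)⌉₊).filter
      (fun p : ℕ => p.Prime ∧ (N : ℝ) ^ (1 / 8 : ℝ) ≤ (p : ℝ)) := rfl
  rw [← hA1] at ho1 ho2
  have hCL : 0 ≤ C / L := by positivity
  have h10 : ∑ p ∈ A1s N, 1 / (p : ℝ) ≤ 2 + 8 * C := by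
    have : 8 * C / L ≤ 8 * C := div_le_self (by positivity) hL1
    linarith
  have h11 : (∑ p ∈ A1s N, (Real.log (2 - 3 * (Real.log p / L)) / (1 - Real.log p / L)) / p
        + 9 * C / L * ∑ p ∈ A1s N, 1 / (p : ℝ)) ≤ J + K / L := by
    have h12 : 9 * C / L * ∑ p ∈ A1s N, 1 / (p : ℝ) ≤ 9 * C / L * (2 + 8 * C) := by
      gcongr
    have h13 : K / L = 8 * C / L + 9 * C / L * (2 + 8 * C) := by
      rw [hK]; ring
    linarith
  calc (1 + η) * (Y / L) * (∑ p ∈ A1s N,
        (Real.log (2 - 3 * (Real.log p / L)) / (1 - Real.log p / L)) / p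
        + 9 * C / L * ∑ p ∈ A1s N, 1 / (p : ℝ))
      ≤ (1 + η) * (Y / L) * (J + K / L) := by gcongr
    _ = ((1 + η) * (J + K / L)) * (Y / L) := by ring
    _ ≤ (J + δ) * (Y / L) := by
        gcongr
        have h14 : K / L ≤ δ / 4 := hKL.trans (min_le_right _ _)
        have h15 : K / L ≤ 1 := hKL.trans (min_le_left _ _)
        have hK0 : 0 ≤ K / L := by positivity
        nlinarith

end Pool.Agent.Chen
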