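import Pool.Agent.Work.Chen.FIN
import Pool.Agent.Work.Chen.PRIM
import Pool.Agent.Work.Chen.PR
import Pool.Agent.Work.Chen.VL
import Pool.Agent.Work.Chen.A1
import Pool.Agent.Work.Chen.AQ
import Pool.Agent.Work.Chen.AB
import Pool.Agent.Work.Chen.XB
import Pool.Agent.Work.Chen.PS
import Pool.Agent.Work.Chen.NUM
import Pool.Agent.Work.LinearSieve.Main

/-!
# Chen's theorem in a window, unconditional
-/

set_option autoImplicit false

namespace Pool.Agent.Chen

open Finset Pool.Agent.Work.MP_484fb8_nt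

/-- **Chen's theorem** with the prime in a window `(Y, 2Y]`, `N / (log N)^k ≤ Y ≤ N / 4`. -/
theorem chen_window : Stmt_FIN2 :=
  FIN LinearSieve.linear_sieve CI2 PR VL (A1 PR) (AQ PR) AB (XB PSblock) NUM

open scoped Classical in
/-- Chen's theorem in the primorial windows. -/
theorem chen_primorial : ∃ c : ℝ, 0 < c ∧ ∃ n₀ : ℕ, ∀ n, n₀ ≤ n → ∀ m ∈ evensIn (n + 1),
    c * (SS m * (prml n / (Real.log (prml n)) ^ 2)) ≤
      (((primesIn n).filter (fun p => m - p ∈ primorialInterval n ∪ primorialInterval (n + 1) ∧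
        (m - p).primeFactorsList.length ≤ 2 ∧
        ∀ q ∈ (m - p).primeFactorsList, (m : ℝ) ^ (1 / 8 : ℝ) ≤ q)).card : ℝ) :=
  PRIM chen_window

end Pool.Agent.Chen
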