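import Pool.Agent.Work.Chen.Interface

/-! Chen: block CI, the combinatorial inequality (helper59). -/

set_option autoImplicit false

namespace Pool.Agent.Chen.CIw

open Finset
open scoped Classical

/-- the weight of one number -/
theorem weight (n N : ℕ) (p : ℕ) (z y : ℝ) (hp : p.Prime) (hpN : n + p = N) (hyp : y < p)
    (hz : 2 ≤ z) (hzy : z ≤ y) (hN : (N : ℝ) ≤ y ^ 3) (hn : 0 < n)
    (hs : ∀ q ∈ Sf N z, ¬ q ∣ n) :
    (1 : ℝ) - 1 / 2 * (((Qs N z y).filter (fun q => q ∣ n)).card : ℝ) -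
      1 / 2 * (if Tri z y n then 1 else 0) ≤
      (if n.primeFactorsList.length ≤ 2 then 1 else 0) +
      (if ∃ q : ℕ, q.Prime ∧ z ≤ (q : ℝ) ∧ q * q ∣ n then 1 else 0) := by
  have hc0 : (0 : ℝ) ≤ (((Qs N z y).filter (fun q => q ∣ n)).card : ℝ) := Nat.cast_nonneg _
  have hT0 : (0 : ℝ) ≤ (if Tri z y n then 1 else 0) := by split_ifs <;> norm_num
  by_cases hsq : ∃ q : ℕ, q.Prime ∧ z ≤ (q : ℝ) ∧ q * q ∣ n
  · rw [if_pos hsq]
    have : (0 : ℝ) ≤ (if n.primeFactorsList.length ≤ 2 then 1 else 0) := by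
      split_ifs <;> norm_num
    linarith
  by_cases hlen : n.primeFactorsList.length ≤ 2
  · rw [if_pos hlen, if_neg hsq]
    linarith
  rw [if_neg hlen, if_neg hsq]
  push Not at hlen
  -- small prime factors do not divide N
  have hnd : ∀ q : ℕ, q.Prime → q ∣ n → (q : ℝ) < y → ¬ q ∣ N := by
    intro q hq hqn hqy hqN
    have h1 : q ∣ p := by
      rw [← hpN] at hqN
      exact (Nat.dvd_add_right hqn).1 hqN
    have h2 : q = p := (Nat.prime_dvd_prime_iff_eq hq hp).1 h1
    rw [h2] at hqy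
    linarith
  have hge : ∀ q : ℕ, q.Prime → q ∣ n → z ≤ (q : ℝ) := by
    intro q hq hqn
    by_contra hlt
    push Not at hlt
    refine hs q ?_ hqn
    simp only [Sf, mem_filter, mem_range]
    exact ⟨Nat.lt_ceil.2 hlt, hq, hnd q hq hqn (lt_of_lt_of_le hlt hzy)⟩
  have hQ : ∀ q : ℕ, q.Prime → q ∣ n → (q : ℝ) < y → q ∈ (Qs N z y).filter (fun q => q ∣ n) := by
    intro q hq hqn hqy
    simp only [Qs, mem_filter, mem_range]
    exact ⟨⟨Nat.lt_ceil.2 hqy, hq, hge q hq hqn, hnd q hq hqn hqy⟩, hqn⟩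
  have hsorted := (Nat.primeFactorsList_sorted n).pairwise
  have hprod := Nat.prod_primeFactorsList hn.ne'
  have hpr : ∀ q ∈ n.primeFactorsList, q.Prime := fun q hq =>
    Nat.prime_of_mem_primeFactorsList hq
  have hdv : ∀ q ∈ n.primeFactorsList, q ∣ n := fun q hq =>
    Nat.dvd_of_mem_primeFactorsList hq
  have hnN : (n : ℝ) < N := by
    have : n < N := by have := hp.pos; omega
    exact_mod_cast this
  have hypos : 0 < y := by linarith
  -- the list
  obtain ⟨a, b, c, rest, hL⟩ : ∃ a b c rest, n.primeFactorsList = a :: b :: c :: rest := by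
    rcases hl : n.primeFactorsList with _ | ⟨a, _ | ⟨b, _ | ⟨c, rest⟩⟩⟩
    · rw [hl] at hlen; simp at hlen
    · rw [hl] at hlen; simp at hlen
    · rw [hl] at hlen; simp at hlen
    · exact ⟨a, b, c, rest, rfl⟩
  rw [hL] at hsorted hprod hpr hdv
  simp only [List.pairwise_cons, List.mem_cons, List.prod_cons] at hsorted hprod
  obtain ⟨h1, h2, h3, h4⟩ := hsorted
  have hab : a ≤ b := h1 b (Or.inl rfl)
  have hbc : b ≤ c := h2 c (Or.inl rfl)
  have ha := hpr a (by simp)
  have hb := hpr b (by simp)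
  have hc := hpr c (by simp)
  have hda := hdv a (by simp)
  have hdb := hdv b (by simp)
  have hdc := hdv c (by simp)
  have hRpos : 0 < rest.prod := by
    apply Nat.pos_of_ne_zero
    intro h
    rw [h] at hprod
    simp at hprod
    omega
  have habne : a ≠ b := by
    intro h
    apply hsq
    refine ⟨a, ha, hge a ha hda, ?_⟩
    refine ⟨c * rest.prod, ?_⟩
    rw [← hprod, ← h]
    ring
  have hay : (a : ℝ) < y := by
    by_contra hcon
    push Not at hcon
    have hb' : y ≤ (b : ℝ) := hcon.trans (by exact_mod_cast hab)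
    have hc' : y ≤ (c : ℝ) := hb'.trans (by exact_mod_cast hbc)
    have h5 : y ^ 3 ≤ (n : ℝ) := by
      rw [← hprod]
      push_cast
      have hR1 : (1 : ℝ) ≤ ((rest.prod : ℕ) : ℝ) := by exact_mod_cast hRpos
      have e1 : y * y ≤ (a : ℝ) * b := mul_le_mul hcon hb' hypos.le (by positivity)
      have e2 : y * y * y ≤ (a : ℝ) * b * c := mul_le_mul e1 hc' hypos.le (by positivity)
      have e3 : (a : ℝ) * b * c * 1 ≤ (a : ℝ) * b * c * ((rest.prod : ℕ) : ℝ) :=
        mul_le_mul_of_nonneg_left hR1 (by positivity)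
      push_cast at e3
      nlinarith
    linarith
  have hQa := hQ a ha hda hay
  by_cases hby : (b : ℝ) < y
  · have hQb := hQ b hb hdb hby
    have h2c : 2 ≤ ((Qs N z y).filter (fun q => q ∣ n)).card := by
      have : ({a, b} : Finset ℕ) ⊆ (Qs N z y).filter (fun q => q ∣ n) := by
        intro x hx
        simp only [mem_insert, mem_singleton] at hx
        rcases hx with rfl | rfl
        · exact hQa
        · exact hQb
      have h := Finset.card_le_card this
      rwa [Finset.card_pair habne] at h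
    have h2r : (2 : ℝ) ≤ (((Qs N z y).filter (fun q => q ∣ n)).card : ℝ) := by
      exact_mod_cast h2c
    linarith
  · push Not at hby
    have hcy : y ≤ (c : ℝ) := hby.trans (by exact_mod_cast hbc)
    have hrest : rest = [] := by
      rcases hr : rest with _ | ⟨d, rest'⟩
      · rfl
      · exfalso
        rw [hr] at hprod h3 hRpos
        have hcd : c ≤ d := h3 d (by simp)
        have hdy : y ≤ (d : ℝ) := hcy.trans (by exact_mod_cast hcd)
        simp only [List.prod_cons] at hprod hRpos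
        have hR'pos : 0 < rest'.prod := Nat.pos_of_mul_pos_left hRpos
        have h5 : y ^ 3 ≤ (n : ℝ) := by
          rw [← hprod]
          push_cast
          have hR1 : (1 : ℝ) ≤ ((rest'.prod : ℕ) : ℝ) := by exact_mod_cast hR'pos
          have ha1 : (1 : ℝ) ≤ (a : ℝ) := by exact_mod_cast ha.one_le
          have e1 : y * y ≤ (b : ℝ) * c := mul_le_mul hby hcy hypos.le (by positivity)
          have e2 : y * y * y ≤ (b : ℝ) * c * d := mul_le_mul e1 hdy hypos.le (by positivity)
          have e3 : 1 * 1 ≤ (a : ℝ) * ((rest'.prod : ℕ) : ℝ) :=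
            mul_le_mul ha1 hR1 (by norm_num) (by positivity)
          have e4 : (b : ℝ) * c * d * 1 ≤ (b : ℝ) * c * d * ((a : ℝ) * ((rest'.prod : ℕ) : ℝ)) :=
            mul_le_mul_of_nonneg_left (by linarith) (by positivity)
          push_cast at e4
          nlinarith
        linarith
    have hTri : Tri z y n := by
      refine ⟨a, b, c, ha, hb, hc, hge a ha hda, hay, hby, hbc, ?_⟩
      rw [← hprod, hrest]; simp [mul_assoc]
    rw [if_pos hTri]
    have h1c : 1 ≤ ((Qs N z y).filter (fun q => q ∣ n)).card :=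
      Finset.card_pos.2 ⟨a, hQa⟩
    have h1r : (1 : ℝ) ≤ (((Qs N z y).filter (fun q => q ∣ n)).card : ℝ) := by
      exact_mod_cast h1c
    linarith

/-- multiples in an interval -/
theorem mult_count (a b m : ℕ) (hm : 0 < m) (hab : a ≤ b) :
    (((Ico a b).filter (fun l => m ∣ l)).card : ℝ) ≤ ((b : ℝ) - a) / m + 1 := by
  have hm' : (0 : ℝ) < m := by exact_mod_cast hm
  have h1 : ((Ico a b).filter (fun l => m ∣ l)).card ≤
      (Ico ⌈(a : ℝ) / m⌉₊ ⌈(b : ℝ) / m⌉₊).card := by
    refine Finset.card_le_card_of_injOn (fun l => l / m) ?_ ?_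
    · intro l hl
      simp only [coe_filter, mem_Ico, Set.mem_ofPred_eq] at hl
      obtain ⟨⟨h1, h2⟩, k, rfl⟩ := hl
      simp only [coe_Ico, Set.mem_Ico]
      rw [Nat.mul_div_cancel_left k hm]
      constructor
      · rw [Nat.ceil_le, div_le_iff₀ hm']
        have : (a : ℝ) ≤ ((m * k : ℕ) : ℝ) := by exact_mod_cast h1
        push_cast at this
        linarith
      · rw [Nat.lt_ceil, lt_div_iff₀ hm']
        have : ((m * k : ℕ) : ℝ) < (b : ℝ) := by exact_mod_cast h2
        push_cast at this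
        linarith
    · intro l hl l' hl' h
      simp only [coe_filter, mem_Ico, Set.mem_ofPred_eq] at hl hl'
      obtain ⟨_, k, rfl⟩ := hl
      obtain ⟨_, k', rfl⟩ := hl'
      simp only [Nat.mul_div_cancel_left _ hm] at h
      rw [h]
  rw [Nat.card_Ico] at h1
  have h2 : (((Ico a b).filter (fun l => m ∣ l)).card : ℝ) ≤
      ((⌈(b : ℝ) / m⌉₊ - ⌈(a : ℝ) / m⌉₊ : ℕ) : ℝ) := by exact_mod_cast h1
  have h3 : (⌈(a : ℝ) / m⌉₊ : ℕ) ≤ ⌈(b : ℝ) / m⌉₊ := by
    apply Nat.ceil_mono
    exact div_le_div_of_nonneg_right (by exact_mod_cast hab) hm'.le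
  rw [Nat.cast_sub h3] at h2
  have h4 : ((⌈(b : ℝ) / m⌉₊ : ℕ) : ℝ) < (b : ℝ) / m + 1 := Nat.ceil_lt_add_one (by positivity)
  have h5 : (a : ℝ) / m ≤ ((⌈(a : ℝ) / m⌉₊ : ℕ) : ℝ) := Nat.le_ceil _
  have h6 : ((b : ℝ) - a) / m = (b : ℝ) / m - a / m := by ring
  linarith

theorem sum_inv_sq (a : ℕ) (ha : 2 ≤ a) (b : ℕ) (hab : a ≤ b + 1) :
    ∑ q ∈ Ico a (b + 1), (1 : ℝ) / (q : ℝ) ^ 2 ≤ 1 / ((a : ℝ) - 1) - 1 / (b : ℝ) := by
  induction b with
  | zero => omega
  | succ b ih =>
    have ha' : (2 : ℝ) ≤ a := by exact_mod_cast ha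
    rcases Nat.lt_or_ge b (a - 1) with h | h
    · have : a = b + 2 := by omega
      subst this
      have e : ((b + 2 : ℕ) : ℝ) - 1 = ((b + 1 : ℕ) : ℝ) := by push_cast; ring
      rw [e]
      simp
    · have hb : a ≤ b + 1 := by omega
      rw [Finset.sum_Ico_succ_top hb]
      have h1 := ih hb
      have hbpos : (1 : ℝ) ≤ b := by
        have : 1 ≤ b := by omega
        exact_mod_cast this
      have h2 : (1 : ℝ) / ((b + 1 : ℕ) : ℝ) ^ 2 ≤ 1 / (b : ℝ) - 1 / ((b + 1 : ℕ) : ℝ) := by
        push_cast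
        rw [div_sub_div _ _ (by positivity) (by positivity),
          div_le_div_iff₀ (by positivity) (by positivity)]
        nlinarith
      linarith

end Pool.Agent.Chen.CIw

namespace Pool.Agent.Chen
open Finset
open scoped Classical
open CIw

theorem CI : Stmt_CI := by
  intro N Y z y hY h4 hz hzy hyY hN
  have hz0 : 0 < z := by linarith
  have hyY' : (0 : ℝ) < Y := by exact_mod_cast hY
  -- the sifted set
  set P1 := (Pr Y).filter (fun p => ∀ q ∈ Sf N z, ¬ q ∣ N - p) with hP1
  have hPr : ∀ p ∈ Pr Y, p.Prime ∧ Y < p ∧ p ≤ 2 * Y := by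
    intro p hp
    simp only [Pr, mem_filter, mem_Ioc] at hp
    exact ⟨hp.2, hp.1.1, hp.1.2⟩
  have hpt : ∀ p ∈ P1, (1 : ℝ) - 1 / 2 * (((Qs N z y).filter (fun q => q ∣ N - p)).card : ℝ) -
      1 / 2 * (if Tri z y (N - p) then 1 else 0) ≤
      (if (N - p).primeFactorsList.length ≤ 2 then 1 else 0) +
      (if ∃ q : ℕ, q.Prime ∧ z ≤ (q : ℝ) ∧ q * q ∣ N - p then 1 else 0) := by
    intro p hp
    rw [hP1, mem_filter] at hp
    obtain ⟨hp1, hp2, hp3⟩ := hPr p hp.1
    apply weight (N - p) N p z y hp1 (by omega) _ hz hzy hN (by omega) hp.2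
    have : (Y : ℝ) < p := by exact_mod_cast hp2
    linarith
  have hsum := Finset.sum_le_sum hpt
  rw [Finset.sum_sub_distrib, Finset.sum_sub_distrib, Finset.sum_add_distrib,
    ← Finset.mul_sum, ← Finset.mul_sum] at hsum
  -- S1
  have e1 : ∑ p ∈ P1, (1 : ℝ) = (S1 N Y z : ℝ) := by
    rw [Finset.sum_const, nsmul_eq_mul, mul_one]; rfl
  -- Sq
  have e2 : ∑ p ∈ P1, (((Qs N z y).filter (fun q => q ∣ N - p)).card : ℝ) =
      ∑ q ∈ Qs N z y, (Sq N Y z q : ℝ) := by
    have h1 : ∀ q, Sq N Y z q = (P1.filter (fun p => q ∣ N - p)).card := by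
      intro q
      unfold Sq
      congr 1
      ext p
      simp only [hP1, mem_filter]
      tauto
    simp only [h1]
    have : ∑ p ∈ P1, ((Qs N z y).filter (fun q => q ∣ N - p)).card =
        ∑ q ∈ Qs N z y, (P1.filter (fun p => q ∣ N - p)).card := by
      simp only [Finset.card_filter]
      exact Finset.sum_comm
    exact_mod_cast this
  -- S3
  have e3 : ∑ p ∈ P1, (if Tri z y (N - p) then (1 : ℝ) else 0) ≤ (S3 N Y z y : ℝ) := by
    rw [← Finset.sum_filter, Finset.sum_const, nsmul_eq_mul, mul_one]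
    have : (P1.filter (fun p => Tri z y (N - p))).card ≤ S3 N Y z y := by
      unfold S3
      refine Finset.card_le_card_of_injOn (fun p => N - p) ?_ ?_
      · intro p hp
        simp only [coe_filter, Set.mem_ofPred_eq] at hp
        rw [hP1, mem_filter] at hp
        obtain ⟨hp1, hp2, hp3⟩ := hPr p hp.1.1
        simp only [coe_filter, Set.mem_ofPred_eq, TB, mem_filter, mem_Ico]
        refine ⟨⟨⟨by omega, by omega⟩, hp.2⟩, ?_⟩
        have : N - (N - p) = p := by omega
        rw [this]; exact hp1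
      · intro p hp p' hp' h
        simp only [coe_filter, Set.mem_ofPred_eq] at hp hp'
        rw [hP1, mem_filter] at hp hp'
        obtain ⟨_, _, hp3⟩ := hPr p hp.1.1
        obtain ⟨_, _, hp3'⟩ := hPr p' hp'.1.1
        simp only at h
        omega
    exact_mod_cast this
  -- Cnt
  have e4 : ∑ p ∈ P1, (if (N - p).primeFactorsList.length ≤ 2 then (1 : ℝ) else 0) ≤
      (Cnt N Y : ℝ) := by
    rw [← Finset.sum_filter, Finset.sum_const, nsmul_eq_mul, mul_one]
    have : (P1.filter (fun p => (N - p).primeFactorsList.length ≤ 2)).card ≤ Cnt N Y := by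
      unfold Cnt
      apply Finset.card_le_card
      intro p hp
      rw [mem_filter, hP1, mem_filter] at hp
      rw [mem_filter]
      exact ⟨hp.1.1, hp.2⟩
    exact_mod_cast this
  -- squares
  have e5 : ∑ p ∈ P1, (if ∃ q : ℕ, q.Prime ∧ z ≤ (q : ℝ) ∧ q * q ∣ N - p then (1 : ℝ) else 0) ≤
      2 * Y / z + √(N : ℝ) + 1 := by
    rw [← Finset.sum_filter, Finset.sum_const, nsmul_eq_mul, mul_one]
    set a := ⌈z⌉₊ with ha
    set b := ⌊√(N : ℝ)⌋₊ with hb
    have ha2 : 2 ≤ a := by
      rw [ha]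
      have : (2 : ℝ) ≤ ⌈z⌉₊ := hz.trans (Nat.le_ceil z)
      exact_mod_cast this
    have hza : z ≤ a := Nat.le_ceil z
    have hsub : ((P1.filter (fun p => ∃ q : ℕ, q.Prime ∧ z ≤ (q : ℝ) ∧ q * q ∣ N - p)).card : ℝ) ≤
        ∑ q ∈ Ico a (b + 1),
          ((((Ico (N - 2 * Y) (N - Y)).filter (fun l => q * q ∣ l)).card : ℕ) : ℝ) := by
      have h1 : (P1.filter (fun p => ∃ q : ℕ, q.Prime ∧ z ≤ (q : ℝ) ∧ q * q ∣ N - p)).card ≤
          ((Ico a (b + 1)).biUnion
            (fun q => (Ico (N - 2 * Y) (N - Y)).filter (fun l => q * q ∣ l))).card := by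
        refine Finset.card_le_card_of_injOn (fun p => N - p) ?_ ?_
        · intro p hp
          simp only [coe_filter, Set.mem_ofPred_eq] at hp
          rw [hP1, mem_filter] at hp
          obtain ⟨hp1, hp2, hp3⟩ := hPr p hp.1.1
          obtain ⟨q, hq, hzq, hqd⟩ := hp.2
          dsimp only
          rw [mem_coe, mem_biUnion]
          refine ⟨q, ?_, ?_⟩
          · rw [mem_Ico]
            refine ⟨Nat.ceil_le.2 hzq, ?_⟩
            rw [Nat.lt_succ_iff, hb]
            apply Nat.le_floor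
            apply Real.le_sqrt_of_sq_le
            have h2 : q * q ≤ N := (Nat.le_of_dvd (by omega) hqd).trans (by omega)
            have : ((q * q : ℕ) : ℝ) ≤ N := by exact_mod_cast h2
            push_cast at this
            nlinarith
          · rw [mem_filter, mem_Ico]
            exact ⟨⟨by omega, by omega⟩, hqd⟩
        · intro p hp p' hp' h
          simp only [coe_filter, Set.mem_ofPred_eq] at hp hp'
          rw [hP1, mem_filter] at hp hp'
          obtain ⟨_, _, hp3⟩ := hPr p hp.1.1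
          obtain ⟨_, _, hp3'⟩ := hPr p' hp'.1.1
          simp only at h
          omega
      have h2 := h1.trans Finset.card_biUnion_le
      exact_mod_cast h2
    refine hsub.trans ?_
    by_cases hab : a ≤ b + 1
    · have h1 : ∀ q ∈ Ico a (b + 1),
          ((((Ico (N - 2 * Y) (N - Y)).filter (fun l => q * q ∣ l)).card : ℕ) : ℝ) ≤
          Y * (1 / (q : ℝ) ^ 2) + 1 := by
        intro q hq
        rw [mem_Ico] at hq
        have hq0 : 0 < q := by omega
        have h3 := mult_count (N - 2 * Y) (N - Y) (q * q) (Nat.mul_pos hq0 hq0) (by omega)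
        have h4' : (((N - Y : ℕ) : ℝ) - ((N - 2 * Y : ℕ) : ℝ)) = Y := by
          rw [Nat.cast_sub (by omega), Nat.cast_sub (by omega)]
          push_cast; ring
        rw [h4'] at h3
        refine h3.trans (le_of_eq ?_)
        push_cast
        ring
      refine (Finset.sum_le_sum h1).trans ?_
      rw [Finset.sum_add_distrib, ← Finset.mul_sum, Finset.sum_const, nsmul_eq_mul, mul_one,
        Nat.card_Ico]
      have h2 := sum_inv_sq a ha2 b hab
      have haR : (2 : ℝ) ≤ a := by exact_mod_cast ha2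
      have h3 : (1 : ℝ) / ((a : ℝ) - 1) ≤ 2 / z := by
        rw [div_le_div_iff₀ (by linarith) hz0]
        linarith
      have hb0 : (0 : ℝ) ≤ 1 / (b : ℝ) := by positivity
      have h4' : ∑ q ∈ Ico a (b + 1), (1 : ℝ) / (q : ℝ) ^ 2 ≤ 2 / z := by linarith
      have h5 : (Y : ℝ) * ∑ q ∈ Ico a (b + 1), (1 : ℝ) / (q : ℝ) ^ 2 ≤ 2 * Y / z := by
        calc (Y : ℝ) * ∑ q ∈ Ico a (b + 1), (1 : ℝ) / (q : ℝ) ^ 2 ≤ Y * (2 / z) :=
              mul_le_mul_of_nonneg_left h4' hyY'.le
          _ = 2 * Y / z := by ring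
      have h6 : ((b + 1 - a : ℕ) : ℝ) ≤ √(N : ℝ) := by
        have h7 : b + 1 - a ≤ b := by omega
        calc ((b + 1 - a : ℕ) : ℝ) ≤ (b : ℝ) := by exact_mod_cast h7
          _ ≤ √(N : ℝ) := Nat.floor_le (Real.sqrt_nonneg _)
      linarith
    · rw [Finset.Ico_eq_empty (by omega), Finset.sum_empty]
      positivity
  rw [e1, e2] at hsum
  linarith

end Pool.Agent.Chen
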