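import Pool.Agent.Work.Chen.CI

/-!
# The combinatorial inequality with large prime factors

The proof is the one of `CI`: only the numbers `N - p` without prime factors `< z` are counted.
-/

set_option autoImplicit false

namespace Pool.Agent.Chen

open Finset
open scoped Classical
open Finset
open scoped Classical
open CIw


/-- The number of `p ∈ (Y, 2Y]` such that `N - p` has at most two prime factors, and these are
at least `z`. -/
noncomputable def Cnt2 (N Y : ℕ) (z : ℝ) : ℕ :=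
  ((Pr Y).filter (fun p => (N - p).primeFactorsList.length ≤ 2 ∧
    ∀ q ∈ (N - p).primeFactorsList, z ≤ (q : ℝ))).card

/-- CI with `Cnt2`. -/
def Stmt_CI2 : Prop := ∀ (N Y : ℕ) (z y : ℝ), 1 ≤ Y → 4 * Y ≤ N → 2 ≤ z → z ≤ y → y ≤ Y →
  (N : ℝ) ≤ y ^ 3 →
  (S1 N Y z : ℝ) - 1 / 2 * ∑ q ∈ Qs N z y, (Sq N Y z q : ℝ) - 1 / 2 * (S3 N Y z y : ℝ)
    - (2 * Y / z + √(N : ℝ) + 1) ≤ (Cnt2 N Y z : ℝ)

/-- FIN with `Cnt2`. -/
def Stmt_FIN2 : Prop := ∀ k : ℕ, ∃ c : ℝ, 0 < c ∧ ∃ N₀ : ℕ, ∀ N ≥ N₀, ∀ Y, Reg k N Y →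
  c * (SS N * (Y / (Real.log N) ^ 2)) ≤ (Cnt2 N Y ((N : ℝ) ^ (1 / 8 : ℝ)) : ℝ)

theorem CI2 : Stmt_CI2 := by
  intro N Y z y hY h4 hz hzy hyY hN
  have hz0 : 0 < z := by linarith
  have hyY' : (0 : ℝ) < Y := by exact_mod_cast hY
  -- the sifted set
  set P1 := (Pr Y).filter (fun p => ∀ q ∈ Sf N z, ¬ q ∣ N - p) with hP1
  have hPr : ∀ p ∈ Pr Y, p.Prime ∧ Y < p ∧ p ≤ 2 * Y := by
    intro p hp
    simp only [Pr, mem_filter, mem_Ioc] at hp
    exact ⟨hp.2, hp.1.1, hp.1.2⟩
  have hpt : ∀ p ∈ P1, (1 : ℝ) - 1 / 2 * (((Qs N z y).filter (fun q => q ∣ N - p)).card : ℝ) -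
      1 / 2 * (if Tri z y (N - p) then 1 else 0) ≤
      (if (N - p).primeFactorsList.length ≤ 2 then 1 else 0) +
      (if ∃ q : ℕ, q.Prime ∧ z ≤ (q : ℝ) ∧ q * q ∣ N - p then 1 else 0) := by
    intro p hp
    rw [hP1, mem_filter] at hp
    obtain ⟨hp1, hp2, hp3⟩ := hPr p hp.1
    apply weight (N - p) N p z y hp1 (by omega) _ hz hzy hN (by omega) hp.2
    have : (Y : ℝ) < p := by exact_mod_cast hp2
    linarith
  have hsum := Finset.sum_le_sum hpt
  rw [Finset.sum_sub_distrib, Finset.sum_sub_distrib, Finset.sum_add_distrib,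
    ← Finset.mul_sum, ← Finset.mul_sum] at hsum
  -- S1
  have e1 : ∑ p ∈ P1, (1 : ℝ) = (S1 N Y z : ℝ) := by
    rw [Finset.sum_const, nsmul_eq_mul, mul_one]; rfl
  -- Sq
  have e2 : ∑ p ∈ P1, (((Qs N z y).filter (fun q => q ∣ N - p)).card : ℝ) =
      ∑ q ∈ Qs N z y, (Sq N Y z q : ℝ) := by
    have h1 : ∀ q, Sq N Y z q = (P1.filter (fun p => q ∣ N - p)).card := by
      intro q
      unfold Sq
      congr 1
      ext p
      simp only [hP1, mem_filter]
      tauto
    simp only [h1]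
    have : ∑ p ∈ P1, ((Qs N z y).filter (fun q => q ∣ N - p)).card =
        ∑ q ∈ Qs N z y, (P1.filter (fun p => q ∣ N - p)).card := by
      simp only [Finset.card_filter]
      exact Finset.sum_comm
    exact_mod_cast this
  -- S3
  have e3 : ∑ p ∈ P1, (if Tri z y (N - p) then (1 : ℝ) else 0) ≤ (S3 N Y z y : ℝ) := by
    rw [← Finset.sum_filter, Finset.sum_const, nsmul_eq_mul, mul_one]
    have : (P1.filter (fun p => Tri z y (N - p))).card ≤ S3 N Y z y := by
      unfold S3
      refine Finset.card_le_card_of_injOn (fun p => N - p) ?_ ?_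
      · intro p hp
        simp only [coe_filter, Set.mem_ofPred_eq] at hp
        rw [hP1, mem_filter] at hp
        obtain ⟨hp1, hp2, hp3⟩ := hPr p hp.1.1
        simp only [coe_filter, Set.mem_ofPred_eq, TB, mem_filter, mem_Ico]
        refine ⟨⟨⟨by omega, by omega⟩, hp.2⟩, ?_⟩
        have : N - (N - p) = p := by omega
        rw [this]; exact hp1
      · intro p hp p' hp' h
        simp only [coe_filter, Set.mem_ofPred_eq] at hp hp'
        rw [hP1, mem_filter] at hp hp'
        obtain ⟨_, _, hp3⟩ := hPr p hp.1.1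
        obtain ⟨_, _, hp3'⟩ := hPr p' hp'.1.1
        simp only at h
        omega
    exact_mod_cast this
  -- Cnt
  have e4 : ∑ p ∈ P1, (if (N - p).primeFactorsList.length ≤ 2 then (1 : ℝ) else 0) ≤
      (Cnt2 N Y z : ℝ) := by
    rw [← Finset.sum_filter, Finset.sum_const, nsmul_eq_mul, mul_one]
    have : (P1.filter (fun p => (N - p).primeFactorsList.length ≤ 2)).card ≤ Cnt2 N Y z := by
      unfold Cnt2
      apply Finset.card_le_card
      intro p hp
      rw [mem_filter, hP1, mem_filter] at hp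
      rw [mem_filter]
      refine ⟨hp.1.1, hp.2, fun q hq => ?_⟩
      obtain ⟨hp1, hp2, hp3⟩ := hPr p hp.1.1
      by_contra hlt
      push Not at hlt
      have hqp := Nat.prime_of_mem_primeFactorsList hq
      have hqd := Nat.dvd_of_mem_primeFactorsList hq
      by_cases hqN : q ∣ N
      · have h1 : q ∣ p := by
          have h2 : N = (N - p) + p := by omega
          rw [h2] at hqN
          exact (Nat.dvd_add_right hqd).1 hqN
        have h2 : q = p := (Nat.prime_dvd_prime_iff_eq hqp hp1).1 h1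
        have h3 : (Y : ℝ) < p := by exact_mod_cast hp2
        rw [h2] at hlt
        linarith
      · refine hp.1.2 q ?_ hqd
        unfold Sf
        rw [mem_filter, mem_range]
        exact ⟨Nat.lt_ceil.2 hlt, hqp, hqN⟩
    exact_mod_cast this
  -- squares
  have e5 : ∑ p ∈ P1, (if ∃ q : ℕ, q.Prime ∧ z ≤ (q : ℝ) ∧ q * q ∣ N - p then (1 : ℝ) else 0) ≤
      2 * Y / z + √(N : ℝ) + 1 := by
    rw [← Finset.sum_filter, Finset.sum_const, nsmul_eq_mul, mul_one]
    set a := ⌈z⌉₊ with ha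
    set b := ⌊√(N : ℝ)⌋₊ with hb
    have ha2 : 2 ≤ a := by
      rw [ha]
      have : (2 : ℝ) ≤ ⌈z⌉₊ := hz.trans (Nat.le_ceil z)
      exact_mod_cast this
    have hza : z ≤ a := Nat.le_ceil z
    have hsub : ((P1.filter (fun p => ∃ q : ℕ, q.Prime ∧ z ≤ (q : ℝ) ∧ q * q ∣ N - p)).card : ℝ) ≤
        ∑ q ∈ Ico a (b + 1),
          ((((Ico (N - 2 * Y) (N - Y)).filter (fun l => q * q ∣ l)).card : ℕ) : ℝ) := by
      have h1 : (P1.filter (fun p => ∃ q : ℕ, q.Prime ∧ z ≤ (q : ℝ) ∧ q * q ∣ N - p)).card ≤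
          ((Ico a (b + 1)).biUnion
            (fun q => (Ico (N - 2 * Y) (N - Y)).filter (fun l => q * q ∣ l))).card := by
        refine Finset.card_le_card_of_injOn (fun p => N - p) ?_ ?_
        · intro p hp
          simp only [coe_filter, Set.mem_ofPred_eq] at hp
          rw [hP1, mem_filter] at hp
          obtain ⟨hp1, hp2, hp3⟩ := hPr p hp.1.1
          obtain ⟨q, hq, hzq, hqd⟩ := hp.2
          dsimp only
          rw [mem_coe, mem_biUnion]
          refine ⟨q, ?_, ?_⟩
          · rw [mem_Ico]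
            refine ⟨Nat.ceil_le.2 hzq, ?_⟩
            rw [Nat.lt_succ_iff, hb]
            apply Nat.le_floor
            apply Real.le_sqrt_of_sq_le
            have h2 : q * q ≤ N := (Nat.le_of_dvd (by omega) hqd).trans (by omega)
            have : ((q * q : ℕ) : ℝ) ≤ N := by exact_mod_cast h2
            push_cast at this
            nlinarith
          · rw [mem_filter, mem_Ico]
            exact ⟨⟨by omega, by omega⟩, hqd⟩
        · intro p hp p' hp' h
          simp only [coe_filter, Set.mem_ofPred_eq] at hp hp'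
          rw [hP1, mem_filter] at hp hp'
          obtain ⟨_, _, hp3⟩ := hPr p hp.1.1
          obtain ⟨_, _, hp3'⟩ := hPr p' hp'.1.1
          simp only at h
          omega
      have h2 := h1.trans Finset.card_biUnion_le
      exact_mod_cast h2
    refine hsub.trans ?_
    by_cases hab : a ≤ b + 1
    · have h1 : ∀ q ∈ Ico a (b + 1),
          ((((Ico (N - 2 * Y) (N - Y)).filter (fun l => q * q ∣ l)).card : ℕ) : ℝ) ≤
          Y * (1 / (q : ℝ) ^ 2) + 1 := by
        intro q hq
        rw [mem_Ico] at hq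
        have hq0 : 0 < q := by omega
        have h3 := mult_count (N - 2 * Y) (N - Y) (q * q) (Nat.mul_pos hq0 hq0) (by omega)
        have h4' : (((N - Y : ℕ) : ℝ) - ((N - 2 * Y : ℕ) : ℝ)) = Y := by
          rw [Nat.cast_sub (by omega), Nat.cast_sub (by omega)]
          push_cast; ring
        rw [h4'] at h3
        refine h3.trans (le_of_eq ?_)
        push_cast
        ring
      refine (Finset.sum_le_sum h1).trans ?_
      rw [Finset.sum_add_distrib, ← Finset.mul_sum, Finset.sum_const, nsmul_eq_mul, mul_one,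
        Nat.card_Ico]
      have h2 := sum_inv_sq a ha2 b hab
      have haR : (2 : ℝ) ≤ a := by exact_mod_cast ha2
      have h3 : (1 : ℝ) / ((a : ℝ) - 1) ≤ 2 / z := by
        rw [div_le_div_iff₀ (by linarith) hz0]
        linarith
      have hb0 : (0 : ℝ) ≤ 1 / (b : ℝ) := by positivity
      have h4' : ∑ q ∈ Ico a (b + 1), (1 : ℝ) / (q : ℝ) ^ 2 ≤ 2 / z := by linarith
      have h5 : (Y : ℝ) * ∑ q ∈ Ico a (b + 1), (1 : ℝ) / (q : ℝ) ^ 2 ≤ 2 * Y / z := by
        calc (Y : ℝ) * ∑ q ∈ Ico a (b + 1), (1 : ℝ) / (q : ℝ) ^ 2 ≤ Y * (2 / z) :=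
              mul_le_mul_of_nonneg_left h4' hyY'.le
          _ = 2 * Y / z := by ring
      have h6 : ((b + 1 - a : ℕ) : ℝ) ≤ √(N : ℝ) := by
        have h7 : b + 1 - a ≤ b := by omega
        calc ((b + 1 - a : ℕ) : ℝ) ≤ (b : ℝ) := by exact_mod_cast h7
          _ ≤ √(N : ℝ) := Nat.floor_le (Real.sqrt_nonneg _)
      linarith
    · rw [Finset.Ico_eq_empty (by omega), Finset.sum_empty]
      positivity
  rw [e1, e2] at hsum
  linarith

end Pool.Agent.Chen
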