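import Pool.Agent.Work.Chen.Interface
import Pool.Agent.Work.LinearSieve.MERT

/-!
# The density condition of the linear sieve for `g p = 1 / (p - 1)`, `p ∤ N`; common lemmas
-/

set_option autoImplicit false

namespace Pool.Agent.Chen

open Finset
open scoped Classical

lemma mem_Sf {N : ℕ} {z : ℝ} {q : ℕ} : q ∈ Sf N z ↔ (q : ℝ) < z ∧ q.Prime ∧ ¬ q ∣ N := by
  unfold Sf
  rw [mem_filter, mem_range, Nat.lt_ceil]

/-- The small primes of `Sf N z`. -/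
noncomputable def Qf (N : ℕ) (z : ℝ) (u₀ : ℕ) : Finset ℕ := (Sf N z).filter (fun q => q < u₀)

lemma Qf_sub (N : ℕ) (z : ℝ) (u₀ : ℕ) : Qf N z u₀ ⊆ Sf N z := filter_subset _ _

lemma Sf_prime {N : ℕ} {z : ℝ} : ∀ p ∈ Sf N z, p.Prime := fun _ hp => (mem_Sf.1 hp).2.1

lemma Sf_lt {N : ℕ} {z : ℝ} : ∀ p ∈ Sf N z, (p : ℝ) < z := fun _ hp => (mem_Sf.1 hp).1

lemma Sf_ge_three {N : ℕ} (hN : Even N) {z : ℝ} {p : ℕ} (hp : p ∈ Sf N z) : 3 ≤ p := by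
  have h := mem_Sf.1 hp
  have h2 := h.2.1.two_le
  rcases Nat.lt_or_ge 2 p with h3 | h3
  · exact h3
  · have : p = 2 := by omega
    subst this
    exact absurd hN.two_dvd h.2.2

lemma g_nonneg {N : ℕ} {z : ℝ} : ∀ p ∈ Sf N z, (0 : ℝ) ≤ 1 / ((p : ℝ) - 1) := by
  intro p hp
  have h : (1 : ℝ) < p := by exact_mod_cast (Sf_prime p hp).one_lt
  have : 0 < (p : ℝ) - 1 := by linarith
  positivity

lemma g_lt_one {N : ℕ} (hN : Even N) {z : ℝ} : ∀ p ∈ Sf N z, 1 / ((p : ℝ) - 1) < 1 := by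
  intro p hp
  have h : (3 : ℝ) ≤ p := by exact_mod_cast Sf_ge_three hN hp
  rw [div_lt_one (by linarith)]
  linarith

/-- A product over a subset is larger. -/
lemma prod_anti {s t : Finset ℕ} (hst : s ⊆ t) (f : ℕ → ℝ) (h0 : ∀ i ∈ t, 0 ≤ f i)
    (h1 : ∀ i ∈ t, f i ≤ 1) : ∏ i ∈ t, f i ≤ ∏ i ∈ s, f i := by
  rw [← prod_sdiff hst]
  have h2 : ∏ i ∈ t \ s, f i ≤ 1 :=
    prod_le_one (fun i hi => h0 i (mem_sdiff.1 hi).1) (fun i hi => h1 i (mem_sdiff.1 hi).1)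
  have h3 : 0 ≤ ∏ i ∈ s, f i := prod_nonneg (fun i hi => h0 i (hst hi))
  exact mul_le_of_le_one_left h3 h2

lemma fac_nonneg {p : ℕ} (hp : 2 ≤ p) : 0 ≤ 1 - 1 / ((p : ℝ) - 1) := by
  have h : (2 : ℝ) ≤ p := by exact_mod_cast hp
  rw [sub_nonneg, div_le_one (by linarith)]
  linarith

lemma fac_le_one {p : ℕ} (hp : 2 ≤ p) : 1 - 1 / ((p : ℝ) - 1) ≤ 1 := by
  have h : (2 : ℝ) ≤ p := by exact_mod_cast hp
  have : 0 < (p : ℝ) - 1 := by linarith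
  have : 0 ≤ 1 / ((p : ℝ) - 1) := by positivity
  linarith

/-- **The density condition** of `LinProp`, uniformly in `N` and `z`. -/
theorem dens (ε : ℝ) (hε : 0 < ε) : ∃ u₀ : ℕ, 3 ≤ u₀ ∧ ∀ (N : ℕ) (z : ℝ) (u w : ℝ), 2 ≤ u → u ≤ w →
    w ≤ z → 1 ≤ (1 + ε) * (Real.log w / Real.log u) *
    ∏ p ∈ (Sf N z \ Qf N z u₀).filter (fun p : ℕ => u ≤ (p : ℝ) ∧ (p : ℝ) < w),
      (1 - 1 / ((p : ℝ) - 1)) := by
  obtain ⟨u₀, hu₀, hM⟩ := LinSieve.MERT ε hε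
  refine ⟨u₀, hu₀, fun N z u w hu huw hwz => ?_⟩
  have hlu : 0 < Real.log u := Real.log_pos (by linarith)
  have hlw : Real.log u ≤ Real.log w := Real.log_le_log (by linarith) huw
  have h1 : 1 ≤ Real.log w / Real.log u := by rwa [le_div_iff₀ hlu, one_mul]
  have hmem : ∀ p ∈ (Sf N z \ Qf N z u₀).filter (fun p : ℕ => u ≤ (p : ℝ) ∧ (p : ℝ) < w),
      p.Prime ∧ u₀ ≤ p ∧ u ≤ (p : ℝ) ∧ (p : ℝ) < w := by
    intro p hp
    rw [mem_filter, mem_sdiff] at hp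
    obtain ⟨⟨h2, h3⟩, h4, h5⟩ := hp
    refine ⟨Sf_prime p h2, ?_, h4, h5⟩
    by_contra h6
    exact h3 (mem_filter.2 ⟨h2, by omega⟩)
  rcases le_or_gt w (max u u₀) with h2 | h2
  · have h3 : (Sf N z \ Qf N z u₀).filter (fun p : ℕ => u ≤ (p : ℝ) ∧ (p : ℝ) < w) = ∅ := by
      rw [eq_empty_iff_forall_notMem]
      intro p hp
      obtain ⟨_, h4, h5, h6⟩ := hmem p hp
      have h7 : (u₀ : ℝ) ≤ p := by exact_mod_cast h4
      have : max u (u₀ : ℝ) ≤ p := max_le h5 h7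
      linarith
    rw [h3, prod_empty, mul_one]
    nlinarith
  · have h3 := (hM (max u u₀) w (le_max_right _ _) h2.le).1
    refine h3.trans ?_
    have hlm : Real.log u ≤ Real.log (max u u₀) :=
      Real.log_le_log (by linarith) (le_max_left _ _)
    have hsub : (Sf N z \ Qf N z u₀).filter (fun p : ℕ => u ≤ (p : ℝ) ∧ (p : ℝ) < w) ⊆
        (range ⌈w⌉₊).filter (fun p : ℕ => p.Prime ∧ max u (u₀ : ℝ) ≤ (p : ℝ)) := by
      intro p hp
      obtain ⟨h4, h5, h6, h7⟩ := hmem p hp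
      rw [mem_filter, mem_range, Nat.lt_ceil]
      exact ⟨h7, h4, max_le h6 (by exact_mod_cast h5)⟩
    have h4 := prod_anti hsub (fun p : ℕ => 1 - 1 / ((p : ℝ) - 1))
      (fun p hp => fac_nonneg (mem_filter.1 hp).2.1.two_le)
      (fun p hp => fac_le_one (mem_filter.1 hp).2.1.two_le)
    have h5 : (0 : ℝ) ≤ ∏ p ∈ (range ⌈w⌉₊).filter (fun p : ℕ => p.Prime ∧ max u (u₀ : ℝ) ≤ (p : ℝ)),
        (1 - 1 / ((p : ℝ) - 1)) :=
      prod_nonneg (fun p hp => fac_nonneg (mem_filter.1 hp).2.1.two_le)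
    have h6 : Real.log w / Real.log (max u u₀) ≤ Real.log w / Real.log u :=
      div_le_div_of_nonneg_left (by linarith) hlu hlm
    have h7 : 0 ≤ Real.log w / Real.log (max u u₀) := by
      apply div_nonneg <;> linarith
    gcongr

lemma prod_Qf_pos (N : ℕ) (z : ℝ) (u₀ : ℕ) : 1 ≤ ∏ q ∈ Qf N z u₀, q :=
  Finset.prod_pos (fun q hq => (Sf_prime q (Qf_sub N z u₀ hq)).pos)

/-- The product of the small primes is bounded. -/
lemma prod_Qf_le (N : ℕ) (z : ℝ) (u₀ : ℕ) (hu₀ : 1 ≤ u₀) : ∏ q ∈ Qf N z u₀, q ≤ u₀ ^ u₀ := by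
  have h1 : ∏ q ∈ Qf N z u₀, q ≤ u₀ ^ (Qf N z u₀).card :=
    prod_le_pow_card _ _ _ (fun q hq => (mem_filter.1 hq).2.le)
  refine h1.trans (Nat.pow_le_pow_right hu₀ ?_)
  have h2 : Qf N z u₀ ⊆ range u₀ := fun q hq => mem_range.2 (mem_filter.1 hq).2
  simpa using card_le_card h2

lemma VN_pos {N : ℕ} (hN : Even N) (z : ℝ) : 0 < VN N z := by
  refine prod_pos (fun p hp => ?_)
  have := g_lt_one hN p hp
  linarith

lemma VN_le_one (N : ℕ) (z : ℝ) : VN N z ≤ 1 :=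
  prod_le_one (fun p hp => fac_nonneg (Sf_prime p hp).two_le)
    (fun p hp => fac_le_one (Sf_prime p hp).two_le)

/-- `VN N z ≥ c / log z`. -/
theorem VN_lower : ∃ c : ℝ, 0 < c ∧ ∀ N : ℕ, Even N → ∀ z : ℝ, 2 ≤ z →
    c / Real.log z ≤ VN N z := by
  obtain ⟨u₀, hu₀, hd⟩ := dens 1 one_pos
  have hl2 : 0 < Real.log 2 := Real.log_pos (by norm_num)
  refine ⟨(1 / 2) ^ u₀ * (Real.log 2 / 2), by positivity, fun N hN z hz => ?_⟩
  have hlz : 0 < Real.log z := Real.log_pos (by linarith)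
  have h1 := hd N z 2 z le_rfl hz le_rfl
  have h2 : (Sf N z \ Qf N z u₀).filter (fun p : ℕ => (2 : ℝ) ≤ (p : ℝ) ∧ (p : ℝ) < z)
      = Sf N z \ Qf N z u₀ := by
    rw [filter_eq_self]
    intro p hp
    have h3 := (mem_sdiff.1 hp).1
    exact ⟨by exact_mod_cast (Sf_prime p h3).two_le, Sf_lt p h3⟩
  rw [h2] at h1
  have h3 : VN N z = (∏ p ∈ Sf N z \ Qf N z u₀, (1 - 1 / ((p : ℝ) - 1))) *
      ∏ p ∈ Qf N z u₀, (1 - 1 / ((p : ℝ) - 1)) := (prod_sdiff (Qf_sub N z u₀)).symm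
  have h4 : (1 / 2 : ℝ) ^ u₀ ≤ ∏ p ∈ Qf N z u₀, (1 - 1 / ((p : ℝ) - 1)) := by
    have h5 : (1 / 2 : ℝ) ^ (Qf N z u₀).card ≤ ∏ p ∈ Qf N z u₀, (1 - 1 / ((p : ℝ) - 1)) := by
      rw [← prod_const]
      apply prod_le_prod (fun _ _ => by norm_num)
      intro p hp
      have h6 : (3 : ℝ) ≤ p := by exact_mod_cast Sf_ge_three hN (Qf_sub N z u₀ hp)
      have h7 : 1 / ((p : ℝ) - 1) ≤ 1 / 2 := one_div_le_one_div_of_le (by norm_num) (by linarith)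
      linarith
    refine le_trans (pow_le_pow_of_le_one (by norm_num) (by norm_num) ?_) h5
    have h8 : Qf N z u₀ ⊆ range u₀ := fun q hq => mem_range.2 (mem_filter.1 hq).2
    simpa using card_le_card h8
  have h5 : Real.log 2 / 2 / Real.log z ≤ ∏ p ∈ Sf N z \ Qf N z u₀, (1 - 1 / ((p : ℝ) - 1)) := by
    rw [div_le_iff₀ hlz, div_le_iff₀ (by norm_num : (0 : ℝ) < 2)]
    have h6 : (1 + 1 : ℝ) * (Real.log z / Real.log 2) *
        (∏ p ∈ Sf N z \ Qf N z u₀, (1 - 1 / ((p : ℝ) - 1))) * Real.log 2 =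
        (∏ p ∈ Sf N z \ Qf N z u₀, (1 - 1 / ((p : ℝ) - 1))) * Real.log z * 2 := by
      field_simp
      ring
    rw [← h6]
    nlinarith
  rw [h3]
  calc (1 / 2) ^ u₀ * (Real.log 2 / 2) / Real.log z
      = (Real.log 2 / 2 / Real.log z) * (1 / 2) ^ u₀ := by ring
    _ ≤ _ := mul_le_mul h5 h4 (by positivity) ((by positivity : (0 : ℝ) ≤ _).trans h5)

lemma sf_prod_coprime (N : ℕ) (z : ℝ) : (∏ p ∈ Sf N z, p).Coprime N := by
  apply Nat.Coprime.prod_left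
  intro p hp
  have h := mem_Sf.1 hp
  exact (h.2.1.coprime_iff_not_dvd).2 h.2.2

lemma sf_prod_squarefree (N : ℕ) (z : ℝ) : Squarefree (∏ p ∈ Sf N z, p) := by
  apply Finset.squarefree_prod_of_pairwise_isCoprime
  · intro p hp q hq hpq
    have h1 := (mem_Sf.1 (mem_coe.1 hp)).2.1
    have h2 := (mem_Sf.1 (mem_coe.1 hq)).2.1
    exact (Nat.coprime_iff_isRelPrime).1 ((Nat.coprime_primes h1 h2).2 hpq)
  · intro p hp
    exact (Sf_prime p hp).squarefree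

lemma coprime_of_mem {N : ℕ} {z : ℝ} {d : ℕ} (hd : d ∣ ∏ p ∈ Sf N z, p) : d.Coprime N :=
  Nat.Coprime.coprime_dvd_left hd (sf_prod_coprime N z)

lemma squarefree_of_mem {N : ℕ} {z : ℝ} {d : ℕ} (hd : d ∣ ∏ p ∈ Sf N z, p) : Squarefree d :=
  (sf_prod_squarefree N z).squarefree_of_dvd hd

lemma primeFactors_of_mem {N : ℕ} {z : ℝ} {d : ℕ} (hd : d ∣ ∏ p ∈ Sf N z, p) {q : ℕ}
    (hq : q ∈ d.primeFactors) : q ∈ Sf N z := by
  have h1 := Nat.prime_of_mem_primeFactors hq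
  have h2 := (Nat.dvd_of_mem_primeFactors hq).trans hd
  obtain ⟨p, hp, hqp⟩ := (Prime.dvd_finsetProd_iff h1.prime _).1 h2
  rw [(Nat.prime_dvd_prime_iff_eq h1 (Sf_prime p hp)).1 hqp]
  exact hp

/-- `φ(d) = ∏_{p ∣ d} (p - 1)` for squarefree `d`. -/
lemma prod_g_eq {d : ℕ} (hd : Squarefree d) :
    ∏ p ∈ d.primeFactors, (1 / ((p : ℝ) - 1)) = 1 / (d.totient : ℝ) := by
  have h1 : (d.totient : ℝ) = ∏ p ∈ d.primeFactors, ((p : ℝ) - 1) := by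
    have h2 := Nat.totient_mul_prod_primeFactors d
    rw [Nat.prod_primeFactors_of_squarefree hd] at h2
    have h3 : 0 < d := Nat.pos_of_ne_zero hd.ne_zero
    have h4 : d.totient = ∏ p ∈ d.primeFactors, (p - 1) := by
      apply Nat.eq_of_mul_eq_mul_right h3
      rw [h2, mul_comm]
    rw [h4, Nat.cast_prod]
    apply prod_congr rfl
    intro p hp
    rw [Nat.cast_sub (Nat.prime_of_mem_primeFactors hp).one_le, Nat.cast_one]
  rw [h1, prod_div_distrib, prod_const_one]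

/-- `d ∣ N - p` as a congruence. -/
lemma dvd_sub_iff {N p d : ℕ} (h : p ≤ N) : d ∣ N - p ↔ (p : ZMod d) = (N : ZMod d) := by
  rw [ZMod.natCast_eq_natCast_iff, ← Nat.modEq_iff_dvd' h]

end Pool.Agent.Chen
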