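import Mathlib

/-!
# Chen's theorem with the prime in a window `(Y, 2Y]`, `N / (log N)^k ≤ Y ≤ N / 4`:
definitions and block statements

Parameters: `N` even, `z = N^(1/8)`, `y = N^(1/3)`, level of distribution `N^(1/2 - η)`.
The weights: `1 - (1/2) ∑_{z ≤ q < y, q ∣ n} 1 - (1/2) [n = p₁ p₂ p₃, z ≤ p₁ < y ≤ p₂ ≤ p₃]` with
`n = N - p`. In the end `(A/8) (2 log 3 - log 6 - J) > 0` with
`J = ∫_{1/8}^{1/3} log (2 - 3β) / (β (1 - β)) dβ = 0.3631`.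
-/

set_option autoImplicit false

namespace Pool.Agent.Chen

open Finset
open scoped Classical

/-- The linear sieve with the constant `A` (the body of `LinearSieve.Stmt_Lin`). -/
def LinProp (A : ℝ) : Prop := 0 < A ∧ ∀ δ : ℝ, 0 < δ → ∃ ε : ℝ, 0 < ε ∧
  ∀ (P Q : Finset ℕ) (g : ℕ → ℝ),
  (∀ p ∈ P, p.Prime) → Q ⊆ P → (∀ p ∈ P, 0 ≤ g p) → (∀ p ∈ P, g p < 1) →
  ∀ (z D : ℝ), 2 ≤ z → (∀ p ∈ P, (p : ℝ) < z) →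
  (∀ u w : ℝ, 2 ≤ u → u ≤ w → w ≤ z → 1 ≤ (1 + ε) * (Real.log w / Real.log u) *
    ∏ p ∈ (P \ Q).filter (fun p : ℕ => u ≤ (p : ℝ) ∧ (p : ℝ) < w), (1 - g p)) →
  ∀ (𝒜 : Finset ℕ) (ν : ℕ → ℕ) (a : ℕ → ℝ), (∀ i ∈ 𝒜, 0 ≤ a i) →
  ∀ X : ℝ, 0 ≤ X →
  (z ≤ D → D ≤ z ^ 3 → ∑ i ∈ 𝒜.filter (fun i => ∀ p ∈ P, ¬ p ∣ ν i), a i ≤
    X * (∏ p ∈ P, (1 - g p)) * (A / (Real.log D / Real.log z) + δ) +
      ∑ d ∈ (∏ p ∈ P, p).divisors.filter (fun d : ℕ => (d : ℝ) < D * (∏ q ∈ Q, q : ℕ)),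
        |∑ i ∈ 𝒜.filter (fun i => d ∣ ν i), a i - X * ∏ p ∈ d.primeFactors, g p|) ∧
  (z ^ 2 ≤ D → D ≤ z ^ 4 → X * (∏ p ∈ P, (1 - g p)) *
      (A * Real.log (Real.log D / Real.log z - 1) / (Real.log D / Real.log z) - δ) -
      ∑ d ∈ (∏ p ∈ P, p).divisors.filter (fun d : ℕ => (d : ℝ) < D * (∏ q ∈ Q, q : ℕ)),
        |∑ i ∈ 𝒜.filter (fun i => d ∣ ν i), a i - X * ∏ p ∈ d.primeFactors, g p| ≤
    ∑ i ∈ 𝒜.filter (fun i => ∀ p ∈ P, ¬ p ∣ ν i), a i)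

/-- The primes in `(Y, 2Y]`. -/
noncomputable def Pr (Y : ℕ) : Finset ℕ := (Ioc Y (2 * Y)).filter Nat.Prime

/-- The sieving primes: the primes `q < z` not dividing `N`. -/
noncomputable def Sf (N : ℕ) (z : ℝ) : Finset ℕ :=
  (range ⌈z⌉₊).filter (fun q => q.Prime ∧ ¬ q ∣ N)

/-- The sieve product `∏_{q < z, q ∤ N} (1 - 1 / (q - 1))`. -/
noncomputable def VN (N : ℕ) (z : ℝ) : ℝ := ∏ q ∈ Sf N z, (1 - 1 / ((q : ℝ) - 1))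

/-- The number of `p ∈ (Y, 2Y]` such that `N - p` has no prime factor in `Sf N z`. -/
noncomputable def S1 (N Y : ℕ) (z : ℝ) : ℕ :=
  ((Pr Y).filter (fun p => ∀ q ∈ Sf N z, ¬ q ∣ N - p)).card

/-- The same with `q ∣ N - p`. -/
noncomputable def Sq (N Y : ℕ) (z : ℝ) (q : ℕ) : ℕ :=
  ((Pr Y).filter (fun p => q ∣ N - p ∧ ∀ q' ∈ Sf N z, ¬ q' ∣ N - p)).card

/-- The primes `z ≤ q < y` not dividing `N`. -/
noncomputable def Qs (N : ℕ) (z y : ℝ) : Finset ℕ :=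
  (range ⌈y⌉₊).filter (fun q => q.Prime ∧ z ≤ (q : ℝ) ∧ ¬ q ∣ N)

/-- The products `p₁ p₂ p₃` of primes with `z ≤ p₁ < y ≤ p₂ ≤ p₃`. -/
def Tri (z y : ℝ) (l : ℕ) : Prop := ∃ p₁ p₂ p₃ : ℕ, p₁.Prime ∧ p₂.Prime ∧ p₃.Prime ∧
  z ≤ (p₁ : ℝ) ∧ (p₁ : ℝ) < y ∧ y ≤ (p₂ : ℝ) ∧ p₂ ≤ p₃ ∧ l = p₁ * p₂ * p₃

/-- Those in the window `[N - 2Y, N - Y)`, that is `N - l ∈ (Y, 2Y]`. -/
noncomputable def TB (N Y : ℕ) (z y : ℝ) : Finset ℕ := (Ico (N - 2 * Y) (N - Y)).filter (Tri z y)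

/-- Those for which moreover `N - l` is prime. -/
noncomputable def S3 (N Y : ℕ) (z y : ℝ) : ℕ :=
  ((TB N Y z y).filter (fun l => (N - l).Prime)).card

/-- The number of `p ∈ (Y, 2Y]` such that `N - p` has at most two prime factors. -/
noncomputable def Cnt (N Y : ℕ) : ℕ :=
  ((Pr Y).filter (fun p => (N - p).primeFactorsList.length ≤ 2)).card

/-- The odd part of the singular series. -/
noncomputable def SS (N : ℕ) : ℝ :=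
  ∏ p ∈ N.primeFactors.filter (fun p => 2 < p), (((p : ℝ) - 1) / ((p : ℝ) - 2))

/-- The admissible pairs `(N, Y)`. -/
def Reg (k N Y : ℕ) : Prop := Even N ∧ 4 * Y ≤ N ∧ (N : ℝ) ≤ Y * (Real.log N) ^ k

/-- CI: the combinatorial inequality. `E = 2Y/z + √N + 1` bounds the number of `p` for which
`q² ∣ N - p` for some prime `q ≥ z`. A prime factor `q < y ≤ Y` of `N - p` cannot divide `N`. -/
def Stmt_CI : Prop := ∀ (N Y : ℕ) (z y : ℝ), 1 ≤ Y → 4 * Y ≤ N → 2 ≤ z → z ≤ y → y ≤ Y →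
  (N : ℝ) ≤ y ^ 3 →
  (S1 N Y z : ℝ) - 1 / 2 * ∑ q ∈ Qs N z y, (Sq N Y z q : ℝ) - 1 / 2 * (S3 N Y z y : ℝ)
    - (2 * Y / z + √(N : ℝ) + 1) ≤ (Cnt N Y : ℝ)

/-- PS: prime sums against integrals, uniformly in the monotone function and in `a ≤ b`, from
Mertens' second theorem (`mertens2` in `Work/MP_b0c12c_nt_helper41/Mert.lean`) by summation by
parts. (For fixed continuous functions see `Work/Chen/QS.lean`.) -/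
def Stmt_PS : Prop := ∃ C : ℝ, 0 < C ∧ ∀ (x a b M : ℝ), 1 < x → 0 < a → a ≤ b → 2 ≤ x ^ a →
  ∀ φ : ℝ → ℝ, (MonotoneOn φ (Set.Icc a b) ∨ AntitoneOn φ (Set.Icc a b)) →
  (∀ t ∈ Set.Icc a b, 0 ≤ φ t ∧ φ t ≤ M) →
  |∑ p ∈ (range ⌈x ^ b⌉₊).filter (fun p : ℕ => p.Prime ∧ x ^ a ≤ (p : ℝ)),
      φ (Real.log p / Real.log x) / p - ∫ t in a..b, φ t / t| ≤ C * M / (a * Real.log x)

/-- PR: the number of primes in `(Y, 2Y]` (prime number theorem). -/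
def Stmt_PR : Prop := ∀ (k : ℕ) (δ : ℝ), 0 < δ → ∃ N₀ : ℕ, ∀ N ≥ N₀, ∀ Y, Reg k N Y →
  (1 - δ) * (Y / Real.log N) ≤ ((Pr Y).card : ℝ) ∧
  ((Pr Y).card : ℝ) ≤ (1 + δ) * (Y / Real.log N)

/-- VL: lower bound for the sieve product, with the singular series. -/
def Stmt_VL : Prop := ∃ c : ℝ, 0 < c ∧ ∃ N₀ : ℕ, ∀ N ≥ N₀, Even N →
  c * (SS N / Real.log N) ≤ VN N ((N : ℝ) ^ (1 / 8 : ℝ))

/-- A1: the main term, from the lower bound linear sieve at `s = 4 - 8η` and Bombieri–Vinogradov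
(`Stmt_BVP` is enough here). -/
def Stmt_A1 : Prop := ∀ A : ℝ, LinProp A →
  ∀ (k : ℕ) (δ : ℝ), 0 < δ → ∃ N₀ : ℕ, ∀ N ≥ N₀, ∀ Y, Reg k N Y →
  ((Pr Y).card : ℝ) * VN N ((N : ℝ) ^ (1 / 8 : ℝ)) * (A * Real.log 3 / 4 - δ)
    ≤ (S1 N Y ((N : ℝ) ^ (1 / 8 : ℝ)) : ℝ)

/-- AQ: the sum over `q`, from the upper bound linear sieve of level `D / q`, `F(s) = A/s`,
`Stmt_BVW` with `k = 1` and prime sums; here `∫_{1/8}^{1/3} du / (u (4 - 8u)) = (log 6) / 4`. -/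
def Stmt_AQ : Prop := ∀ A : ℝ, LinProp A →
  ∀ (k : ℕ) (δ : ℝ), 0 < δ → ∃ N₀ : ℕ, ∀ N ≥ N₀, ∀ Y, Reg k N Y →
  ∑ q ∈ Qs N ((N : ℝ) ^ (1 / 8 : ℝ)) ((N : ℝ) ^ (1 / 3 : ℝ)),
      (Sq N Y ((N : ℝ) ^ (1 / 8 : ℝ)) q : ℝ) ≤
    ((Pr Y).card : ℝ) * VN N ((N : ℝ) ^ (1 / 8 : ℝ)) * (A * Real.log 6 / 4 + δ)

/-- AB: the switching. The numbers `N - l`, `l ∈ TB`, are sieved by the primes `< z₂ = D^(1/2)`
with the upper bound linear sieve, `F(2) = A/2`; `VN N z₂ ≤ (1+ε) VN N z · log z / log z₂` (MERT;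
the primes `q ∣ N`, `q ≥ z` are at most `8`); the remainder is the bilinear Bombieri–Vinogradov
theorem `main_bvbp` with the primes in `[z, y)` and `α(m) = [m = p₂ p₃, y ≤ p₂ ≤ p₃]`; the `l`
not coprime to `d` are negligible. -/
def Stmt_AB : Prop := ∀ A : ℝ, LinProp A →
  ∀ (k : ℕ) (δ : ℝ), 0 < δ → ∃ N₀ : ℕ, ∀ N ≥ N₀, ∀ Y, Reg k N Y →
  (S3 N Y ((N : ℝ) ^ (1 / 8 : ℝ)) ((N : ℝ) ^ (1 / 3 : ℝ)) : ℝ) ≤
    (((TB N Y ((N : ℝ) ^ (1 / 8 : ℝ)) ((N : ℝ) ^ (1 / 3 : ℝ))).card : ℝ) * (A / 4 + δ)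
      + δ * ((Pr Y).card : ℝ)) * VN N ((N : ℝ) ^ (1 / 8 : ℝ))

/-- XB: the number of the products, with the exact constant
`J = ∫_{1/8}^{1/3} log (2 - 3β) / (β (1 - β)) dβ`. For given `p₁ = N^β₁`, `p₂ = N^β₂` the number
of `p₃` is at most `(1+δ) Y / (p₁ p₂ (1 - β₁ - β₂) log N)` by the prime number theorem (`SW/PNT`);
the inner sum over `p₂ ∈ [N^(1/3), (N/p₁)^(1/2)]` is at most `log (2 - 3β₁)/(1 - β₁) + δ` and the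
outer sum is `J + δ`, by `Stmt_PS` twice. -/
def Stmt_XB : Prop := ∀ (k : ℕ) (δ : ℝ), 0 < δ → ∃ N₀ : ℕ, ∀ N ≥ N₀, ∀ Y, Reg k N Y →
  ((TB N Y ((N : ℝ) ^ (1 / 8 : ℝ)) ((N : ℝ) ^ (1 / 3 : ℝ))).card : ℝ) ≤
    ((∫ β in (1 / 8 : ℝ)..(1 / 3), Real.log (2 - 3 * β) / (β * (1 - β))) + δ) *
      (Y / Real.log N)

/-- NUM: `J < 2/5 < log (3/2) = 2 log 3 - log 6`; true value `J = 0.3631`, use
`log (1 + t) ≤ t - t²/2 + t³/3` with `t = 1 - 3β`. -/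
def Stmt_NUM : Prop :=
  (∫ β in (1 / 8 : ℝ)..(1 / 3), Real.log (2 - 3 * β) / (β * (1 - β))) < 2 / 5 ∧
  (2 / 5 : ℝ) < 2 * Real.log 3 - Real.log 6

/-- FIN: Chen's theorem in a window. -/
def Stmt_FIN : Prop := ∀ k : ℕ, ∃ c : ℝ, 0 < c ∧ ∃ N₀ : ℕ, ∀ N ≥ N₀, ∀ Y, Reg k N Y →
  c * (SS N * (Y / (Real.log N) ^ 2)) ≤ (Cnt N Y : ℝ)

end Pool.Agent.Chen
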